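import Pool.Agent.Lib.MP_adb5ad_gt.W.Spec

/-!
# Assembly of the final statements of package W
-/

set_option autoImplicit false

open MeasureTheory FourierTransform Real Filter Topology Set

noncomputable section

namespace Pool.Agent.Lib.MP_adb5ad_gt.W

open Pool.Agent.Lib.MP_adb5ad_gt

/-- `f` belongs to the class W and its value is the optimal linear programming bound
`B_d(α)`, the supremum of the values of all admissible functions. -/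
def Attains (d : ℕ) (α : ℝ) (f : E d → ℝ) : Prop :=
  AdmW d α f ∧ IsLUB {v : ℝ | ∃ g : E d → ℝ, Admissible d α g ∧ value g = v} (value f)

theorem attains_iff (hVal : S_Val) {d : ℕ} (hd : 1 ≤ d) {α : ℝ} (hα : 0 < α) (f : E d → ℝ) :
    Attains d α f ↔ IsOptW d α f := by
  constructor
  · rintro ⟨h1, h2⟩
    exact (hVal d α hd hα f h1).2 h2
  · intro h
    exact ⟨h.1, (hVal d α hd hα f h.1).1 h⟩

/-- Existence of a radial optimal function. -/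
theorem attained (hVal : S_Val) (hRad : S_Rad) (hPi : S_PiC) (d : ℕ) (hd : 1 ≤ d) (α : ℝ)
    (hα : 0 < α) : ∃ f : E d → ℝ, Attains d α f ∧ (∀ x y : E d, ‖x‖ = ‖y‖ → f x = f y) ∧
      (α = π → ∀ x, f x + (ft f x).re = Real.exp (-π * ‖x‖ ^ 2)) := by
  obtain ⟨f, hf, hr⟩ := hRad d α hd hα
  by_cases hαπ : α = π
  · subst hαπ
    obtain ⟨F, hF, hFr, hFp⟩ := hPi d hd f hf hr
    exact ⟨F, (attains_iff hVal hd hα F).2 hF, hFr, fun _ => hFp⟩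
  · exact ⟨f, (attains_iff hVal hd hα f).2 hf, hr, fun h => absurd h hαπ⟩

/-- Gaps of the common contact radii and zero radii. -/
theorem common_gaps (hVal : S_Val) (hRad : S_Rad) (hGen : S_Gen) (hGap : S_GapW) (d : ℕ)
    (hd : 2 ≤ d) (α : ℝ) (hα : 0 < α) (ρ : ℝ) (hρ : 0 < ρ) :
    ∃ s₀ : ℝ, ∀ s : ℝ, s₀ ≤ s →
      (∃ x : E d, x ≠ 0 ∧ s ≤ ‖x‖ ∧ ‖x‖ ≤ s + ρ ∧
        ∀ f : E d → ℝ, Attains d α f → f x = Real.exp (-α * ‖x‖ ^ 2)) ∧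
      (∃ y : E d, y ≠ 0 ∧ s ≤ ‖y‖ ∧ ‖y‖ ≤ s + ρ ∧
        ∀ f : E d → ℝ, Attains d α f → ft f y = 0) := by
  have hd1 : 1 ≤ d := by omega
  obtain ⟨f₀, hf₀, -⟩ := hRad d α hd1 hα
  obtain ⟨F, hF, hFg⟩ := hGen d α hd1 hα ⟨f₀, hf₀⟩
  obtain ⟨s₀, hs₀⟩ := hGap d α hd hα F hF ρ hρ
  refine ⟨max 1 s₀, fun s hs => ?_⟩
  have h1 : 1 ≤ s := (le_max_left _ _).trans hs
  obtain ⟨⟨x, hx1, hx2, hx3⟩, y, hy1, hy2, hy3⟩ := hs₀ s ((le_max_right _ _).trans hs)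
  refine ⟨⟨x, ?_, hx1, hx2, fun f hf => ?_⟩, y, ?_, hy1, hy2, fun f hf => ?_⟩
  · rintro rfl
    rw [norm_zero] at hx1
    linarith
  · exact (hFg f ((attains_iff hVal hd1 hα f).1 hf)).1 x hx3
  · rintro rfl
    rw [norm_zero] at hy1
    linarith
  · exact (hFg f ((attains_iff hVal hd1 hα f).1 hf)).2 y hy3

/-- Quadratic growth of the common contact radii and zero radii. -/
theorem common_count (hVal : S_Val) (hRad : S_Rad) (hGen : S_Gen) (hCC : S_CC) (d : ℕ)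
    (hd : 3 ≤ d) (α : ℝ) (hα : 0 < α) :
    ∃ c X₀ : ℝ, 0 < c ∧ ∀ X : ℝ, X₀ ≤ X →
      c * X ≤ ({j : ℕ | (j : ℝ) < X ∧ ∃ x : E d, x ≠ 0 ∧ (j : ℝ) ≤ ‖x‖ ^ 2 ∧ ‖x‖ ^ 2 < j + 1 ∧
        ∀ f : E d → ℝ, Attains d α f → f x = Real.exp (-α * ‖x‖ ^ 2)}.ncard : ℝ) ∧
      c * X ≤ ({j : ℕ | (j : ℝ) < X ∧ ∃ y : E d, y ≠ 0 ∧ (j : ℝ) ≤ ‖y‖ ^ 2 ∧ ‖y‖ ^ 2 < j + 1 ∧
        ∀ f : E d → ℝ, Attains d α f → ft f y = 0}.ncard : ℝ) := by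
  have hd1 : 1 ≤ d := by omega
  obtain ⟨f₀, hf₀, -⟩ := hRad d α hd1 hα
  obtain ⟨F, hF, hFg⟩ := hGen d α hd1 hα ⟨f₀, hf₀⟩
  obtain ⟨c, X₀, hc, hX⟩ := hCC d α hd hα F hF
  refine ⟨c, X₀, hc, fun X hXX => ?_⟩
  obtain ⟨h1, h2⟩ := hX X hXX
  have hfin : ∀ Q : ℕ → Prop, {j : ℕ | (j : ℝ) < X ∧ Q j}.Finite := by
    intro Q
    apply (Set.finite_lt_nat (Nat.ceil X)).subset
    intro j hj
    exact Nat.lt_ceil.2 hj.1
  constructor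
  · refine h1.trans ?_
    norm_cast
    apply Set.ncard_le_ncard _ (hfin _)
    rintro j ⟨hj, x, hx0, hx1, hx2, hx3⟩
    exact ⟨hj, x, hx0, hx1, hx2, fun f hf =>
      (hFg f ((attains_iff hVal hd1 hα f).1 hf)).1 x hx3⟩
  · refine h2.trans ?_
    norm_cast
    apply Set.ncard_le_ncard _ (hfin _)
    rintro j ⟨hj, x, hx0, hx1, hx2, hx3⟩
    exact ⟨hj, x, hx0, hx1, hx2, fun f hf =>
      (hFg f ((attains_iff hVal hd1 hα f).1 hf)).2 x hx3⟩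

/-- Strong duality. -/
theorem strong_duality (hVal : S_Val) (hRad : S_Rad) (hGen : S_Gen) (hDM : S_DM) (d : ℕ)
    (hd : 1 ≤ d) (α : ℝ) (hα : 0 < α) :
    ∃ m n : Measure ℝ, ∃ a : ℝ, 0 < a ∧ m (Iio a) = 0 ∧ n (Iio a) = 0 ∧
      (∀ t : ℝ, 0 < t → Integrable (fun s => Real.exp (-t * s)) m) ∧
      (∀ t : ℝ, 0 < t → Integrable (fun s => Real.exp (-t * s)) n) ∧
      (∀ z : ℂ, 0 < z.re → 1 + ∫ s : ℝ, Complex.exp (-(π : ℂ) * z * s) ∂m =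
        z ^ (-((d : ℂ) / 2)) * (1 + ∫ s : ℝ, Complex.exp (-(π : ℂ) * (1 / z) * s) ∂n)) ∧
      IsLUB {v : ℝ | ∃ g : E d → ℝ, Admissible d α g ∧ value g = v}
        (∫ s, Real.exp (-α * s) ∂m) ∧
      ∀ f : E d → ℝ, Attains d α f →
        m {s : ℝ | ∀ x : E d, ‖x‖ ^ 2 = s → f x ≠ Real.exp (-α * ‖x‖ ^ 2)} = 0 ∧
        n {s : ℝ | ∀ y : E d, ‖y‖ ^ 2 = s → ft f y ≠ 0} = 0 := by
  obtain ⟨f₀, hf₀, -⟩ := hRad d α hd hα
  obtain ⟨F, hF, hFg⟩ := hGen d α hd hα ⟨f₀, hf₀⟩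
  obtain ⟨m, n, a, ha, hm, hn, hm2, hn2, hfe, hval, hT, hZ⟩ := hDM d α F hd hα hF
  refine ⟨m, n, a, ha, hm, hn, hm2, hn2, hfe, ?_, fun f hf => ⟨?_, ?_⟩⟩
  · rw [hval]
    exact ((attains_iff hVal hd hα F).2 hF).2
  · refine measure_mono_null ?_ hT
    intro s hs x hx hFx
    exact hs x hx ((hFg f ((attains_iff hVal hd hα f).1 hf)).1 x hFx)
  · refine measure_mono_null ?_ hZ
    intro s hs x hx hFx
    exact hs x hx ((hFg f ((attains_iff hVal hd hα f).1 hf)).2 x hFx)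

end Pool.Agent.Lib.MP_adb5ad_gt.W
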