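import Pool.Agent.Lib.MP_adb5ad_gt.W.Spec
set_option autoImplicit false
open MeasureTheory FourierTransform Real Filter Topology Set
namespace Pool.Agent.Lib.MP_adb5ad_gt.W
open Pool.Agent.Lib.MP_adb5ad_gt

private noncomputable def a (k : ℕ) : ℝ := (1 / 2) ^ (k + 1)

private theorem a_pos (k : ℕ) : 0 < a k := by unfold a; positivity

private theorem a_sum : HasSum a 1 := by
  have h := hasSum_geometric_two.mul_left (1 / 2 : ℝ)
  have e : (1 / 2 : ℝ) * 2 = 1 := by norm_num
  rw [e] at h
  refine h.congr_fun ?_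
  intro k
  unfold a
  rw [pow_succ]
  ring

private theorem int_tsum {d : ℕ} {F' : Type} [NormedAddCommGroup F'] [NormedSpace ℝ F']
    [CompleteSpace F'] {u : ℕ → E d → F'} (hi : ∀ k, Integrable (u k))
    (hs : Summable fun k => ∫ x, ‖u k x‖)
    (hm : AEStronglyMeasurable (fun x => ∑' k, u k x) volume) :
    Integrable (fun x => ∑' k, u k x) := by
  refine ⟨hm, ?_⟩
  unfold HasFiniteIntegral
  calc ∫⁻ x, ‖∑' k, u k x‖ₑ ≤ ∫⁻ x, ∑' k, ‖u k x‖ₑ :=
        lintegral_mono fun x => enorm_tsum_le_tsum_enorm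
    _ = ∑' k, ∫⁻ x, ‖u k x‖ₑ := lintegral_tsum fun k => (hi k).1.enorm
    _ = ∑' k, ENNReal.ofReal (∫ x, ‖u k x‖) := by
        congr 1
        funext k
        exact (ofReal_integral_norm_eq_lintegral_enorm (hi k)).symm
    _ = ENNReal.ofReal (∑' k, ∫ x, ‖u k x‖) :=
        (ENNReal.ofReal_tsum_of_nonneg (fun k => integral_nonneg fun x => norm_nonneg _) hs).symm
    _ < ⊤ := ENNReal.ofReal_lt_top

theorem tAvg (h1 : S_Bas) : S_Avg := by
  intro d α hd hα g hg
  have hB := fun k => h1 d α hd hα (g k) (hg k).1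
  have hgc := fun k => (hg k).1.cont
  have hgi := fun k => (hg k).1.int
  have habs : ∀ k x, |g k x| ≤ 1 := fun k x => ((hB k).2.2.1 x).trans (hB k).2.2.2.1
  have hle : ∀ k x, g k x ≤ Real.exp (-α * ‖x‖ ^ 2) := fun k => (hB k).1
  have hmul : ∀ k x, |a k * g k x| ≤ a k := by
    intro k x
    rw [abs_mul, abs_of_pos (a_pos k)]
    exact mul_le_of_le_one_right (a_pos k).le (habs k x)
  have hsumx : ∀ x, Summable fun k => a k * g k x := fun x =>
    Summable.of_norm_bounded a_sum.summable (fun k => by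
      rw [Real.norm_eq_abs]
      exact hmul k x)
  let F : E d → ℝ := fun x => ∑' k, a k * g k x
  have hFs : ∀ x, HasSum (fun k => a k * g k x) (F x) := fun x => (hsumx x).hasSum
  have hFc : Continuous F := by
    refine continuous_tsum (fun k => (hgc k).const_mul (a k)) a_sum.summable fun k x => ?_
    rw [Real.norm_eq_abs]
    exact hmul k x
  set P : ℝ := (π / α) ^ ((d : ℝ) / 2) with hP
  have hP0 : 0 ≤ P := by positivity
  -- the norms of the terms
  have hn1 : ∀ k, (∫ x, ‖a k * g k x‖) ≤ a k * (2 * P) := by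
    intro k
    have e : ∀ x, ‖a k * g k x‖ = a k * |g k x| := fun x => by
      rw [Real.norm_eq_abs, abs_mul, abs_of_pos (a_pos k)]
    simp only [e]
    rw [integral_const_mul]
    exact mul_le_mul_of_nonneg_left (hB k).2.2.2.2.2.2.2.1 (a_pos k).le
  have hs1 : Summable fun k => ∫ x, ‖a k * g k x‖ :=
    Summable.of_nonneg_of_le (fun k => integral_nonneg fun x => norm_nonneg _) hn1
      (a_sum.summable.mul_right _)
  have hFi : Integrable F :=
    int_tsum (fun k => (hgi k).const_mul (a k)) hs1 hFc.aestronglyMeasurable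
  -- the Fourier transform
  have hft : ∀ y, HasSum (fun k => ((a k : ℝ) : ℂ) * ft (g k) y) (ft F y) := by
    intro y
    have hint : ∀ k, Integrable (fun x : E d =>
        Real.fourierChar (-(inner ℝ x y)) • (((a k * g k x : ℝ)) : ℂ)) := fun k =>
      (Real.fourierIntegral_convergent_iff y).2 ((hgi k).const_mul (a k)).ofReal
    have hns : ∀ k, (∫ x : E d, ‖Real.fourierChar (-(inner ℝ x y)) • (((a k * g k x : ℝ)) : ℂ)‖) =
        ∫ x, ‖a k * g k x‖ := by
      intro k
      congr 1
      funext x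
      rw [Circle.norm_smul, Complex.norm_real]
    have h := hasSum_integral_of_summable_integral_norm hint (by simp only [hns]; exact hs1)
    have e1 : (∫ x : E d, ∑' k, Real.fourierChar (-(inner ℝ x y)) • (((a k * g k x : ℝ)) : ℂ)) =
        ft F y := by
      unfold ft
      rw [Real.fourier_eq]
      congr 1
      funext x
      have h2 : HasSum (fun k => (((a k * g k x : ℝ)) : ℂ)) (F x : ℂ) :=
        Complex.hasSum_ofReal.2 (hFs x)
      simp only [Circle.smul_def]
      exact (h2.const_smul _).tsum_eq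
    rw [e1] at h
    refine h.congr_fun ?_
    intro k
    unfold ft
    rw [Real.fourier_eq, ← integral_const_mul]
    congr 1
    funext x
    simp only [Circle.smul_def, smul_eq_mul]
    push_cast
    ring
  have hre : ∀ y, HasSum (fun k => a k * (ft (g k) y).re) (ft F y).re := by
    intro y
    have h := Complex.hasSum_re (hft y)
    refine h.congr_fun ?_
    intro k
    rw [Complex.re_ofReal_mul]
  have him : ∀ y, (ft F y).im = 0 := by
    intro y
    have h := Complex.hasSum_im (hft y)
    have e : (fun k => (((a k : ℝ) : ℂ) * ft (g k) y).im) = fun _ => 0 := by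
      funext k
      rw [Complex.im_ofReal_mul, ((hg k).1.ft_nonneg y).1, mul_zero]
    rw [e] at h
    exact h.unique hasSum_zero
  have hnn : ∀ k y, 0 ≤ a k * (ft (g k) y).re := fun k y =>
    mul_nonneg (a_pos k).le ((hg k).1.ft_nonneg y).2
  have hre0 : ∀ y, 0 ≤ (ft F y).re := fun y => (hre y).nonneg fun k => hnn k y
  have hnorm : ∀ k y, ‖ft (g k) y‖ = (ft (g k) y).re := by
    intro k y
    have h := (hg k).1.ft_nonneg y
    have e : ft (g k) y = (((ft (g k) y).re : ℝ) : ℂ) := by
      apply Complex.ext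
      · simp
      · simp [h.1]
    rw [e, Complex.norm_real, Complex.ofReal_re, Real.norm_of_nonneg h.2]
  have hn2 : ∀ k, (∫ y, ‖((a k : ℝ) : ℂ) * ft (g k) y‖) = a k * g k 0 := by
    intro k
    have e : ∀ y, ‖((a k : ℝ) : ℂ) * ft (g k) y‖ = a k * (ft (g k) y).re := fun y => by
      rw [norm_mul, Complex.norm_real, hnorm, Real.norm_of_nonneg (a_pos k).le]
    simp only [e]
    rw [integral_const_mul, ← (hB k).2.1]
  have hs2 : Summable fun k => ∫ y, ‖((a k : ℝ) : ℂ) * ft (g k) y‖ := by
    simp only [hn2]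
    exact hsumx 0
  have hFe : (fun y => ∑' k, ((a k : ℝ) : ℂ) * ft (g k) y) = ft F := by
    funext y
    exact (hft y).tsum_eq
  have hFti : Integrable (ft F) := by
    have := int_tsum (u := fun k y => ((a k : ℝ) : ℂ) * ft (g k) y)
      (fun k => (hg k).1.ftint.const_mul _) hs2 (by
        rw [hFe]
        exact (ft_continuous hFi).aestronglyMeasurable)
    rwa [hFe] at this
  have hFle : ∀ x, F x ≤ Real.exp (-α * ‖x‖ ^ 2) := by
    intro x
    have h2 := a_sum.mul_right (Real.exp (-α * ‖x‖ ^ 2))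
    rw [one_mul] at h2
    exact hasSum_le (fun k => mul_le_mul_of_nonneg_left (hle k x) (a_pos k).le) (hFs x) h2
  have hadm : AdmW d α F := ⟨hFc, hFi, hFti, fun x _ => hFle x, fun y => ⟨him y, hre0 y⟩⟩
  have hval : value F = value (g 0) := by
    have hv : ∀ k, value (g k) = value (g 0) := fun k =>
      le_antisymm ((hg 0).2 _ (hg k).1) ((hg k).2 _ (hg 0).1)
    have h2 := (hre 0).sub (hFs 0)
    have e : (fun k => a k * (ft (g k) 0).re - a k * g k 0) = fun k => a k * value (g 0) := by
      funext k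
      rw [← hv k]
      unfold value
      ring
    rw [e] at h2
    have h3 := a_sum.mul_right (value (g 0))
    rw [one_mul] at h3
    exact h2.unique h3
  refine ⟨F, ⟨hadm, fun q hq => ?_⟩, ?_, ?_⟩
  · rw [hval]
    exact (hg 0).2 q hq
  · intro x hx k
    have h2 := a_sum.mul_right (Real.exp (-α * ‖x‖ ^ 2))
    rw [one_mul] at h2
    have h3 := h2.sub (hFs x)
    rw [hx, sub_self] at h3
    have h4 := (hasSum_zero_iff_of_nonneg (fun k => by
      change 0 ≤ a k * Real.exp (-α * ‖x‖ ^ 2) - a k * g k x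
      rw [← mul_sub]
      exact mul_nonneg (a_pos k).le (sub_nonneg.2 (hle k x)))).1 h3
    have h5 := congrFun h4 k
    change a k * Real.exp (-α * ‖x‖ ^ 2) - a k * g k x = 0 at h5
    rw [← mul_sub, mul_eq_zero] at h5
    rcases h5 with h5 | h5
    · exact absurd h5 (a_pos k).ne'
    · linarith
  · intro y hy k
    have h3 := hre y
    rw [hy, Complex.zero_re] at h3
    have h4 := (hasSum_zero_iff_of_nonneg (fun k => hnn k y)).1 h3
    have h5 := congrFun h4 k
    change a k * (ft (g k) y).re = 0 at h5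
    rw [mul_eq_zero] at h5
    have h6 : (ft (g k) y).re = 0 := h5.resolve_left (a_pos k).ne'
    apply Complex.ext
    · rw [h6, Complex.zero_re]
    · rw [((hg k).1.ft_nonneg y).1, Complex.zero_im]

end Pool.Agent.Lib.MP_adb5ad_gt.W
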