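import Pool.Agent.Lib.MP_adb5ad_gt.W.Spec

/-!
# MP_adb5ad_gt, package W: basic bounds for the class W
-/

set_option autoImplicit false

open MeasureTheory FourierTransform Real Filter Topology Set

noncomputable section

namespace Pool.Agent.Lib.MP_adb5ad_gt.W

open Pool.Agent.Lib.MP_adb5ad_gt

private theorem bas_le {d : ℕ} (hd : 1 ≤ d) {α : ℝ} {f : E d → ℝ} (hf : AdmW d α f) (x : E d) :
    f x ≤ Real.exp (-α * ‖x‖ ^ 2) := by
  have : NeZero d := ⟨by omega⟩
  have : Nontrivial (E d) := by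
    refine ⟨EuclideanSpace.single 0 1, 0, ?_⟩
    intro h
    have := congrArg (fun v : E d => v 0) h
    simp at this
  have : Filter.NeBot (nhdsWithin (0 : E d) {0}ᶜ) := Module.punctured_nhds_neBot ℝ (E d) 0
  have hclosed : IsClosed {x : E d | f x ≤ Real.exp (-α * ‖x‖ ^ 2)} := by
    apply isClosed_le hf.cont
    fun_prop
  have hsub : ({0}ᶜ : Set (E d)) ⊆ {x : E d | f x ≤ Real.exp (-α * ‖x‖ ^ 2)} := fun x hx =>
    hf.le_gauss x hx
  have hdense : Dense ({0}ᶜ : Set (E d)) := dense_compl_singleton 0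
  have := hclosed.closure_subset_iff.2 hsub
  rw [hdense.closure_eq] at this
  exact this (Set.mem_univ x)

private theorem bas_gint (d : ℕ) {α : ℝ} (hα : 0 < α) :
    Integrable (fun x : E d => Real.exp (-α * ‖x‖ ^ 2)) := by
  obtain ⟨C, hC0, hC⟩ := Dual.gauss_decay hα ((d : ℝ) + 1)
  have hc : Continuous (fun x : E d => Real.exp (-α * ‖x‖ ^ 2)) := by fun_prop
  apply Dual.integrable_of_decay hc one_pos (C := C)
  intro x
  rw [Real.norm_eq_abs, abs_of_pos (Real.exp_pos _)]
  have := hC ‖x‖ (norm_nonneg _)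
  rwa [neg_add'] at this

private theorem bas_four_zero {d : ℕ} (F : E d → ℂ) : 𝓕 F 0 = ∫ x, F x := by
  rw [Real.fourier_eq]
  apply integral_congr_ae
  refine Filter.Eventually.of_forall fun v => ?_
  simp

private theorem bas_gval (d : ℕ) {α : ℝ} (hα : 0 < α) :
    (∫ x : E d, Real.exp (-α * ‖x‖ ^ 2)) = (π / α) ^ ((d : ℝ) / 2) := by
  have h1 := Dual.gauss_ft d hα 0
  rw [bas_four_zero] at h1
  rw [norm_zero, zero_pow two_ne_zero, mul_zero, Real.exp_zero, mul_one] at h1
  have h2 : (∫ x : E d, ((Real.exp (-α * ‖x‖ ^ 2) : ℝ) : ℂ)) =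
      ((∫ x : E d, Real.exp (-α * ‖x‖ ^ 2) : ℝ) : ℂ) := integral_ofReal
  rw [h2] at h1
  exact_mod_cast h1

theorem tBas : S_Bas := by
  intro d α hd hα f hf
  have hle := bas_le hd hf
  have hgi := bas_gint d hα
  have hgv := bas_gval d hα
  have hFc : Continuous (fun x => (f x : ℂ)) := Complex.continuous_ofReal.comp hf.cont
  have hFi : Integrable (fun x => (f x : ℂ)) := hf.int.ofReal
  have hfti : Integrable (𝓕 (fun x => (f x : ℂ))) := hf.ftint
  have hreal : ∀ y, 𝓕 (fun x => (f x : ℂ)) y = (((ft f y).re : ℝ) : ℂ) := by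
    intro y
    apply Complex.ext
    · rfl
    · rw [Complex.ofReal_im]
      exact (hf.ft_nonneg y).1
  have hnorm : ∀ y, ‖𝓕 (fun x => (f x : ℂ)) y‖ = (ft f y).re := by
    intro y
    rw [hreal, Complex.norm_real, Real.norm_eq_abs, abs_of_nonneg (hf.ft_nonneg y).2]
  have hinv := hFc.fourierInv_fourier_eq hFi hfti
  -- the bound by the value at the origin
  have hbd : ∀ x, |f x| ≤ ∫ y, (ft f y).re := by
    intro x
    have h1 := congrFun hinv x
    have h2 : |f x| = ‖𝓕⁻ (𝓕 (fun x => (f x : ℂ))) x‖ := by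
      rw [h1, Complex.norm_real, Real.norm_eq_abs]
    rw [h2, Real.fourierInv_eq]
    refine (norm_integral_le_integral_norm _).trans (le_of_eq ?_)
    apply integral_congr_ae
    refine Filter.Eventually.of_forall fun y => ?_
    simp only
    rw [Circle.norm_smul, hnorm]
  have h0 : f 0 = ∫ y, (ft f y).re := by
    have h1 := congrFun hinv 0
    rw [Real.fourierInv_eq_fourier_neg, neg_zero, bas_four_zero] at h1
    have h2 : (∫ y, 𝓕 (fun x => (f x : ℂ)) y) = ((∫ y, (ft f y).re : ℝ) : ℂ) := by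
      have e : (∫ y, (((ft f y).re : ℝ) : ℂ)) = ((∫ y, (ft f y).re : ℝ) : ℂ) := integral_ofReal
      rw [← e]
      apply integral_congr_ae
      exact Filter.Eventually.of_forall fun y => hreal y
    rw [h2] at h1
    exact_mod_cast h1.symm
  have hft0 : (ft f 0).re = ∫ x, f x := by
    unfold ft
    have e : (∫ x, ((f x : ℝ) : ℂ)) = ((∫ x, f x : ℝ) : ℂ) := integral_ofReal
    rw [bas_four_zero, e, Complex.ofReal_re]
  have hint : ∫ x, (Real.exp (-α * ‖x‖ ^ 2) - f x) = (π / α) ^ ((d : ℝ) / 2) - ∫ x, f x := by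
    rw [integral_sub hgi hf.int, hgv]
  have hpos : 0 ≤ ∫ x, f x := by
    rw [← hft0]
    exact (hf.ft_nonneg 0).2
  have h7 : (∫ x, (Real.exp (-α * ‖x‖ ^ 2) - f x)) ≤ (π / α) ^ ((d : ℝ) / 2) := by
    rw [hint]
    linarith
  have h8 : (∫ x, |f x|) ≤ 2 * (π / α) ^ ((d : ℝ) / 2) := by
    have h1 : (∫ x, |f x|) ≤
        ∫ x, (Real.exp (-α * ‖x‖ ^ 2) + (Real.exp (-α * ‖x‖ ^ 2) - f x)) := by
      apply integral_mono hf.int.abs (hgi.add (hgi.sub hf.int))
      intro x
      simp only [Pi.add_apply, Pi.sub_apply]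
      have h2 := hle x
      have h3 := Real.exp_pos (-α * ‖x‖ ^ 2)
      rw [abs_le]
      constructor <;> linarith
    have h2 : (∫ x, (Real.exp (-α * ‖x‖ ^ 2) + (Real.exp (-α * ‖x‖ ^ 2) - f x))) =
        (∫ x : E d, Real.exp (-α * ‖x‖ ^ 2)) + ∫ x, (Real.exp (-α * ‖x‖ ^ 2) - f x) :=
      integral_add hgi (hgi.sub hf.int)
    rw [h2, hgv] at h1
    linarith
  have h9 : ∀ y, (ft f y).re ≤ 2 * (π / α) ^ ((d : ℝ) / 2) := by
    intro y
    refine le_trans ?_ h8
    rw [← hnorm, Real.fourier_eq]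
    refine (norm_integral_le_integral_norm _).trans (le_of_eq ?_)
    apply integral_congr_ae
    refine Filter.Eventually.of_forall fun x => ?_
    simp only
    rw [Circle.norm_smul, Complex.norm_real, Real.norm_eq_abs]
  refine ⟨hle, h0, fun x => by rw [h0]; exact hbd x, ?_, hgi, hgv, h7, h8, h9, ?_⟩
  · have := hle 0
    rwa [norm_zero, zero_pow two_ne_zero, mul_zero, Real.exp_zero] at this
  · unfold value
    rw [hft0, hint, h0]
    ring

end Pool.Agent.Lib.MP_adb5ad_gt.W
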