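import Pool.Agent.Lib.MP_adb5ad_gt.W.Spec
import Pool.Agent.Lib.MP_adb5ad_gt.CFinal
import Pool.Agent.Lib.MP_adb5ad_gt.MeanSquare
import Pool.Agent.Lib.MP_adb5ad_gt.Inversion
import Pool.Agent.Lib.MP_adb5ad_gt.Piece
import Pool.Agent.Lib.MP_adb5ad_gt.Split
import Pool.Agent.Lib.MP_adb5ad_gt.Step
import Pool.Agent.Lib.MP_adb5ad_gt.Bound
import Pool.Agent.Lib.MP_adb5ad_gt.Count

/-!
# MP_adb5ad_gt, package W: quadratic growth of the contact radii and of the zero radii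
-/

set_option autoImplicit false

open MeasureTheory FourierTransform Real Filter Topology Set

noncomputable section

namespace Pool.Agent.Lib.MP_adb5ad_gt.W

open Pool.Agent.Lib.MP_adb5ad_gt

private theorem cc_count_stmt : CountStmt :=
  countStmt meanSquareStmt (boundStmt (stepStmt meanSquareStmt
    (splitStmt meanSquareStmt (pieceStmt meanSquareStmt inversionStmt))))

private theorem cc_swap {k : ℝ} {μ ν : Measure ℝ} (h : ThetaPair k μ ν) : ThetaPair k ν μ :=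
  ⟨h.neg₂, h.neg₁, h.int₂, h.int₁, h.one₂, h.one₁, h.fe₂, h.fe₁⟩

private theorem cc_count {d : ℕ} {k : ℝ} (hk : 3 / 2 ≤ k) {m n : Measure ℝ}
    (hT : ThetaPair k (Measure.dirac 0 + m) (Measure.dirac 0 + n)) (P : E d → Prop)
    (hsl : m {s : ℝ | ∀ x : E d, ‖x‖ ^ 2 = s → ¬ P x} = 0) :
    ∃ c X₀ : ℝ, 0 < c ∧ ∀ X : ℝ, X₀ ≤ X → c * X ≤
      ({j : ℕ | (j : ℝ) < X ∧ ∃ x : E d, x ≠ 0 ∧ (j : ℝ) ≤ ‖x‖ ^ 2 ∧ ‖x‖ ^ 2 < j + 1 ∧
        P x}.ncard : ℝ) := by
  obtain ⟨c, X₀, hc, hX⟩ := cc_count_stmt _ _ _ hk hT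
  refine ⟨c / 2, max X₀ (2 / c), by positivity, fun X hXX => ?_⟩
  have h1 := hX X ((le_max_left _ _).trans hXX)
  set A := {j : ℕ | (j : ℝ) < X ∧
    (Measure.dirac 0 + m : Measure ℝ) (Ico (j : ℝ) (j + 1)) ≠ 0} with hA
  set B := {j : ℕ | (j : ℝ) < X ∧ ∃ x : E d, x ≠ 0 ∧ (j : ℝ) ≤ ‖x‖ ^ 2 ∧ ‖x‖ ^ 2 < j + 1 ∧
        P x} with hB
  have hBfin : B.Finite := by
    apply (Set.finite_lt_nat (Nat.ceil X)).subset
    intro j hj
    exact Nat.lt_ceil.2 hj.1
  have hsub : A ⊆ insert 0 B := by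
    intro j hj
    rcases Nat.eq_zero_or_pos j with h0 | h0
    · left
      exact h0
    · right
      refine ⟨hj.1, ?_⟩
      by_contra hcon
      push Not at hcon
      apply hj.2
      rw [Measure.add_apply]
      have hj1 : (1 : ℝ) ≤ j := by exact_mod_cast h0
      have e1 : Measure.dirac (0 : ℝ) (Ico (j : ℝ) (j + 1)) = 0 := by
        rw [Measure.dirac_apply' _ measurableSet_Ico]
        simp only [Set.indicator_apply_eq_zero, Set.mem_Ico, Pi.one_apply, one_ne_zero, imp_false]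
        rintro ⟨h, -⟩
        linarith
      rw [e1, zero_add]
      refine measure_mono_null ?_ hsl
      intro s hs x hx hfx
      have hx0 : x ≠ 0 := by
        rintro rfl
        simp at hx
        rw [← hx] at hs
        have := hs.1
        linarith
      exact hcon x hx0 (by rw [hx]; exact hs.1) (by rw [hx]; exact hs.2) hfx
  have h2 : (A.ncard : ℝ) ≤ B.ncard + 1 := by
    have h3 := Set.ncard_le_ncard hsub (hBfin.insert 0)
    have h4 := Set.ncard_insert_le 0 B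
    exact_mod_cast h3.trans h4
  have h3 : 2 / c ≤ X := (le_max_right _ _).trans hXX
  have h4 : 1 ≤ c / 2 * X := by
    calc (1 : ℝ) = c / 2 * (2 / c) := by field_simp
      _ ≤ c / 2 * X := mul_le_mul_of_nonneg_left h3 (by positivity)
  linarith

theorem tCC (h1 : S_DM) : S_CC := by
  intro d α hd hα f hf
  obtain ⟨m, n, a, ha, hm, hn, hm2, hn2, hfe, -, hs1, hs2⟩ := h1 d α f (by omega) hα hf
  have hk : (3 : ℝ) / 2 ≤ (d : ℝ) / 2 := by
    have : (3 : ℝ) ≤ d := by exact_mod_cast hd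
    linarith
  have hT : ThetaPair ((d : ℝ) / 2) (Measure.dirac 0 + m) (Measure.dirac 0 + n) := by
    apply thetaPair_of ha hm hn hm2 hn2
    intro z hz
    rw [hfe z hz]
    push_cast
    rfl
  obtain ⟨c₁, X₁, hc₁, H₁⟩ := cc_count hk hT (fun x : E d => f x = Real.exp (-α * ‖x‖ ^ 2)) hs1
  obtain ⟨c₂, X₂, hc₂, H₂⟩ := cc_count hk (cc_swap hT) (fun y : E d => ft f y = 0) hs2
  refine ⟨min c₁ c₂, max (max X₁ X₂) 0, lt_min hc₁ hc₂, fun X hX => ?_⟩
  have hX1 : X₁ ≤ X := (le_max_left _ _).trans ((le_max_left _ _).trans hX)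
  have hX2 : X₂ ≤ X := (le_max_right _ _).trans ((le_max_left _ _).trans hX)
  have hX0 : 0 ≤ X := (le_max_right _ _).trans hX
  exact ⟨(mul_le_mul_of_nonneg_right (min_le_left _ _) hX0).trans (H₁ X hX1),
    (mul_le_mul_of_nonneg_right (min_le_right _ _) hX0).trans (H₂ X hX2)⟩

end Pool.Agent.Lib.MP_adb5ad_gt.W
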