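import Pool.Agent.Lib.MP_adb5ad_gt.W.Spec
import Pool.Agent.Lib.MP_adb5ad_gt.DualMeasure
import Pool.Agent.Lib.MP_adb5ad_gt.MeasureA

/-!
# The dual measures of an optimal function of the class W
-/

set_option autoImplicit false

open MeasureTheory FourierTransform Real Filter Topology Set

noncomputable section

namespace Pool.Agent.Lib.MP_adb5ad_gt.W

open Pool.Agent.Lib.MP_adb5ad_gt Pool.Agent.Lib.MP_adb5ad_gt.DualMeasure

theorem tDM (h1 : S_Bas) (h2 : S_Lt1) (h3 : S_Fun) (h4 : S_MB) : S_DM := by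
  have _ := h1
  intro d α f hd hα hf
  have hint := hf.1.int
  have hlt : f 0 < 1 := (h2 d α hd hα f hf).1
  have hft0 : 0 < (ft f 0).re := (h2 d α hd hα f hf).2
  have hpc : Continuous (fun x : E d => Real.exp (-α * ‖x‖ ^ 2) - f x) := by
    have := hf.1.cont
    fun_prop
  obtain ⟨r₀, hr₀, hstrict⟩ : ∃ r₀ : ℝ, 0 < r₀ ∧ ∀ x : E d, ‖x‖ ≤ r₀ →
      f x < Real.exp (-α * ‖x‖ ^ 2) := by
    have h0 : (0 : ℝ) < Real.exp (-α * ‖(0 : E d)‖ ^ 2) - f 0 := by
      simp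
      exact hlt
    have ev : ∀ᶠ x in 𝓝 (0 : E d), 0 < Real.exp (-α * ‖x‖ ^ 2) - f x :=
      hpc.continuousAt.eventually (lt_mem_nhds h0)
    obtain ⟨r, hr, h⟩ := (Metric.nhds_basis_closedBall (x := (0 : E d))).eventually_iff.1 ev
    refine ⟨r, hr, fun x hx => ?_⟩
    have := h (show x ∈ Metric.closedBall (0 : E d) r by simpa using hx)
    linarith
  have hftc : Continuous (fun y : E d => (ft f y).re) :=
    Complex.continuous_re.comp (ft_continuous hint)
  obtain ⟨δ, hδ, hpos⟩ : ∃ δ : ℝ, 0 < δ ∧ ∀ y : E d, ‖y‖ ≤ δ → 0 < (ft f y).re := by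
    have ev : ∀ᶠ y in 𝓝 (0 : E d), 0 < (ft f y).re :=
      hftc.continuousAt.eventually (lt_mem_nhds hft0)
    obtain ⟨r, hr, h⟩ := (Metric.nhds_basis_closedBall (x := (0 : E d))).eventually_iff.1 ev
    exact ⟨r, hr, fun y hy => h (show y ∈ Metric.closedBall (0 : E d) r by simpa using hy)⟩
  have hS : SetupW d α f 1 r₀ δ := ⟨hd, hα, hf, one_pos, hr₀, hδ, hstrict, hpos⟩
  obtain ⟨l₁, l₂, hl₁, hl₂, hl, hl₁p, hl₁f, hl₂f⟩ := h3 d α f 1 r₀ δ hS
  obtain ⟨m, hm⟩ := measureAStmt d 1 r₀ hd one_pos hr₀ l₁ hl₁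
  obtain ⟨n, hn⟩ := measureAStmt d 1 δ hd one_pos hδ l₂ hl₂
  have hInt : ∀ (r : ℝ) (l : Y d 1 →ₗ[ℝ] ℝ) (μ : Measure ℝ), Represents d 1 r l μ →
      ∀ t : ℝ, 0 < t → Integrable (fun x => Real.exp (-t * x)) μ := by
    intro r l μ hμ t ht
    exact (hμ.2 (fun s : ℝ => Real.exp (-t * s)) (by fun_prop)
      ⟨1, t, ht, fun s _ => by rw [abs_of_pos (Real.exp_pos _), one_mul]⟩).1
  refine ⟨m, n, min (r₀ ^ 2) (δ ^ 2), lt_min (by positivity) (by positivity),
    measure_mono_null (Iio_subset_Iio (min_le_left _ _)) hm.1,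
    measure_mono_null (Iio_subset_Iio (min_le_right _ _)) hn.1,
    hInt _ _ _ hm, hInt _ _ _ hn, ?_, ?_, ?_, ?_⟩
  · intro z hz
    have key : ∀ c : ℂ, (c * (1 + LT m z)).re =
        (c * (z ^ (-((d : ℂ) / 2)) * (1 + LT n (1 / z)))).re := by
      intro c
      obtain ⟨ht, hfth⟩ := test_gauss (d := d) one_pos hz c
      obtain ⟨K, hK⟩ := ht.bd
      let q₁ : Y d 1 := ⟨fun x : E d =>
        (c * Complex.exp (-(π : ℂ) * z * ((‖x‖ ^ 2 : ℝ) : ℂ))).re, K, fun x => (hK x).1⟩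
      let q₂ : Y d 1 := ⟨fun y : E d => (ft (fun x : E d =>
        (c * Complex.exp (-(π : ℂ) * z * ((‖x‖ ^ 2 : ℝ) : ℂ))).re) y).re, K, fun y =>
          (Complex.abs_re_le_norm _).trans (hK y).2⟩
      have e1 := hl _ ht q₁ q₂ (fun _ => rfl) (fun _ => rfl)
      have e2 : l₁ q₁ = (c * LT m z).re := rep_gauss hm hz c q₁ (fun _ => rfl)
      have e3 : l₂ q₂ = ((c * z ^ (-((d : ℂ) / 2))) * LT n (1 / z)).re := by
        refine rep_gauss hn (one_div_re_pos hz) _ q₂ (fun y => ?_)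
        show (ft (fun x : E d =>
          (c * Complex.exp (-(π : ℂ) * z * ((‖x‖ ^ 2 : ℝ) : ℂ))).re) y).re = _
        rw [hfth y, Complex.ofReal_re]
        congr 1
        ring
      have e4 : value (fun x : E d =>
          (c * Complex.exp (-(π : ℂ) * z * ((‖x‖ ^ 2 : ℝ) : ℂ))).re) =
          (c * z ^ (-((d : ℂ) / 2))).re - c.re := by
        have e0 : ((‖(0 : E d)‖ ^ 2 : ℝ) : ℂ) = 0 := by simp
        have e0' : (c * Complex.exp (-(π : ℂ) * z * ((‖(0 : E d)‖ ^ 2 : ℝ) : ℂ))).re = c.re := by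
          rw [e0, mul_zero, Complex.exp_zero, mul_one]
        show (ft (fun x : E d =>
          (c * Complex.exp (-(π : ℂ) * z * ((‖x‖ ^ 2 : ℝ) : ℂ))).re) 0).re -
          (c * Complex.exp (-(π : ℂ) * z * ((‖(0 : E d)‖ ^ 2 : ℝ) : ℂ))).re = _
        rw [e0', hfth 0, Complex.ofReal_re, e0, mul_zero, Complex.exp_zero, mul_one]
      rw [e2, e3, e4] at e1
      have e5 : c * (1 + LT m z) = c + c * LT m z := by ring
      have e6 : c * (z ^ (-((d : ℂ) / 2)) * (1 + LT n (1 / z))) =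
          c * z ^ (-((d : ℂ) / 2)) + c * z ^ (-((d : ℂ) / 2)) * LT n (1 / z) := by ring
      rw [e5, e6, Complex.add_re, Complex.add_re]
      linarith
    have k1 := key 1
    have k2 := key (-Complex.I)
    rw [one_mul, one_mul] at k1
    apply Complex.ext k1
    simpa using k2
  · obtain ⟨K, hK0, hK⟩ := gauss_wt hα d 1
    let q : Y d 1 := ⟨fun x : E d => Real.exp (-α * ‖x‖ ^ 2), K, fun x => by
      rw [abs_of_pos (Real.exp_pos _)]
      exact hK x⟩
    rw [← hl₁p q (fun _ => rfl)]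
    exact ((hm.2 (fun s : ℝ => Real.exp (-α * s)) (by fun_prop)
      ⟨1, α, hα, fun s _ => by rw [abs_of_pos (Real.exp_pos _), one_mul]⟩).2 q
        (fun _ => rfl)).symm
  · have h6 := h4 d 1 r₀ hd one_pos hr₀ l₁ m hm
      (fun x : E d => Real.exp (-α * ‖x‖ ^ 2) - f x) hpc (fun x hx => by
        have := hf.1.le_gauss x (by
          rintro rfl
          rw [norm_zero] at hx
          linarith)
        show 0 ≤ Real.exp (-α * ‖x‖ ^ 2) - f x
        linarith) hl₁f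
    have h7 : {s : ℝ | ∀ x : E d, ‖x‖ ^ 2 = s → f x ≠ Real.exp (-α * ‖x‖ ^ 2)} =
        {s : ℝ | ∀ x : E d, ‖x‖ ^ 2 = s → Real.exp (-α * ‖x‖ ^ 2) - f x ≠ 0} := by
      ext s
      constructor
      · intro h x hx h0
        exact h x hx (by linarith)
      · intro h x hx h0
        exact h x hx (by rw [h0, sub_self])
    rw [h7]
    exact h6
  · have h6 := h4 d 1 δ hd one_pos hδ l₂ n hn
      (fun y : E d => (ft f y).re) hftc (fun y _ => (hf.1.ft_nonneg y).2) hl₂f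
    have h7 : {s : ℝ | ∀ y : E d, ‖y‖ ^ 2 = s → ft f y ≠ 0} =
        {s : ℝ | ∀ y : E d, ‖y‖ ^ 2 = s → (ft f y).re ≠ 0} := by
      ext s
      constructor
      · intro h y hy h0
        exact h y hy (Complex.ext h0 (hf.1.ft_nonneg y).1)
      · intro h y hy h0
        exact h y hy (by rw [h0, Complex.zero_re])
    rw [h7]
    exact h6

end Pool.Agent.Lib.MP_adb5ad_gt.W
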