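import Pool.Agent.Lib.MP_adb5ad_gt.W.Spec

/-!
# Admissible functions are dense in the class W
-/

set_option autoImplicit false

open MeasureTheory FourierTransform Real Filter Topology Set

namespace Pool.Agent.Lib.MP_adb5ad_gt.W

open Pool.Agent.Lib.MP_adb5ad_gt

private lemma Dens_ft_zero {d : ℕ} (f : E d → ℝ) : ft f 0 = ((∫ x, f x : ℝ) : ℂ) := by
  unfold ft
  rw [Real.fourier_eq, ← integral_complex_ofReal]
  refine integral_congr_ae (Eventually.of_forall fun v => ?_)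
  simp

private lemma Dens_norm_ft {d : ℕ} (f : E d → ℝ) (y : E d) : ‖ft f y‖ ≤ ∫ x, |f x| := by
  unfold ft
  rw [Real.fourier_eq]
  refine (norm_integral_le_integral_norm _).trans (le_of_eq ?_)
  refine integral_congr_ae (Eventually.of_forall fun v => ?_)
  simp [Circle.smul_def]

private lemma Dens_lim {d : ℕ} (f : E d → ℝ) (hc : Continuous f) (hi : Integrable f) :
    Tendsto (fun n : ℕ => ∫ x, f x * Real.exp (-(1 / ((n : ℝ) + 1)) * ‖x‖ ^ 2)) atTop
      (𝓝 (∫ x, f x)) := by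
  refine tendsto_integral_of_dominated_convergence (fun x => |f x|) (fun n => ?_) hi.abs
    (fun n => Eventually.of_forall fun x => ?_) (Eventually.of_forall fun x => ?_)
  · exact (hc.mul (by fun_prop)).aestronglyMeasurable
  · rw [Real.norm_eq_abs, abs_mul, abs_of_pos (Real.exp_pos _)]
    refine mul_le_of_le_one_right (abs_nonneg _) ?_
    rw [Real.exp_le_one_iff]
    have : 0 ≤ 1 / ((n : ℝ) + 1) * ‖x‖ ^ 2 := by positivity
    linarith
  · have h1 : Tendsto (fun n : ℕ => f x * Real.exp (-(1 / ((n : ℝ) + 1)) * ‖x‖ ^ 2)) atTop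
        (𝓝 (f x * Real.exp (-0 * ‖x‖ ^ 2))) := by
      refine Tendsto.const_mul _ ?_
      refine (Real.continuous_exp.tendsto _).comp ?_
      refine Tendsto.mul_const _ ?_
      exact tendsto_one_div_add_atTop_nhds_zero_nat.neg
    simpa using h1

theorem tDens (h1 : S_Bas) (h2 : S_Damp) (h3 : S_Moll) : S_Dens := by
  intro d α hd hα f hf ε hε
  obtain ⟨b1, -, b3, b4, -⟩ := h1 d α hd hα f hf
  have hlim := Dens_lim f hf.cont hf.int
  obtain ⟨n, hn⟩ := ((tendsto_order.1 hlim).1 ((∫ x, f x) - ε) (by linarith)).exists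
  have hη : 0 < 1 / ((n : ℝ) + 1) := by positivity
  generalize 1 / ((n : ℝ) + 1) = η at hn hη
  have hexp1 : ∀ x : E d, Real.exp (-η * ‖x‖ ^ 2) ≤ 1 := fun x => by
    rw [Real.exp_le_one_iff]
    have : 0 ≤ η * ‖x‖ ^ 2 := by positivity
    linarith
  have hkc : Continuous fun x : E d => f x * Real.exp (-η * ‖x‖ ^ 2) :=
    hf.cont.mul (by fun_prop)
  have hkb : ∀ x : E d, |f x * Real.exp (-η * ‖x‖ ^ 2)| ≤ 1 * Real.exp (-η * ‖x‖ ^ 2) :=
    fun x => by
      rw [abs_mul, abs_of_pos (Real.exp_pos _)]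
      exact mul_le_mul_of_nonneg_right ((b3 x).trans b4) (Real.exp_pos _).le
  have hkle : ∀ x : E d, f x * Real.exp (-η * ‖x‖ ^ 2) ≤ Real.exp (-(α + η) * ‖x‖ ^ 2) :=
    fun x => by
      have e : Real.exp (-(α + η) * ‖x‖ ^ 2) =
          Real.exp (-α * ‖x‖ ^ 2) * Real.exp (-η * ‖x‖ ^ 2) := by
        rw [← Real.exp_add]
        congr 1
        ring
      rw [e]
      exact mul_le_mul_of_nonneg_right (b1 x) (Real.exp_pos _).le
  have hkf0 : ∀ x : E d, f x * Real.exp (-η * ‖x‖ ^ 2) ≤ f 0 := fun x => by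
    refine (le_abs_self _).trans ?_
    rw [abs_mul, abs_of_pos (Real.exp_pos _)]
    exact (mul_le_of_le_one_right (abs_nonneg _) (hexp1 x)).trans (b3 x)
  have hαη : 0 < α + η := by linarith
  have ht : 0 < π ^ 2 * (1 / α - 1 / (α + η)) := by
    have h4 : 1 / (α + η) < 1 / α := one_div_lt_one_div_of_lt hα (by linarith)
    have h5 : 0 < 1 / α - 1 / (α + η) := by linarith
    have h6 := Real.pi_pos
    positivity
  have hti : 1 / (1 / (α + η) + π ^ 2 * (1 / α - 1 / (α + η)) / π ^ 2) = α := by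
    have h6 := Real.pi_pos.ne'
    have e1 : π ^ 2 * (1 / α - 1 / (α + η)) / π ^ 2 = 1 / α - 1 / (α + η) := by
      rw [mul_div_assoc, mul_comm, div_mul_cancel₀]
      exact pow_ne_zero 2 h6
    rw [e1, show 1 / (α + η) + (1 / α - 1 / (α + η)) = 1 / α by ring, one_div_one_div]
  have hdamp := h2 d f hf.cont hf.int hf.ft_nonneg η hη
  obtain ⟨g, gc, ⟨C', η', hη', hgb⟩, gft, gm, gβ⟩ :=
    h3 d (fun x => f x * Real.exp (-η * ‖x‖ ^ 2)) η 1 (π ^ 2 * (1 / α - 1 / (α + η))) hkc hη ht hkb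
  have gle := gβ (α + η) hαη hkle
  rw [hti] at gle
  have g0 : g 0 ≤ f 0 := gm (f 0) hkf0 0
  generalize π ^ 2 * (1 / α - 1 / (α + η)) = t at ht gft
  generalize hkdef : (fun x : E d => f x * Real.exp (-η * ‖x‖ ^ 2)) = k at *
  have hC' : 0 ≤ C' := by
    have h4 := hgb 0
    rw [norm_zero] at h4
    have h5 : Real.exp (-η' * 0 ^ 2) = 1 := by simp
    rw [h5, mul_one] at h4
    exact (abs_nonneg _).trans h4
  obtain ⟨C1, hC1, hC1'⟩ := Dual.gauss_decay hη' ((d : ℝ) + 1)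
  obtain ⟨C2, hC2, hC2'⟩ := Dual.gauss_decay ht ((d : ℝ) + 1)
  rw [neg_add'] at hC1' hC2'
  have hI : 0 ≤ ∫ x, |k x| := integral_nonneg fun x => abs_nonneg _
  refine ⟨g, ⟨gc, ⟨1, one_pos, C' * C1 + (∫ x, |k x|) * C2, fun x => ⟨?_, ?_⟩⟩,
    fun x _ => gle x, fun y => ?_⟩, ?_⟩
  · have h4 := mul_le_mul_of_nonneg_left (hC1' ‖x‖ (norm_nonneg _)) hC'
    refine (hgb x).trans (h4.trans ?_)
    rw [← mul_assoc]
    refine mul_le_mul_of_nonneg_right ?_ (by positivity)
    have : 0 ≤ (∫ x, |k x|) * C2 := by positivity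
    linarith
  · rw [gft, norm_mul, Complex.norm_real, Real.norm_eq_abs, abs_of_pos (Real.exp_pos _)]
    have h4 := mul_le_mul (Dens_norm_ft k x) (hC2' ‖x‖ (norm_nonneg _)) (Real.exp_pos _).le hI
    refine h4.trans ?_
    rw [← mul_assoc]
    refine mul_le_mul_of_nonneg_right ?_ (by positivity)
    have : 0 ≤ C' * C1 := by positivity
    linarith
  · rw [gft]
    have h4 := hdamp y
    rw [Complex.im_mul_ofReal, Complex.re_mul_ofReal]
    exact ⟨by rw [h4.1, zero_mul], mul_nonneg h4.2 (Real.exp_pos _).le⟩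
  · unfold value
    rw [gft, Dens_ft_zero, Dens_ft_zero]
    have h5 : Real.exp (-t * ‖(0 : E d)‖ ^ 2) = 1 := by simp
    rw [h5, Complex.ofReal_one, mul_one, Complex.ofReal_re, Complex.ofReal_re]
    linarith

end Pool.Agent.Lib.MP_adb5ad_gt.W
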