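import Pool.Agent.Lib.MP_adb5ad_gt.W.Spec

set_option autoImplicit false

open MeasureTheory FourierTransform Real Filter Topology Set

namespace Pool.Agent.Lib.MP_adb5ad_gt.W

open Pool.Agent.Lib.MP_adb5ad_gt

private theorem claim (hB : S_Bas) {d : ℕ} (hd : 1 ≤ d) {α : ℝ} (hα : 0 < α) {f : E d → ℝ}
    (hf : AdmW d α f) :
    AdmW d (π ^ 2 / α) (Dual.D d α f) ∧
    (∀ y, ft (Dual.D d α f) y =
      (((α / π) ^ ((d : ℝ) / 2) * (Real.exp (-α * ‖y‖ ^ 2) - f (-y)) : ℝ) : ℂ)) ∧
    value (Dual.D d α f) = (α / π) ^ ((d : ℝ) / 2) - 1 + (α / π) ^ ((d : ℝ) / 2) * value f := by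
  set c : ℝ := (α / π) ^ ((d : ℝ) / 2) with hc
  have hc0 : 0 < c := by positivity
  set β : ℝ := π ^ 2 / α with hβdef
  have hβ : 0 < β := by positivity
  obtain ⟨hle, -, -, -, hpi, -⟩ := hB d α hd hα f hf
  set F : E d → ℂ := fun x => (f x : ℂ) with hF
  have hFc : Continuous F := Complex.continuous_ofReal.comp hf.cont
  have hFi : Integrable F := hf.int.ofReal
  have hftc : Continuous (𝓕 F) := ft_continuous hf.int
  have hfti : Integrable (𝓕 F) := hf.ftint
  have hreal : ∀ y, (((ft f y).re : ℝ) : ℂ) = 𝓕 F y := by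
    intro y
    apply Complex.ext
    · simp [ft, hF]
    · rw [Complex.ofReal_im]
      exact ((hf.ft_nonneg y).1).symm
  have hftcont : Continuous (fun y => (ft f y).re) := Complex.continuous_re.comp hftc
  have hDc : Continuous (Dual.D d α f) := by
    unfold Dual.D
    apply Continuous.sub
    · fun_prop
    · exact continuous_const.mul hftcont
  -- the Gaussian
  have hgint : ∀ b : ℝ, 0 < b → Integrable (fun x : E d => Real.exp (-b * ‖x‖ ^ 2)) := by
    intro b hb
    obtain ⟨C1, hC1, hC1'⟩ := Dual.gauss_decay hb ((d : ℝ) + 1)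
    rw [neg_add'] at hC1'
    apply integrable_of_decay one_pos (by fun_prop) (C := C1)
    intro x
    rw [Real.norm_eq_abs, abs_of_pos (Real.exp_pos _)]
    exact hC1' ‖x‖ (norm_nonneg _)
  set G : E d → ℂ := fun v => ((Real.exp (-β * ‖v‖ ^ 2) : ℝ) : ℂ) with hG
  have hGi : Integrable G := (hgint β hβ).ofReal
  have hinv : ∀ y, 𝓕 (𝓕 F) y = F (-y) := by
    intro y
    have h1 := congrFun (hFc.fourierInv_fourier_eq hFi hfti) (-y)
    rw [Real.fourierInv_eq_fourier_neg, neg_neg] at h1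
    exact h1
  have hgauss : ∀ y, 𝓕 G y = ((c * Real.exp (-α * ‖y‖ ^ 2) : ℝ) : ℂ) := by
    intro y
    rw [hG, Dual.gauss_ft d hβ y]
    have e1 : π / β = α / π := by
      rw [hβdef]
      field_simp
    have e2 : π ^ 2 / β = α := by
      rw [hβdef]
      field_simp
    rw [e1, e2]
  have hft : ∀ y, ft (Dual.D d α f) y =
      ((c * (Real.exp (-α * ‖y‖ ^ 2) - f (-y)) : ℝ) : ℂ) := by
    intro y
    have e1 : (fun x => ((Dual.D d α f x : ℝ) : ℂ)) = fun x => G x - (c : ℂ) * 𝓕 F x := by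
      funext x
      unfold Dual.D
      rw [Complex.ofReal_sub, Complex.ofReal_mul, hreal x]
    unfold ft
    rw [e1, Real.fourier_eq]
    have e2 : ∀ v : E d, (Real.fourierChar (-inner ℝ v y)) • (G v - (c : ℂ) * 𝓕 F v) =
        (Real.fourierChar (-inner ℝ v y)) • G v -
          (c : ℂ) * ((Real.fourierChar (-inner ℝ v y)) • 𝓕 F v) := by
      intro v
      simp only [Circle.smul_def, smul_eq_mul]
      ring
    simp only [e2]
    rw [integral_sub, integral_const_mul, ← Real.fourier_eq, ← Real.fourier_eq, hinv, hgauss]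
    · push_cast
      rw [hF]
      ring
    · exact (Real.fourierIntegral_convergent_iff y).2 hGi
    · exact ((Real.fourierIntegral_convergent_iff y).2 hfti).const_mul _
  have hre : Integrable (fun y => (ft f y).re) := hf.ftint.re
  refine ⟨⟨hDc, ?_, ?_, ?_, ?_⟩, hft, ?_⟩
  · unfold Dual.D
    exact (hgint _ hβ).sub (hre.const_mul _)
  · have e3 : ft (Dual.D d α f) = fun y =>
        ((c * (Real.exp (-α * ‖y‖ ^ 2) - f (-y)) : ℝ) : ℂ) := funext hft
    rw [e3]
    apply Integrable.ofReal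
    exact ((hgint α hα).sub hf.int.comp_neg).const_mul c
  · intro x _
    unfold Dual.D
    have := (hf.ft_nonneg x).2
    have h2 : 0 ≤ c * (ft f x).re := by positivity
    linarith
  · intro y
    rw [hft y, Complex.ofReal_im, Complex.ofReal_re]
    refine ⟨rfl, ?_⟩
    have := hle (-y)
    rw [norm_neg] at this
    apply mul_nonneg hc0.le
    linarith
  · unfold value
    rw [hft 0, Complex.ofReal_re]
    unfold Dual.D
    rw [norm_zero, neg_zero]
    simp only [ne_eq, OfNat.ofNat_ne_zero, not_false_eq_true, zero_pow, mul_zero, Real.exp_zero]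
    rw [← hc]
    ring

theorem tDualW (hB : S_Bas) : S_DualW := by
  intro d α hd hα f hf
  obtain ⟨h1, h2, h3⟩ := claim hB hd hα hf.1
  refine ⟨Dual.D d α f, ⟨h1, ?_⟩, fun _ => rfl, h2, h3⟩
  intro g hg
  have hβ : 0 < π ^ 2 / α := by positivity
  obtain ⟨k1, k2, k3⟩ := claim hB hd hβ hg
  have e1 : π ^ 2 / (π ^ 2 / α) = α := by field_simp
  rw [e1] at k1
  have k4 := hf.2 _ k1
  rw [k3] at k4
  rw [h3]
  set c : ℝ := (α / π) ^ ((d : ℝ) / 2) with hc
  have hc0 : 0 < c := by positivity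
  have e2 : (π ^ 2 / α / π) ^ ((d : ℝ) / 2) = c⁻¹ := by
    rw [hc, ← Real.inv_rpow (by positivity)]
    congr 1
    field_simp
  rw [e2] at k4
  have k5 := mul_le_mul_of_nonneg_left k4 hc0.le
  have e3 : c * (c⁻¹ - 1 + c⁻¹ * value g) = 1 - c + value g := by
    field_simp
  rw [e3] at k5
  linarith

end Pool.Agent.Lib.MP_adb5ad_gt.W
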