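import Pool.Agent.Lib.MP_adb5ad_gt.W.Spec

/-!
# A generic optimal function

The pairs `(f, ft f)` of the optimal functions form a subset of the second countable space
`C(E d, ℝ) × C(E d, ℂ)` (compact-open topology), where evaluations are continuous.
-/

set_option autoImplicit false

open MeasureTheory FourierTransform Real Filter Topology Set

noncomputable section

namespace Pool.Agent.Lib.MP_adb5ad_gt.W

open Pool.Agent.Lib.MP_adb5ad_gt

private theorem ftc {d : ℕ} {f : E d → ℝ} (hf : Integrable f) : Continuous (ft f) :=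
  by
  have := VectorFourier.fourierIntegral_continuous (μ := (volume : Measure (E d)))
    (f := fun x => (f x : ℂ)) Real.continuous_fourierChar
    (L := innerₗ (E d)) (by exact continuous_inner) hf.ofReal
  exact this

/-- the pair of continuous maps of an optimal function -/
private def pr {d : ℕ} {α : ℝ} (f : {f : E d → ℝ // IsOptW d α f}) : C(E d, ℝ) × C(E d, ℂ) :=
  (⟨f.1, f.2.1.cont⟩, ⟨ft f.1, ftc f.2.1.int⟩)

theorem tGen (_h1 : S_Bas) (h2 : S_Avg) : S_Gen := by
  intro d α hd hα hex
  obtain ⟨f0, hf0⟩ := hex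
  haveI : Nonempty (range (pr (d := d) (α := α))) := ⟨⟨_, ⟨⟨f0, hf0⟩, rfl⟩⟩⟩
  obtain ⟨u, hu⟩ := TopologicalSpace.exists_dense_seq (range (pr (d := d) (α := α)))
  choose g hg using fun k => (u k).2
  obtain ⟨F, hF, hF1, hF2⟩ := h2 d α hd hα (fun k => (g k).1) (fun k => (g k).2)
  refine ⟨F, hF, ?_⟩
  intro q hq
  refine ⟨?_, ?_⟩
  · intro x hx
    by_contra hne
    have hop : IsOpen {w : range (pr (d := d) (α := α)) |
        w.1.1 x ≠ Real.exp (-α * ‖x‖ ^ 2)} := by
      have hc : Continuous fun w : range (pr (d := d) (α := α)) => w.1.1 x :=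
        (ContinuousEvalConst.continuous_eval_const x).comp (continuous_fst.comp continuous_subtype_val)
      exact isOpen_ne.preimage hc
    obtain ⟨k, hk⟩ := hu.exists_mem_open hop ⟨⟨_, ⟨⟨q, hq⟩, rfl⟩⟩, hne⟩
    apply hk
    rw [← hg k]
    exact hF1 x hx k
  · intro y hy
    by_contra hne
    have hop : IsOpen {w : range (pr (d := d) (α := α)) | w.1.2 y ≠ 0} := by
      have hc : Continuous fun w : range (pr (d := d) (α := α)) => w.1.2 y :=
        (ContinuousEvalConst.continuous_eval_const y).comp (continuous_snd.comp continuous_subtype_val)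
      exact isOpen_ne.preimage hc
    obtain ⟨k, hk⟩ := hu.exists_mem_open hop ⟨⟨_, ⟨⟨q, hq⟩, rfl⟩⟩, hne⟩
    apply hk
    rw [← hg k]
    exact hF2 y hy k

end Pool.Agent.Lib.MP_adb5ad_gt.W
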