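import Pool.Agent.Lib.MP_adb5ad_gt.W.Spec

set_option autoImplicit false

open MeasureTheory FourierTransform Real Filter Topology Set
open scoped ContDiff

namespace Pool.Agent.Lib.MP_adb5ad_gt.W

open Pool.Agent.Lib.MP_adb5ad_gt

private lemma selfadj {d : ℕ} {F H : E d → ℂ} (hF : Integrable F) (hH : Integrable H) :
    ∫ x, F x * 𝓕 H x = ∫ y, 𝓕 F y * H y := by
  have h := VectorFourier.integral_fourierIntegral_smul_eq_flip (L := innerₗ (E d))
    (μ := (volume : Measure (E d))) (ν := (volume : Measure (E d)))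
    Real.continuous_fourierChar continuous_inner hF hH
  simpa using! h.symm

theorem tInvX : S_Inv := by
  intro d f G hf hG hG0 hid
  set F : E d → ℂ := fun x => (f x : ℂ) with hF
  have hFi : Integrable F := hf.ofReal
  have hcont : Continuous (𝓕 F) := ft_continuous hf
  have hGi : Integrable (fun y : E d => (G y : ℂ)) := hG.ofReal
  have hae : ∀ᵐ y, 𝓕 F y = (G y : ℂ) := by
    apply ae_eq_of_integral_contDiff_smul_eq hcont.locallyIntegrable
      hGi.locallyIntegrable
    intro g hg1 hg2
    have hg3 : ContDiff ℝ ∞ (fun x => ((g x : ℝ) : ℂ)) := Complex.ofRealCLM.contDiff.comp hg1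
    have hg4 : HasCompactSupport (fun x => ((g x : ℝ) : ℂ)) :=
      hg2.comp_left (g := fun r : ℝ => (r : ℂ)) (by simp)
    let h : SchwartzMap (E d) ℂ := hg4.toSchwartzMap hg3
    have hh : ∀ x, h x = (g x : ℂ) := fun x => rfl
    have e1 := hid h
    have e2 := selfadj hFi h.integrable
    have e3 : ∀ y, g y • 𝓕 F y = 𝓕 F y * h y := by
      intro y
      rw [hh, Complex.real_smul, mul_comm]
    have e4 : ∀ y, g y • (G y : ℂ) = (G y : ℂ) * h y := by
      intro y
      rw [hh, Complex.real_smul, mul_comm]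
    simp only [e3, e4]
    rw [← e1, ← e2]
  have hreal : ∀ y, (𝓕 F y).im = 0 ∧ 0 ≤ (𝓕 F y).re := by
    have hcl : IsClosed {y : E d | (𝓕 F y).im = 0 ∧ 0 ≤ (𝓕 F y).re} :=
      (isClosed_eq (Complex.continuous_im.comp hcont) continuous_const).inter
        (isClosed_le continuous_const (Complex.continuous_re.comp hcont))
    have hd : Dense {y : E d | (𝓕 F y).im = 0 ∧ 0 ≤ (𝓕 F y).re} := by
      apply Measure.dense_of_ae (μ := volume)
      filter_upwards [hae] with y hy
      rw [hy]
      simp [hG0 y]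
    intro y
    have := hcl.closure_eq ▸ hd.closure_eq
    have h2 : y ∈ {y : E d | (𝓕 F y).im = 0 ∧ 0 ≤ (𝓕 F y).re} := by
      rw [← hcl.closure_eq, hd.closure_eq]
      trivial
    exact h2
  have hfti : Integrable (𝓕 F) := by
    refine hG.ofReal.congr ?_
    filter_upwards [hae] with y hy
    exact hy.symm
  set F₀ : E d → ℂ := 𝓕⁻ (𝓕 F) with hF₀
  have hF₀n : ∀ x, F₀ x = 𝓕 (𝓕 F) (-x) := by
    intro x
    rw [hF₀, Real.fourierInv_eq_fourier_neg]
  have hc2 : Continuous (𝓕 (𝓕 F)) := Dual.continuous_ft hfti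
  have hF₀c : Continuous F₀ := by
    have : F₀ = fun x => 𝓕 (𝓕 F) (-x) := funext hF₀n
    rw [this]
    exact hc2.comp continuous_neg
  have hae2 : ∀ᵐ x, F₀ x = F x := by
    apply ae_eq_of_integral_contDiff_smul_eq hF₀c.locallyIntegrable hFi.locallyIntegrable
    intro g hg1 hg2
    have hg3 : ContDiff ℝ ∞ (fun x => ((g x : ℝ) : ℂ)) := Complex.ofRealCLM.contDiff.comp hg1
    have hg4 : HasCompactSupport (fun x => ((g x : ℝ) : ℂ)) :=
      hg2.comp_left (g := fun r : ℝ => (r : ℂ)) (by simp)
    let h : SchwartzMap (E d) ℂ := hg4.toSchwartzMap hg3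
    have hh : ∀ x, h x = (g x : ℂ) := fun x => rfl
    let k : SchwartzMap (E d) ℂ := 𝓕⁻ h
    have hk : ∀ x, k x = 𝓕⁻ (fun y : E d => h y) x := fun x => by
      simp only [k, SchwartzMap.fourierInv_coe]
    have hk2 : ∀ x, k x = 𝓕 (fun y : E d => h (-y)) x := by
      intro x
      rw [hk, Real.fourierInv_eq_fourier_comp_neg]
    have hk3 : ∀ x, 𝓕 (fun y : E d => k y) x = h x := by
      intro x
      have h5 : 𝓕 k = h := by simp [k]
      have h6 : (𝓕 k) x = h x := by rw [h5]
      rwa [SchwartzMap.fourier_coe] at h6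
    have e3 : ∀ y, g y • F₀ y = F₀ y * h y := by
      intro y
      rw [hh, Complex.real_smul, mul_comm]
    have e4 : ∀ y, g y • F y = F y * h y := by
      intro y
      rw [hh, Complex.real_smul, mul_comm]
    simp only [e3, e4]
    have hneg : Integrable (fun y : E d => h (-y)) := h.integrable.comp_neg
    calc ∫ x, F₀ x * h x = ∫ x, 𝓕 (𝓕 F) (-x) * h x := by simp only [hF₀n]
      _ = ∫ x, 𝓕 (𝓕 F) x * h (-x) := by
        rw [← integral_neg_eq_self]
        simp
      _ = ∫ x, 𝓕 F x * 𝓕 (fun y : E d => h (-y)) x := (selfadj hfti hneg).symm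
      _ = ∫ x, 𝓕 F x * k x := by simp only [hk2]
      _ = ∫ x, F x * 𝓕 (fun y : E d => k y) x := (selfadj hFi k.integrable).symm
      _ = ∫ x, F x * h x := by simp only [hk3]
  have him : ∀ x, (F₀ x).im = 0 := by
    have h1 : (fun x => (F₀ x).im) =ᵐ[volume] fun _ => (0 : ℝ) := by
      filter_upwards [hae2] with x hx
      rw [hx]
      simp [hF]
    have h2 := (Continuous.ae_eq_iff_eq volume (Complex.continuous_im.comp hF₀c)
      continuous_const).1 h1
    intro x
    exact congrFun h2 x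
  refine ⟨fun x => (F₀ x).re, Complex.continuous_re.comp hF₀c, ?_, ?_, ?_, ?_⟩
  · filter_upwards [hae2] with x hx
    rw [hx]
    simp [hF]
  all_goals
    have hft : ∀ y, ft (fun x => (F₀ x).re) y = 𝓕 F y := by
      intro y
      unfold ft
      rw [Real.fourier_eq, Real.fourier_eq]
      apply integral_congr_ae
      filter_upwards [hae2] with x hx
      have : (((F₀ x).re : ℝ) : ℂ) = F x := by
        rw [hx]
        simp [hF]
      rw [this]
  · intro y
    rw [hft y]
    exact hreal y
  · filter_upwards [hae] with y hy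
    rw [hft y, hy]
    simp
  · have h1 : F₀ 0 = ∫ y, 𝓕 F y := by
      rw [hF₀, Real.fourierInv_eq]
      simp
    have h2 : ∫ y, 𝓕 F y = ∫ y, ((G y : ℝ) : ℂ) := integral_congr_ae hae
    show (F₀ 0).re = _
    rw [h1, h2, integral_complex_ofReal, Complex.ofReal_re]

end Pool.Agent.Lib.MP_adb5ad_gt.W
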