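import Pool.Agent.Lib.MP_adb5ad_gt.W.Spec

/-!
# MP_adb5ad_gt, W/Lim: the weak limit theorem (S_Lim from S_Bas, S_Wk, S_Inv)
-/

set_option autoImplicit false

open MeasureTheory FourierTransform Real Filter Topology Set

namespace Pool.Agent.Lib.MP_adb5ad_gt.W

open Pool.Agent.Lib.MP_adb5ad_gt

/-- A product of a bounded measurable function with an integrable function. -/
private theorem int_mul {d : ℕ} {M : ℝ} {w : E d → ℝ} {H : E d → ℂ} (hwm : Measurable w)
    (hw0 : ∀ x, 0 ≤ w x) (hwM : ∀ x, w x ≤ M) (hH : Integrable H) :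
    Integrable (fun x => (w x : ℂ) * H x) := by
  refine hH.bdd_mul (c := M) (Complex.measurable_ofReal.comp hwm).aestronglyMeasurable
    (ae_of_all _ fun x => ?_)
  rw [Complex.norm_real, Real.norm_eq_abs, abs_of_nonneg (hw0 x)]
  exact hwM x

/-- Weak convergence against complex test functions. -/
private theorem weak_complex {d : ℕ} {U : Ultrafilter ℕ} {u : ℕ → E d → ℝ} {v : E d → ℝ}
    {M : ℝ} (hum : ∀ n, Measurable (u n)) (hu0 : ∀ n x, 0 ≤ u n x) (huM : ∀ n x, u n x ≤ M)
    (hvm : Measurable v) (hv0 : ∀ x, 0 ≤ v x) (hvM : ∀ x, v x ≤ M)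
    (hw : ∀ h : E d → ℝ, Integrable h → (∃ C : ℝ, ∀ x, |h x| ≤ C) →
      Tendsto (fun n => ∫ x, u n x * h x) U (𝓝 (∫ x, v x * h x)))
    {H : E d → ℂ} (hH : Integrable H) (hb : ∃ C : ℝ, ∀ x, ‖H x‖ ≤ C) :
    Tendsto (fun n => ∫ x, (u n x : ℂ) * H x) U (𝓝 (∫ x, (v x : ℂ) * H x)) := by
  obtain ⟨C, hC⟩ := hb
  have key : ∀ w : E d → ℝ, Measurable w → (∀ x, 0 ≤ w x) → (∀ x, w x ≤ M) →
      ∫ x, (w x : ℂ) * H x = ((∫ x, w x * (H x).re : ℝ) : ℂ) +
        ((∫ x, w x * (H x).im : ℝ) : ℂ) * Complex.I := by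
    intro w hwm hw0 hwM
    have hi := int_mul hwm hw0 hwM hH
    have := integral_re_add_im hi
    rw [← this]
    simp
  have hre := hw (fun x => (H x).re) hH.re ⟨C, fun x => (Complex.abs_re_le_norm _).trans (hC x)⟩
  have him := hw (fun x => (H x).im) hH.im ⟨C, fun x => (Complex.abs_im_le_norm _).trans (hC x)⟩
  rw [key v hvm hv0 hvM]
  have h1 : (fun n => ∫ x, (u n x : ℂ) * H x) = fun n => ((∫ x, u n x * (H x).re : ℝ) : ℂ) +
        ((∫ x, u n x * (H x).im : ℝ) : ℂ) * Complex.I :=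
    funext fun n => key (u n) (hum n) (hu0 n) (huM n)
  rw [h1]
  exact ((Complex.continuous_ofReal.tendsto _).comp hre).add
    (((Complex.continuous_ofReal.tendsto _).comp him).mul_const _)

/-- Bounded real sequences converge along an ultrafilter. -/
private theorem ultra_lim {U : Ultrafilter ℕ} {a : ℕ → ℝ} {l m : ℝ}
    (h : ∀ n, a n ∈ Icc l m) : ∃ k, Tendsto a U (𝓝 k) := by
  have hc : IsCompact (Icc l m) := isCompact_Icc
  obtain ⟨k, -, hk⟩ := hc.ultrafilter_le_nhds (U.map a) (by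
    rw [le_principal_iff]
    exact Filter.univ_mem' (f := (U : Filter ℕ)) (fun n => h n))
  exact ⟨k, hk⟩

/-- Fubini for the pairing with the Fourier transform. -/
private theorem flip_ft {d : ℕ} {f : E d → ℝ} (hf : Integrable f) {h : E d → ℂ}
    (hh : Integrable h) :
    ∫ x, (f x : ℂ) * 𝓕 h x = ∫ y, ft f y * h y := by
  have := (VectorFourier.integral_fourierIntegral_smul_eq_flip (L := innerₗ (E d))
      (μ := (volume : Measure (E d))) (ν := (volume : Measure (E d)))
      (f := fun x => (f x : ℂ)) (g := h)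
      Real.continuous_fourierChar (by exact continuous_inner) hf.ofReal hh).symm
  simpa [ft] using! this

theorem tLim (h1 : S_Bas) (h2 : S_Wk) (h3 : S_Inv) : S_Lim := by
  intro d α hd hα U f hf V Q hV hQ
  set p : E d → ℝ := fun x => Real.exp (-α * ‖x‖ ^ 2) with hp
  set P : ℝ := (π / α) ^ ((d : ℝ) / 2) with hP
  have hP0 : 0 < P := Real.rpow_pos_of_pos (by positivity) _
  have bas := fun n => h1 d α hd hα (f n) (hf n)
  have hpint : Integrable p := (bas 0).2.2.2.2.1
  have hpcont : Continuous p := by rw [hp]; fun_prop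
  have hp1 : ∀ x, p x ≤ 1 := by
    intro x
    rw [hp]
    simp only [Real.exp_le_one_iff]
    nlinarith [sq_nonneg ‖x‖]
  have hp0 : ∀ x, 0 ≤ p x := fun x => (Real.exp_pos _).le
  -- the sequences
  set K : ℕ → E d → ℝ := fun n x => p x - f n x with hK
  set G : ℕ → E d → ℝ := fun n y => (ft (f n) y).re with hG
  have hle : ∀ n x, f n x ≤ p x := fun n => (bas n).1
  have hf0 : ∀ n, f n 0 = ∫ y, G n y := fun n => (bas n).2.1
  have habs : ∀ n x, |f n x| ≤ f n 0 := fun n => (bas n).2.2.1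
  have hf1 : ∀ n, f n 0 ≤ 1 := fun n => (bas n).2.2.2.1
  have hKi : ∀ n, (∫ x, K n x) ≤ P := fun n => (bas n).2.2.2.2.2.2.1
  have hGP : ∀ n y, G n y ≤ 2 * P := fun n => (bas n).2.2.2.2.2.2.2.2.1
  have hval : ∀ n, value (f n) = P - (∫ x, K n x) - ∫ y, G n y :=
    fun n => (bas n).2.2.2.2.2.2.2.2.2
  have hfabs : ∀ n x, |f n x| ≤ 1 := fun n x => (habs n x).trans (hf1 n)
  have hK0 : ∀ n x, 0 ≤ K n x := fun n x => sub_nonneg.2 (hle n x)
  have hK2 : ∀ n x, K n x ≤ 2 * P + 2 := by
    intro n x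
    have := neg_le_of_abs_le (hfabs n x)
    have := hp1 x
    simp only [hK]
    linarith
  have hG0 : ∀ n y, 0 ≤ G n y := fun n y => ((hf n).ft_nonneg y).2
  have hG2 : ∀ n y, G n y ≤ 2 * P + 2 := fun n y => (hGP n y).trans (by linarith)
  have hKm : ∀ n, Measurable (K n) := fun n => (hpcont.sub (hf n).cont).measurable
  have hGm : ∀ n, Measurable (G n) := fun n =>
    (Complex.continuous_re.comp (ft_continuous (hf n).int)).measurable
  have hKint : ∀ n, Integrable (K n) := fun n => hpint.sub (hf n).int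
  have hGint : ∀ n, Integrable (G n) := fun n => (hf n).ftint.re
  have hK3 : ∀ n, (∫ x, K n x) ≤ 2 * P + 2 := fun n => (hKi n).trans (by linarith)
  have hG1 : ∀ n, (∫ y, G n y) ≤ 1 := fun n => (hf0 n) ▸ hf1 n
  have hG3 : ∀ n, (∫ y, G n y) ≤ 2 * P + 2 := fun n => (hG1 n).trans (by linarith)
  obtain ⟨k, hkm, hk0, hkM, hkint, hkw, hkl⟩ := h2 d U K (2 * P + 2) hKm hK0 hK2 hKint hK3
  obtain ⟨g, hgm, hg0, hgM, hgint, hgw, hgl⟩ := h2 d U G (2 * P + 2) hGm hG0 hG2 hGint hG3
  -- the limit pair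
  have hpair : ∀ h : SchwartzMap (E d) ℂ,
      ∫ x, ((p x - k x : ℝ) : ℂ) * 𝓕 (fun y : E d => h y) x = ∫ y, (g y : ℂ) * h y := by
    intro h
    have hF : (𝓕 (fun y : E d => h y)) = ⇑(𝓕 h : SchwartzMap (E d) ℂ) := by
      rw [SchwartzMap.fourier_coe]
    have hFi : Integrable (𝓕 (fun y : E d => h y)) := by
      rw [hF]; exact (𝓕 h : SchwartzMap (E d) ℂ).integrable
    have hFb : ∃ C : ℝ, ∀ x, ‖𝓕 (fun y : E d => h y) x‖ ≤ C := by
      refine ⟨SchwartzMap.seminorm ℂ 0 0 (𝓕 h : SchwartzMap (E d) ℂ), fun x => ?_⟩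
      rw [hF]
      exact SchwartzMap.norm_le_seminorm ℂ (𝓕 h : SchwartzMap (E d) ℂ) x
    have hhi : Integrable (fun y : E d => h y) := h.integrable
    have hhb : ∃ C : ℝ, ∀ x, ‖h x‖ ≤ C :=
      ⟨SchwartzMap.seminorm ℂ 0 0 h, fun x => SchwartzMap.norm_le_seminorm ℂ h x⟩
    have hsplit : ∀ w : E d → ℝ, Measurable w → (∀ x, 0 ≤ w x) → (∀ x, w x ≤ 2 * P + 2) →
        ∫ x, ((p x - w x : ℝ) : ℂ) * 𝓕 (fun y : E d => h y) x =
          (∫ x, (p x : ℂ) * 𝓕 (fun y : E d => h y) x) -
            ∫ x, (w x : ℂ) * 𝓕 (fun y : E d => h y) x := by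
      intro w hwm hw0 hwM
      rw [← integral_sub (int_mul hpcont.measurable hp0 hp1 hFi) (int_mul hwm hw0 hwM hFi)]
      congr 1
      ext x
      push_cast
      ring
    have e1 : Tendsto (fun n => ∫ x, ((p x - K n x : ℝ) : ℂ) * 𝓕 (fun y : E d => h y) x) U
        (𝓝 (∫ x, ((p x - k x : ℝ) : ℂ) * 𝓕 (fun y : E d => h y) x)) := by
      have := (weak_complex hKm hK0 hK2 hkm hk0 hkM hkw hFi hFb).const_sub
        (∫ x, (p x : ℂ) * 𝓕 (fun y : E d => h y) x)
      rw [hsplit k hkm hk0 hkM]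
      refine this.congr fun n => ?_
      rw [hsplit (K n) (hKm n) (hK0 n) (hK2 n)]
    have e2 := weak_complex hGm hG0 hG2 hgm hg0 hgM hgw hhi hhb
    refine tendsto_nhds_unique e1 (e2.congr fun n => ?_)
    have := flip_ft (hf n).int hhi
    have h4 : ∀ x, ((p x - K n x : ℝ) : ℂ) = (f n x : ℂ) := by
      intro x
      simp [hK]
    simp only [h4]
    rw [this]
    congr 1
    ext y
    congr 1
    apply Complex.ext
    · simp [hG]
    · simp [((hf n).ft_nonneg y).1]
  obtain ⟨F, hFc, hFe, hFn, hFg, hF0⟩ :=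
    h3 d (fun x => p x - k x) g (hpint.sub hkint) hgint hg0 hpair
  have hFint : Integrable F := (hpint.sub hkint).congr hFe.symm
  have hFp : ∀ x, F x ≤ p x := by
    have hcl : IsClosed {x : E d | F x ≤ p x} := isClosed_le hFc hpcont
    have hd' : Dense {x : E d | F x ≤ p x} := by
      apply Measure.dense_of_ae (μ := (volume : Measure (E d)))
      filter_upwards [hFe] with x hx
      rw [hx]
      have := hk0 x
      linarith
    intro x
    have := hd'.closure_eq
    rw [hcl.closure_eq] at this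
    have hx : x ∈ {x : E d | F x ≤ p x} := this ▸ mem_univ x
    exact hx
  have hFre : ∀ y, ft F y = (((ft F y).re : ℝ) : ℂ) := by
    intro y
    apply Complex.ext
    · simp
    · simp [(hFn y).1]
  have hFft : Integrable (ft F) := by
    have : ft F = fun y => (((ft F y).re : ℝ) : ℂ) := funext hFre
    rw [this]
    exact (hgint.congr hFg.symm).ofReal
  have hAdm : AdmW d α F := ⟨hFc, hFint, hFft, fun x _ => hFp x, hFn⟩
  have basF := h1 d α hd hα F hAdm
  refine ⟨F, hAdm, ?_, ?_⟩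
  · -- the value
    obtain ⟨a, ha⟩ := ultra_lim (U := U) (a := fun n => ∫ x, K n x) (l := 0) (m := P)
      (fun n => ⟨integral_nonneg (hK0 n), hKi n⟩)
    obtain ⟨b, hb⟩ := ultra_lim (U := U) (a := fun n => ∫ y, G n y) (l := 0) (m := 1)
      (fun n => ⟨integral_nonneg (hG0 n), hG1 n⟩)
    have hV' : Tendsto (fun n => value (f n)) U (𝓝 (P - a - b)) := by
      refine ((ha.const_sub P).sub hb).congr fun n => ?_
      rw [hval n]
    have hVe : V = P - a - b := tendsto_nhds_unique hV hV'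
    have i1 : (∫ x, k x) ≤ a := hkl a ha
    have i2 : (∫ y, g y) ≤ b := hgl b hb
    have hFv : value F = P - (∫ x, (p x - F x)) - ∫ y, (ft F y).re :=
      basF.2.2.2.2.2.2.2.2.2
    have j1 : (∫ x, (p x - F x)) = ∫ x, k x := by
      apply integral_congr_ae
      filter_upwards [hFe] with x hx
      rw [hx]
      ring
    have j2 : (∫ y, (ft F y).re) = ∫ y, g y := integral_congr_ae hFg
    rw [hFv, j1, j2, hVe]
    linarith
  · -- the norm
    have hFb : ∀ x, |F x| ≤ 1 := fun x => (basF.2.2.1 x).trans basF.2.2.2.1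
    have hF2 : Integrable (fun x => (F x) ^ 2) := by
      have := hFint.bdd_mul (c := 1) hFc.aestronglyMeasurable
        (ae_of_all _ fun x => by simpa using hFb x)
      refine this.congr (ae_of_all _ fun x => ?_)
      simp only
      ring
    have hf2 : ∀ n, Integrable (fun x => (f n x) ^ 2) := by
      intro n
      have := (hf n).int.bdd_mul (c := 1) (hf n).cont.aestronglyMeasurable
        (ae_of_all _ fun x => by simpa using hfabs n x)
      refine this.congr (ae_of_all _ fun x => ?_)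
      simp only
      ring
    have hfF : ∀ n, Integrable (fun x => f n x * F x) := fun n =>
      hFint.bdd_mul (c := 1) (hf n).cont.aestronglyMeasurable
        (ae_of_all _ fun x => by simpa using hfabs n x)
    have hpF : Integrable (fun x => p x * F x) :=
      hFint.bdd_mul (c := 1) hpcont.aestronglyMeasurable
        (ae_of_all _ fun x => by rw [Real.norm_eq_abs, abs_of_nonneg (hp0 x)]; exact hp1 x)
    have hkF : Integrable (fun x => k x * F x) :=
      hFint.bdd_mul (c := 2 * P + 2) hkm.aestronglyMeasurable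
        (ae_of_all _ fun x => by rw [Real.norm_eq_abs, abs_of_nonneg (hk0 x)]; exact hkM x)
    have hKF : ∀ n, Integrable (fun x => K n x * F x) := fun n =>
      hFint.bdd_mul (c := 2 * P + 2) (hKm n).aestronglyMeasurable
        (ae_of_all _ fun x => by rw [Real.norm_eq_abs, abs_of_nonneg (hK0 n x)]; exact hK2 n x)
    have lim1 : Tendsto (fun n => ∫ x, f n x * F x) U (𝓝 (∫ x, (F x) ^ 2)) := by
      have e0 : ∫ x, (F x) ^ 2 = (∫ x, p x * F x) - ∫ x, k x * F x := by
        rw [← integral_sub hpF hkF]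
        apply integral_congr_ae
        filter_upwards [hFe] with x hx
        rw [show p x * F x - k x * F x = (p x - k x) * F x by ring, ← hx]
        ring
      rw [e0]
      refine ((hkw F hFint ⟨1, hFb⟩).const_sub (∫ x, p x * F x)).congr fun n => ?_
      rw [← integral_sub hpF (hKF n)]
      congr 1
      ext x
      simp only [hK]
      ring
    have hle2 : ∀ n, (∫ x, f n x * F x) ≤ (∫ x, (f n x) ^ 2) / 2 + (∫ x, (F x) ^ 2) / 2 := by
      intro n
      rw [← integral_div, ← integral_div, ← integral_add ((hf2 n).div_const 2)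
        (hF2.div_const 2)]
      refine integral_mono (hfF n) (((hf2 n).div_const 2).add (hF2.div_const 2)) fun x => ?_
      simp only
      nlinarith [sq_nonneg (f n x - F x)]
    have lim2 : Tendsto (fun n => (∫ x, (f n x) ^ 2) / 2 + (∫ x, (F x) ^ 2) / 2) U
        (𝓝 (Q / 2 + (∫ x, (F x) ^ 2) / 2)) := (hQ.div_const 2).add_const _
    have := le_of_tendsto_of_tendsto' lim1 lim2 hle2
    linarith

end Pool.Agent.Lib.MP_adb5ad_gt.W
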