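import Pool.Agent.Lib.MP_adb5ad_gt.W.Spec

set_option autoImplicit false

open MeasureTheory FourierTransform Real Filter Topology Set

namespace Pool.Agent.Lib.MP_adb5ad_gt.W

open Pool.Agent.Lib.MP_adb5ad_gt

theorem tLin : S_Lin := by
  intro d α a s f h hf hc hi hfi him hle hnn
  have hft : ∀ y, ft (fun x => a * f x + s * h x) y = (a : ℂ) * ft f y + (s : ℂ) * ft h y := by
    intro y
    unfold ft
    rw [Real.fourier_eq, Real.fourier_eq, Real.fourier_eq, ← integral_const_mul,
      ← integral_const_mul, ← integral_add]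
    · congr 1
      ext x
      simp only [Circle.smul_def, smul_eq_mul]
      push_cast
      ring
    · exact ((Real.fourierIntegral_convergent_iff y).2 hf.int.ofReal).const_mul _
    · exact ((Real.fourierIntegral_convergent_iff y).2 hi.ofReal).const_mul _
  have hre : ∀ y, (ft (fun x => a * f x + s * h x) y).re = a * (ft f y).re + s * (ft h y).re := by
    intro y
    rw [hft y]
    simp
  refine ⟨⟨?_, ?_, ?_, hle, fun y => ⟨?_, ?_⟩⟩, hft, ?_⟩
  · exact (hf.cont.const_mul a).add (hc.const_mul s)
  · exact (hf.int.const_mul a).add (hi.const_mul s)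
  · have : (ft fun x => a * f x + s * h x) = fun y => (a : ℂ) * ft f y + (s : ℂ) * ft h y :=
      funext hft
    rw [this]
    exact (hf.ftint.const_mul _).add (hfi.const_mul _)
  · rw [hft y]
    simp [(hf.ft_nonneg y).1, him y]
  · rw [hre y]
    exact hnn y
  · unfold value
    rw [hre 0]
    ring

end Pool.Agent.Lib.MP_adb5ad_gt.W
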