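import Pool.Agent.Lib.MP_adb5ad_gt.W.Spec

set_option autoImplicit false

open MeasureTheory FourierTransform Real Filter Topology Set

namespace Pool.Agent.Lib.MP_adb5ad_gt.W

open Pool.Agent.Lib.MP_adb5ad_gt

private lemma ft_pos (h1 : S_Bas) (h2 : S_Sub) (h3 : S_Pos) (d : ℕ) (α : ℝ) (hd : 1 ≤ d)
    (hα : 0 < α) (f : E d → ℝ) (hf : IsOptW d α f) : 0 < (ft f 0).re := by
  obtain ⟨g, hg, hg2⟩ := h3 d α hd hα
  have h4 := hf.2 g (h2 d α g hg)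
  obtain ⟨-, -, h5, -⟩ := h1 d α hd hα f hf.1
  have h6 : 0 ≤ f 0 := (abs_nonneg _).trans (h5 0)
  unfold value at h4 hg2
  linarith

theorem tLt1 (h1 : S_Bas) (h2 : S_Sub) (h3 : S_Pos) (h4 : S_DualW) : S_Lt1 := by
  intro d α hd hα f hf
  refine ⟨?_, ft_pos h1 h2 h3 d α hd hα f hf⟩
  obtain ⟨g, hg, -, hg2, -⟩ := h4 d α hd hα f hf
  have h5 := ft_pos h1 h2 h3 d _ hd (by positivity) g hg
  rw [hg2, Complex.ofReal_re] at h5
  have hc : 0 < (α / π) ^ ((d : ℝ) / 2) := by positivity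
  have h6 := (pos_iff_pos_of_mul_pos h5).1 hc
  simpa using h6

end Pool.Agent.Lib.MP_adb5ad_gt.W
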