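import Pool.Agent.Lib.MP_adb5ad_gt.W.Spec

/-!
# Complementary slackness for the dual measures (class W)
-/

set_option autoImplicit false

open MeasureTheory FourierTransform Real Filter Topology Set

noncomputable section

namespace Pool.Agent.Lib.MP_adb5ad_gt.W

open Pool.Agent.Lib.MP_adb5ad_gt

theorem tMB : S_MB := by
  intro d ε r₀ hd hε hr₀ l m hm g hgc hg0 hlg
  obtain ⟨hm0, hmr⟩ := hm
  haveI : NeZero d := ⟨by omega⟩
  haveI : Nontrivial (E d) := by
    refine ⟨EuclideanSpace.single 0 1, 0, ?_⟩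
    intro h
    have h1 := congrArg norm h
    rw [EuclideanSpace.norm_single, norm_zero, norm_one] at h1
    exact one_ne_zero h1
  -- the minimum over the spheres
  let K : Set (E d) := Metric.sphere 0 1
  have hK : IsCompact K := isCompact_sphere 0 1
  have hKne : K.Nonempty := NormedSpace.sphere_nonempty.2 zero_le_one
  let F : ℝ → E d → ℝ := fun s u => g (Real.sqrt (max s (r₀ ^ 2)) • u)
  have hFc : Continuous (Function.uncurry F) := by
    have h1 : Continuous fun p : ℝ × E d => Real.sqrt (max p.1 (r₀ ^ 2)) • p.2 := by fun_prop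
    exact hgc.comp h1
  let G : ℝ → ℝ := fun s => sInf (F s '' K)
  have hGc : Continuous G := hK.continuous_sInf hFc
  have hsq : ∀ s : ℝ, r₀ ≤ Real.sqrt (max s (r₀ ^ 2)) := fun s =>
    Real.le_sqrt_of_sq_le (le_max_right _ _)
  have hF0 : ∀ s : ℝ, ∀ u ∈ K, 0 ≤ F s u := by
    intro s u hu
    refine hg0 _ ?_
    have h1 : ‖u‖ = 1 := by simpa [K] using hu
    rw [norm_smul, h1, mul_one, Real.norm_eq_abs, abs_of_nonneg (Real.sqrt_nonneg _)]
    exact hsq s
  have hmem : ∀ s : ℝ, G s ∈ F s '' K := by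
    intro s
    have h1 : IsCompact (F s '' K) := hK.image (hFc.comp (Continuous.prodMk_right s))
    exact h1.sInf_mem (hKne.image _)
  have hG0 : ∀ s : ℝ, 0 ≤ G s := by
    intro s
    obtain ⟨u, hu, h1⟩ := hmem s
    rw [← h1]
    exact hF0 s u hu
  have hGle : ∀ x : E d, r₀ ≤ ‖x‖ → G (‖x‖ ^ 2) ≤ g x := by
    intro x hx
    have hxpos : 0 < ‖x‖ := hr₀.trans_le hx
    have h1 : max (‖x‖ ^ 2) (r₀ ^ 2) = ‖x‖ ^ 2 := max_eq_left (pow_le_pow_left₀ hr₀.le hx 2)
    have h2 : F (‖x‖ ^ 2) (‖x‖⁻¹ • x) = g x := by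
      simp only [F]
      rw [h1, Real.sqrt_sq hxpos.le, smul_smul, mul_inv_cancel₀ hxpos.ne', one_smul]
    have h3 : ‖x‖⁻¹ • x ∈ K := by
      simp only [K, mem_sphere_iff_norm, sub_zero]
      rw [norm_smul, norm_inv, norm_norm, inv_mul_cancel₀ hxpos.ne']
    rw [← h2]
    refine csInf_le ?_ (mem_image_of_mem _ h3)
    refine ⟨0, ?_⟩
    rintro y ⟨u, hu, rfl⟩
    exact hF0 _ u hu
  -- the test function
  let φ : ℝ → ℝ := fun s => min (G s) (Real.exp (-1 * s))
  have hφc : Continuous φ := by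
    refine hGc.min ?_
    fun_prop
  have hφ0 : ∀ s, 0 ≤ φ s := fun s => le_min (hG0 s) (Real.exp_pos _).le
  have hφle : ∀ s, φ s ≤ Real.exp (-1 * s) := fun s => min_le_right _ _
  obtain ⟨hint, hrep⟩ := hmr φ hφc ⟨1, 1, one_pos, fun x _ => by
    rw [abs_of_nonneg (hφ0 x), one_mul]
    exact hφle x⟩
  obtain ⟨C, hC0, hC⟩ := Dual.gauss_decay one_pos ((d : ℝ) + ε)
  have hq : (fun x : E d => φ (‖x‖ ^ 2)) ∈ Y d ε := by
    refine ⟨C, fun x => ?_⟩
    rw [abs_of_nonneg (hφ0 _)]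
    refine (hφle _).trans ?_
    have h1 := hC ‖x‖ (norm_nonneg x)
    unfold wt
    rw [show -(d : ℝ) - ε = -((d : ℝ) + ε) by ring]
    exact h1
  have hlq := hrep ⟨_, hq⟩ fun x => rfl
  have h1 : l ⟨_, hq⟩ ≤ 0 := by
    refine hlg _ fun x hx => ?_
    exact (min_le_left _ _).trans (hGle x hx)
  rw [hlq] at h1
  have h2 : 0 ≤ ∫ x, φ x ∂m := integral_nonneg hφ0
  have h3 : ∫ x, φ x ∂m = 0 := by linarith
  rw [integral_eq_zero_iff_of_nonneg hφ0 hint] at h3
  have h4 : m {s | φ s ≠ 0} = 0 := by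
    have h5 := h3
    rw [Filter.EventuallyEq, ae_iff] at h5
    simpa using h5
  refine measure_mono_null (t := Iio (r₀ ^ 2) ∪ {s | φ s ≠ 0}) ?_ (measure_union_null hm0 h4)
  intro s hs
  rcases lt_or_ge s (r₀ ^ 2) with h5 | h5
  · exact Or.inl h5
  · refine Or.inr ?_
    obtain ⟨u, hu, hu1⟩ := hmem s
    have hu2 : ‖u‖ = 1 := by simpa [K] using hu
    have hs0 : 0 ≤ s := (sq_nonneg r₀).trans h5
    have h6 : ‖Real.sqrt (max s (r₀ ^ 2)) • u‖ ^ 2 = s := by
      rw [norm_smul, hu2, mul_one, Real.norm_eq_abs, abs_of_nonneg (Real.sqrt_nonneg _),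
        max_eq_left h5, Real.sq_sqrt hs0]
    have h7 := hs _ h6
    have h8 : 0 < G s := by
      rw [← hu1]
      exact lt_of_le_of_ne (hF0 s u hu) (Ne.symm h7)
    have h9 : 0 < φ s := lt_min h8 (Real.exp_pos _)
    exact h9.ne'

end Pool.Agent.Lib.MP_adb5ad_gt.W
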