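import Pool.Agent.Lib.MP_adb5ad_gt.W.Spec

/-!
# MP_adb5ad_gt, package W: an optimal function of least norm
-/

set_option autoImplicit false

open MeasureTheory FourierTransform Real Filter Topology Set

noncomputable section

namespace Pool.Agent.Lib.MP_adb5ad_gt.W

open Pool.Agent.Lib.MP_adb5ad_gt

private theorem zero_adm (d : ℕ) (α : ℝ) : AdmW d α (fun _ : E d => (0 : ℝ)) := by
  have hft : ft (fun _ : E d => (0 : ℝ)) = fun _ => 0 := by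
    funext y
    unfold ft
    simp [Real.fourier_eq]
  refine ⟨continuous_const, integrable_zero _ _ _, ?_, fun x _ => (Real.exp_pos _).le, fun y => ?_⟩
  · rw [hft]
    exact integrable_zero _ _ _
  · rw [hft]
    simp

private theorem value_le (h1 : S_Bas) {d : ℕ} {α : ℝ} (hd : 1 ≤ d) (hα : 0 < α) {f : E d → ℝ}
    (hf : AdmW d α f) : value f ≤ (π / α) ^ ((d : ℝ) / 2) := by
  obtain ⟨b1, -, -, -, -, -, -, -, -, b10⟩ := h1 d α hd hα f hf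
  rw [b10]
  have e1 : 0 ≤ ∫ x, (Real.exp (-α * ‖x‖ ^ 2) - f x) :=
    integral_nonneg fun x => sub_nonneg.2 (b1 x)
  have e2 : 0 ≤ ∫ y, (ft f y).re := integral_nonneg fun y => (hf.ft_nonneg y).2
  linarith

private theorem sq_bd (h1 : S_Bas) {d : ℕ} {α : ℝ} (hd : 1 ≤ d) (hα : 0 < α) {f : E d → ℝ}
    (hf : AdmW d α f) : (∫ x, (f x) ^ 2) ∈ Icc (0 : ℝ) (2 * (π / α) ^ ((d : ℝ) / 2)) := by
  obtain ⟨-, -, b3, b4, -, -, -, b8, -, -⟩ := h1 d α hd hα f hf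
  refine ⟨integral_nonneg fun x => sq_nonneg _, ?_⟩
  refine le_trans ?_ b8
  have hle : ∀ x, (f x) ^ 2 ≤ |f x| := by
    intro x
    have h : |f x| ≤ 1 := (b3 x).trans b4
    rw [← sq_abs]
    nlinarith [abs_nonneg (f x)]
  refine integral_mono_of_nonneg (Eventually.of_forall fun x => sq_nonneg _) hf.int.abs
    (Eventually.of_forall hle)

private theorem lim (h1 : S_Bas) (h2 : S_Lim) {d : ℕ} {α : ℝ} (hd : 1 ≤ d) (hα : 0 < α)
    (f : ℕ → E d → ℝ) (hf : ∀ n, AdmW d α (f n)) (V : ℝ)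
    (hV : Tendsto (fun n => value (f n)) atTop (𝓝 V)) :
    ∃ F : E d → ℝ, AdmW d α F ∧ V ≤ value F ∧
      ∀ Q : ℝ, Tendsto (fun n => ∫ x, (f n x) ^ 2) atTop (𝓝 Q) → (∫ x, (F x) ^ 2) ≤ Q := by
  have hU : ((hyperfilter ℕ : Ultrafilter ℕ) : Filter ℕ) ≤ atTop := Nat.hyperfilter_le_atTop
  have hmem : Icc (0 : ℝ) (2 * (π / α) ^ ((d : ℝ) / 2)) ∈
      (hyperfilter ℕ).map (fun n => ∫ x, (f n x) ^ 2) := by
    rw [Ultrafilter.mem_map]
    exact Filter.Eventually.of_forall fun n => sq_bd h1 hd hα (hf n)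
  obtain ⟨Q, -, hQ⟩ := isCompact_Icc.ultrafilter_le_nhds' _ hmem
  have hQ' : Tendsto (fun n => ∫ x, (f n x) ^ 2) (hyperfilter ℕ : Ultrafilter ℕ) (𝓝 Q) := by
    simpa [Tendsto] using hQ
  obtain ⟨F, hF1, hF2, hF3⟩ := h2 d α hd hα (hyperfilter ℕ) f hf V Q (hV.mono_left hU) hQ'
  refine ⟨F, hF1, hF2, fun Q' hQ'' => ?_⟩
  have : Q = Q' := tendsto_nhds_unique hQ' (hQ''.mono_left hU)
  rw [← this]
  exact hF3

theorem tMax (h1 : S_Bas) (h2 : S_Lim) : S_Max := by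
  intro d α hd hα
  have hne : {v : ℝ | ∃ f : E d → ℝ, AdmW d α f ∧ value f = v}.Nonempty :=
    ⟨_, _, zero_adm d α, rfl⟩
  have hbd : BddAbove {v : ℝ | ∃ f : E d → ℝ, AdmW d α f ∧ value f = v} := by
    refine ⟨(π / α) ^ ((d : ℝ) / 2), ?_⟩
    rintro v ⟨f, hf, rfl⟩
    exact value_le h1 hd hα hf
  obtain ⟨u, -, hu2, hu3⟩ := exists_seq_tendsto_sSup hne hbd
  choose f hf hfu using hu3
  have hV : Tendsto (fun n => value (f n)) atTop
      (𝓝 (sSup {v : ℝ | ∃ f : E d → ℝ, AdmW d α f ∧ value f = v})) := by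
    simpa [hfu] using hu2
  obtain ⟨F, hF1, hF2, -⟩ := lim h1 h2 hd hα f hf _ hV
  have hopt : IsOptW d α F := by
    refine ⟨hF1, fun g hg => (le_csSup hbd ⟨g, hg, rfl⟩).trans hF2⟩
  have hne2 : {q : ℝ | ∃ g : E d → ℝ, IsOptW d α g ∧ (∫ x, (g x) ^ 2) = q}.Nonempty :=
    ⟨_, F, hopt, rfl⟩
  have hbd2 : BddBelow {q : ℝ | ∃ g : E d → ℝ, IsOptW d α g ∧ (∫ x, (g x) ^ 2) = q} := by
    refine ⟨0, ?_⟩
    rintro q ⟨g, -, rfl⟩
    exact integral_nonneg fun x => sq_nonneg _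
  obtain ⟨w, -, hw2, hw3⟩ := exists_seq_tendsto_sInf hne2 hbd2
  choose g hg hgw using hw3
  have hval : ∀ n, value (g n) = value F := fun n =>
    le_antisymm (hopt.2 _ (hg n).1) ((hg n).2 _ hopt.1)
  have hV2 : Tendsto (fun n => value (g n)) atTop (𝓝 (value F)) := by
    simp only [hval]
    exact tendsto_const_nhds
  obtain ⟨G, hG1, hG2, hG3⟩ := lim h1 h2 hd hα g (fun n => (hg n).1) _ hV2
  have hq : Tendsto (fun n => ∫ x, (g n x) ^ 2) atTop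
      (𝓝 (sInf {q : ℝ | ∃ g : E d → ℝ, IsOptW d α g ∧ (∫ x, (g x) ^ 2) = q})) := by
    simpa only [hgw] using hw2
  refine ⟨G, ⟨hG1, fun k hk => (hopt.2 k hk).trans hG2⟩, fun k hk => ?_⟩
  exact (hG3 _ hq).trans (csInf_le hbd2 ⟨k, hk, rfl⟩)

end Pool.Agent.Lib.MP_adb5ad_gt.W
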