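import Pool.Agent.Lib.MP_adb5ad_gt.W.Spec

/-!
# MP_adb5ad_gt, package W: mollifying

Proof of `S_Moll`.
-/

set_option autoImplicit false

open MeasureTheory FourierTransform Real Filter Topology Set

noncomputable section

namespace Pool.Agent.Lib.MP_adb5ad_gt.W

open Pool.Agent.Lib.MP_adb5ad_gt

private theorem mo_int (d : ℕ) {b : ℝ} (hb : 0 < b) :
    (∫ v : E d, Real.exp (-b * ‖v‖ ^ 2)) = (π / b) ^ ((d : ℝ) / 2) := by
  rw [GaussianFourier.integral_rexp_neg_mul_sq_norm hb]
  congr 2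
  simp [E]

private theorem mo_integrable (d : ℕ) {b : ℝ} (hb : 0 < b) :
    Integrable (fun v : E d => Real.exp (-b * ‖v‖ ^ 2)) := by
  apply Integrable.of_integral_ne_zero
  rw [mo_int d hb]
  positivity

private theorem mo_sq (d : ℕ) {β b : ℝ} (hβ : 0 < β) (hb : 0 < b) (x u : E d) :
    β * ‖u‖ ^ 2 + b * ‖x - u‖ ^ 2 =
      (β + b) * ‖u - (b / (β + b)) • x‖ ^ 2 + β * b / (β + b) * ‖x‖ ^ 2 := by
  rw [norm_sub_sq_real, norm_sub_sq_real, norm_smul, real_inner_smul_right, real_inner_comm x u,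
    mul_pow, Real.norm_eq_abs, sq_abs]
  have h : β + b ≠ 0 := by positivity
  field_simp
  ring

private theorem mo_conv (d : ℕ) {β b : ℝ} (hβ : 0 < β) (hb : 0 < b) (x : E d) :
    (∫ u : E d, Real.exp (-β * ‖u‖ ^ 2) * Real.exp (-b * ‖x - u‖ ^ 2)) =
      (π / (β + b)) ^ ((d : ℝ) / 2) * Real.exp (-(β * b / (β + b)) * ‖x‖ ^ 2) := by
  have h1 : ∀ u : E d, Real.exp (-β * ‖u‖ ^ 2) * Real.exp (-b * ‖x - u‖ ^ 2) =
      Real.exp (-(β + b) * ‖u - (b / (β + b)) • x‖ ^ 2) *
        Real.exp (-(β * b / (β + b)) * ‖x‖ ^ 2) := by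
    intro u
    rw [← Real.exp_add, ← Real.exp_add]
    congr 1
    linear_combination - mo_sq d hβ hb x u
  rw [integral_congr_ae (Eventually.of_forall h1), integral_mul_const,
    integral_sub_right_eq_self (fun u : E d => Real.exp (-(β + b) * ‖u‖ ^ 2)),
    mo_int d (by positivity)]

private theorem mo_convI (d : ℕ) {β b : ℝ} (hb : 0 < b) (hβ : 0 < β) (x : E d) :
    Integrable (fun u : E d => Real.exp (-β * ‖u‖ ^ 2) * Real.exp (-b * ‖x - u‖ ^ 2)) := by
  apply Integrable.of_integral_ne_zero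
  rw [mo_conv d hβ hb]
  positivity

theorem tMoll : S_Moll := by
  intro d k η C t hk hη ht hkb
  have hC : 0 ≤ C := by
    have h := hkb 0
    rw [norm_zero] at h
    simp only [ne_eq, OfNat.ofNat_ne_zero, not_false_eq_true, zero_pow, mul_zero, Real.exp_zero,
      mul_one] at h
    exact (abs_nonneg _).trans h
  set b : ℝ := π ^ 2 / t with hbd
  have hb : 0 < b := by positivity
  set A : ℝ := (b / π) ^ ((d : ℝ) / 2) with hAd
  have hA : 0 < A := by positivity
  have hA1 : A * (π / b) ^ ((d : ℝ) / 2) = 1 := by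
    rw [hAd, ← Real.mul_rpow (by positivity) (by positivity)]
    have : b / π * (π / b) = 1 := by field_simp
    rw [this, Real.one_rpow]
  set Γ : E d → ℝ := fun v => A * Real.exp (-b * ‖v‖ ^ 2) with hΓ
  have hΓ0 : ∀ v, 0 ≤ Γ v := fun v => by positivity
  have hΓA : ∀ v, Γ v ≤ A := by
    intro v
    have : Real.exp (-b * ‖v‖ ^ 2) ≤ 1 := by
      rw [Real.exp_le_one_iff]
      have : 0 ≤ b * ‖v‖ ^ 2 := by positivity
      linarith
    calc Γ v = A * Real.exp (-b * ‖v‖ ^ 2) := rfl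
      _ ≤ A * 1 := mul_le_mul_of_nonneg_left this hA.le
      _ = A := mul_one A
  have hΓc : Continuous Γ := by
    rw [hΓ]
    fun_prop
  have hΓi : Integrable Γ := (mo_integrable d hb).const_mul A
  have hΓ1 : (∫ v, Γ v) = 1 := by
    rw [hΓ, integral_const_mul, mo_int d hb, hA1]
  have hki : Integrable k := by
    refine ((mo_integrable d hη).const_mul C).mono' hk.aestronglyMeasurable
      (Eventually.of_forall fun x => ?_)
    exact hkb x
  have hkC : ∀ x, |k x| ≤ C := by
    intro x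
    refine (hkb x).trans ?_
    have : Real.exp (-η * ‖x‖ ^ 2) ≤ 1 := by
      rw [Real.exp_le_one_iff]
      have : 0 ≤ η * ‖x‖ ^ 2 := by positivity
      linarith
    calc C * Real.exp (-η * ‖x‖ ^ 2) ≤ C * 1 := mul_le_mul_of_nonneg_left this hC
      _ = C := mul_one C
  have hΓx : ∀ x : E d, Integrable (fun u => Γ (x - u)) := fun x => hΓi.comp_sub_left x
  have hint : ∀ x : E d, Integrable (fun u => k u * Γ (x - u)) := by
    intro x
    refine ((hΓx x).const_mul C).mono' ?_ (Eventually.of_forall fun u => ?_)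
    · exact (hk.mul (hΓc.comp (continuous_const.sub continuous_id))).aestronglyMeasurable
    · rw [Real.norm_eq_abs, abs_mul, abs_of_nonneg (hΓ0 (x - u))]
      exact mul_le_mul_of_nonneg_right (hkC u) (hΓ0 _)
  refine ⟨fun x => ∫ u, k u * Γ (x - u), ?_, ?_, ?_, ?_, ?_⟩
  · have h1 : BddAbove (range fun x => ‖Γ x‖) := by
      refine ⟨A, ?_⟩
      rintro _ ⟨v, rfl⟩
      simp only [Real.norm_eq_abs]
      rw [abs_of_nonneg (hΓ0 v)]
      exact hΓA v
    exact BddAbove.continuous_convolution_right_of_integrable (ContinuousLinearMap.mul ℝ ℝ)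
      h1 hki hΓc
  · refine ⟨C * A * (π / (η + b)) ^ ((d : ℝ) / 2), η * b / (η + b), by positivity, ?_⟩
    intro x
    have h1 : |∫ u, k u * Γ (x - u)| ≤ ∫ u, |k u * Γ (x - u)| := abs_integral_le_integral_abs
    have h2 : (∫ u, |k u * Γ (x - u)|) ≤ ∫ u : E d, (C * A) *
        (Real.exp (-η * ‖u‖ ^ 2) * Real.exp (-b * ‖x - u‖ ^ 2)) := by
      refine integral_mono (hint x).abs ((mo_convI d hb hη x).const_mul _) fun u => ?_
      change |k u * Γ (x - u)| ≤ _
      rw [abs_mul, abs_of_nonneg (hΓ0 (x - u))]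
      calc |k u| * Γ (x - u) ≤ (C * Real.exp (-η * ‖u‖ ^ 2)) * Γ (x - u) :=
            mul_le_mul_of_nonneg_right (hkb u) (hΓ0 _)
        _ = (C * A) * (Real.exp (-η * ‖u‖ ^ 2) * Real.exp (-b * ‖x - u‖ ^ 2)) := by
            rw [hΓ]; ring
    rw [integral_const_mul, mo_conv d hη hb] at h2
    calc |∫ u, k u * Γ (x - u)| ≤ _ := h1.trans h2
      _ = _ := by ring
  · intro y
    have h1 : (fun x => ((∫ u, k u * Γ (x - u) : ℝ) : ℂ)) =
        MeasureTheory.convolution (fun x => (k x : ℂ)) (fun x => (Γ x : ℂ))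
          (ContinuousLinearMap.mul ℂ ℂ) volume := by
      funext x
      rw [MeasureTheory.convolution_def, ← integral_complex_ofReal]
      refine integral_congr_ae (Eventually.of_forall fun u => ?_)
      simp
    have hkI : Integrable (fun x => (k x : ℂ)) := hki.ofReal
    have hΓI : Integrable (fun x => (Γ x : ℂ)) := hΓi.ofReal
    have e1 := Real.fourier_mul_convolution_eq (R := ℂ) hkI hΓI y
    unfold ft
    rw [h1]
    refine e1.trans ?_
    congr 1
    have h2 : (fun x => ((Γ x : ℝ) : ℂ)) =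
        fun x : E d => (A : ℂ) • ((Real.exp (-b * ‖x‖ ^ 2) : ℝ) : ℂ) := by
      funext x
      rw [hΓ]
      push_cast
      rw [smul_eq_mul]
    have h3 : 𝓕 (fun x : E d => (A : ℂ) • ((Real.exp (-b * ‖x‖ ^ 2) : ℝ) : ℂ)) y =
        (A : ℂ) • 𝓕 (fun x : E d => ((Real.exp (-b * ‖x‖ ^ 2) : ℝ) : ℂ)) y := by
      rw [Real.fourier_eq, Real.fourier_eq, ← integral_smul]
      refine integral_congr_ae (Eventually.of_forall fun u => ?_)
      exact smul_comm _ _ _
    rw [h2, h3, Dual.gauss_ft d hb, smul_eq_mul]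
    have h4 : π ^ 2 / b = t := by
      rw [hbd]
      field_simp
    rw [h4, Complex.ofReal_mul, ← mul_assoc, ← Complex.ofReal_mul, hA1, Complex.ofReal_one,
      one_mul]
  · intro m hm x
    have h1 : (∫ u, k u * Γ (x - u)) ≤ ∫ u, m * Γ (x - u) :=
      integral_mono (hint x) ((hΓx x).const_mul m) fun u =>
        mul_le_mul_of_nonneg_right (hm u) (hΓ0 _)
    rw [integral_const_mul, integral_sub_left_eq_self Γ volume x, hΓ1, mul_one] at h1
    exact h1
  · intro β hβ hkβ x
    have h1 : (∫ u, k u * Γ (x - u)) ≤ ∫ u : E d, A *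
        (Real.exp (-β * ‖u‖ ^ 2) * Real.exp (-b * ‖x - u‖ ^ 2)) := by
      refine integral_mono (hint x) ((mo_convI d hb hβ x).const_mul _) fun u => ?_
      calc k u * Γ (x - u) ≤ Real.exp (-β * ‖u‖ ^ 2) * Γ (x - u) :=
            mul_le_mul_of_nonneg_right (hkβ u) (hΓ0 _)
        _ = A * (Real.exp (-β * ‖u‖ ^ 2) * Real.exp (-b * ‖x - u‖ ^ 2)) := by
            rw [hΓ]; ring
    rw [integral_const_mul, mo_conv d hβ hb] at h1
    refine h1.trans ?_
    have h2 : A * (π / (β + b)) ^ ((d : ℝ) / 2) ≤ 1 := by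
      rw [hAd, ← Real.mul_rpow (by positivity) (by positivity)]
      apply Real.rpow_le_one (by positivity) _ (by positivity)
      have : b / π * (π / (β + b)) = b / (β + b) := by field_simp
      rw [this, div_le_one (by positivity)]
      linarith
    have h3 : 1 / (1 / β + t / π ^ 2) = β * b / (β + b) := by
      rw [hbd]
      field_simp
      ring
    rw [h3, ← mul_assoc]
    calc A * (π / (β + b)) ^ ((d : ℝ) / 2) * Real.exp (-(β * b / (β + b)) * ‖x‖ ^ 2) ≤
        1 * Real.exp (-(β * b / (β + b)) * ‖x‖ ^ 2) :=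
          mul_le_mul_of_nonneg_right h2 (Real.exp_pos _).le
      _ = _ := one_mul _

end Pool.Agent.Lib.MP_adb5ad_gt.W
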