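import Pool.Agent.Lib.MP_adb5ad_gt.W.Spec

set_option autoImplicit false

open MeasureTheory FourierTransform Real Filter Topology Set

namespace Pool.Agent.Lib.MP_adb5ad_gt.W

open Pool.Agent.Lib.MP_adb5ad_gt

private theorem ftRad (h3 : S_Rot) (d : ℕ) (α : ℝ) (f : E d → ℝ) (hf : AdmW d α f)
    (hr : ∀ x y : E d, ‖x‖ = ‖y‖ → f x = f y) (x y : E d) (h : ‖x‖ = ‖y‖) :
    ft f x = ft f y := by
  let A : E d ≃ₗᵢ[ℝ] E d := Submodule.reflection (Submodule.span ℝ {x - y})ᗮ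
  have hA : A x = y := Submodule.reflection_sub h
  have h1 := (h3 d α f hf A).2.1 x
  have h2 : (fun x => f (A x)) = f := by
    funext z
    exact hr _ _ (A.norm_map z)
  rw [h2, hA] at h1
  exact h1

theorem tPiC (h1 : S_Bas) (h2 : S_Lin) (h3 : S_Rot) (h4 : S_DualW) : S_PiC := by
  intro d hd f hf hr
  obtain ⟨g, hg, hg1, hg2, hg3⟩ := h4 d π hd Real.pi_pos f hf
  have hpp : π ^ 2 / π = π := by
    rw [pow_two, mul_div_assoc, div_self Real.pi_ne_zero, mul_one]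
  have hc : (π / π) ^ ((d : ℝ) / 2) = 1 := by
    rw [div_self Real.pi_ne_zero, Real.one_rpow]
  rw [hpp] at hg
  rw [hc] at hg3
  have hg1' : ∀ y, g y = Real.exp (-π * ‖y‖ ^ 2) - (ft f y).re := by
    intro y
    rw [hg1 y, hpp, hc, one_mul]
  have hg2' : ∀ y, ft g y = ((Real.exp (-π * ‖y‖ ^ 2) - f y : ℝ) : ℂ) := by
    intro y
    rw [hg2 y, hc, one_mul, hr (-y) y (norm_neg y)]
  have hv : value g = value f := by
    rw [hg3]; ring
  have hle : ∀ x : E d, x ≠ 0 → 1 / 2 * f x + 1 / 2 * g x ≤ Real.exp (-π * ‖x‖ ^ 2) := by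
    intro x hx
    have e1 := hf.1.le_gauss x hx
    have e2 := hg.1.le_gauss x hx
    linarith
  have hnn : ∀ y, 0 ≤ 1 / 2 * (ft f y).re + 1 / 2 * (ft g y).re := by
    intro y
    have e1 := (hf.1.ft_nonneg y).2
    have e2 := (hg.1.ft_nonneg y).2
    linarith
  obtain ⟨k1, k2, k3⟩ := h2 d π (1 / 2) (1 / 2) f g hf.1 hg.1.cont hg.1.int hg.1.ftint
    (fun y => (hg.1.ft_nonneg y).1) hle hnn
  have hvF : value (fun x => 1 / 2 * f x + 1 / 2 * g x) = value f := by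
    rw [k3, hv]; ring
  refine ⟨fun x => 1 / 2 * f x + 1 / 2 * g x, ⟨k1, ?_⟩, ?_, ?_⟩
  · intro k hk
    rw [hvF]
    exact hf.2 k hk
  · intro x y hxy
    have e1 : f x = f y := hr x y hxy
    have e2 : g x = g y := by
      rw [hg1' x, hg1' y, hxy, ftRad h3 d π f hf.1 hr x y hxy]
    change 1 / 2 * f x + 1 / 2 * g x = 1 / 2 * f y + 1 / 2 * g y
    rw [e1, e2]
  · intro x
    rw [k2 x]
    change 1 / 2 * f x + 1 / 2 * g x + _ = _
    rw [hg2' x, hg1' x]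
    have e3 : (((1 / 2 : ℝ) : ℂ) * ft f x + ((1 / 2 : ℝ) : ℂ) *
        ((Real.exp (-π * ‖x‖ ^ 2) - f x : ℝ) : ℂ)).re =
        1 / 2 * (ft f x).re + 1 / 2 * (Real.exp (-π * ‖x‖ ^ 2) - f x) := by
      rw [Complex.add_re, Complex.re_ofReal_mul, Complex.re_ofReal_mul, Complex.ofReal_re]
    rw [e3]
    ring

end Pool.Agent.Lib.MP_adb5ad_gt.W
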