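import Pool.Agent.Lib.MP_adb5ad_gt.W.Spec
import Pool.Agent.Lib.MP_adb5ad_gt.Bump

set_option autoImplicit false

open MeasureTheory FourierTransform Real Filter Topology Set

namespace Pool.Agent.Lib.MP_adb5ad_gt.W

open Pool.Agent.Lib.MP_adb5ad_gt

theorem tPos : S_Pos := by
  intro d α hd hα
  obtain ⟨r, hr, hvol⟩ := exists_large_ball hd
  obtain ⟨φ, hφc, hφ0, hφft, hφdec, I, hI1, hI0, hI2, hφI⟩ := bumpStmt d r hr
  obtain ⟨M, hM⟩ := (isCompact_closedBall (0 : E d) r).exists_bound_of_continuousOn
    hφc.continuousOn
  have hM0 : 0 ≤ M := (norm_nonneg _).trans (hM 0 (by simp [hr.le]))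
  set ε := Real.exp (-α * r ^ 2) / (M + 1) with hε
  have hεpos : 0 < ε := by positivity
  have hv : 0 < value φ := by
    unfold value
    rw [hI2]
    nlinarith
  obtain ⟨hadm, hval⟩ := adm_perturb (admissible_zero d α) hr hφc hφ0 hφdec hεpos
    (fun y => (hφft y).1) (fun x _ => by
      rcases le_or_gt r ‖x‖ with hx | hx
      · rw [hφ0 x hx]
        simp
        positivity
      · have h1 := hM x (by simpa using hx.le)
        have h2 : φ x ≤ M := (le_abs_self _).trans h1
        have h3 : ε * φ x ≤ Real.exp (-α * r ^ 2) := by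
          calc ε * φ x ≤ ε * (M + 1) := by
                apply mul_le_mul_of_nonneg_left _ hεpos.le
                linarith
            _ = Real.exp (-α * r ^ 2) := by
                rw [hε]
                field_simp
        have h4 : Real.exp (-α * r ^ 2) ≤ Real.exp (-α * ‖x‖ ^ 2) := by
          apply Real.exp_le_exp.2
          have : ‖x‖ ^ 2 ≤ r ^ 2 := by
            apply pow_le_pow_left₀ (norm_nonneg _) hx.le
          nlinarith
        linarith) (fun y => by
      have h0 : ft (fun _ : E d => (0 : ℝ)) y = 0 := by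
        unfold ft
        rw [Real.fourier_eq]
        simp
      rw [h0]
      have := (hφft y).2
      simp
      positivity)
  refine ⟨_, hadm, ?_⟩
  rw [hval]
  have h0 : value (fun _ : E d => (0 : ℝ)) = 0 := by
    unfold value ft
    rw [Real.fourier_eq]
    simp
  rw [h0, zero_add]
  positivity

end Pool.Agent.Lib.MP_adb5ad_gt.W
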