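import Pool.Agent.Lib.MP_adb5ad_gt.W.Spec

/-!
# MP_adb5ad_gt, package W: a radial optimal function
-/

set_option autoImplicit false

open MeasureTheory FourierTransform Real Filter Topology Set

noncomputable section

namespace Pool.Agent.Lib.MP_adb5ad_gt.W

open Pool.Agent.Lib.MP_adb5ad_gt

/-- The square of a bounded continuous integrable function is integrable. -/
private theorem sqInt {d : ℕ} {f : E d → ℝ} (hc : Continuous f) (hi : Integrable f)
    (hb : ∀ x, |f x| ≤ 1) : Integrable (fun x => (f x) ^ 2) := by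
  refine hi.mono (hc.pow 2).aestronglyMeasurable (Filter.Eventually.of_forall fun x => ?_)
  rw [Real.norm_eq_abs, Real.norm_eq_abs, abs_pow, pow_two]
  calc |f x| * |f x| ≤ 1 * |f x| := mul_le_mul_of_nonneg_right (hb x) (abs_nonneg _)
    _ = |f x| := one_mul _

/-- The optimal function of least norm is invariant under linear isometries. -/
private theorem inv (h1 : S_Bas) (h2 : S_Lin) (h3 : S_Rot) {d : ℕ} {α : ℝ} (hd : 1 ≤ d)
    (hα : 0 < α) {f : E d → ℝ} (hf : IsOptW d α f)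
    (hmin : ∀ g : E d → ℝ, IsOptW d α g → (∫ x, (f x) ^ 2) ≤ ∫ x, (g x) ^ 2)
    (A : E d ≃ₗᵢ[ℝ] E d) : ∀ x, f (A x) = f x := by
  obtain ⟨hg, -, hgv, hgn⟩ := h3 d α f hf.1 A
  have hle : ∀ k : E d → ℝ, AdmW d α k → ∀ x, k x ≤ Real.exp (-α * ‖x‖ ^ 2) :=
    fun k hk => (h1 d α hd hα k hk).1
  have hb : ∀ k : E d → ℝ, AdmW d α k → ∀ x, |k x| ≤ 1 := fun k hk x =>
    ((h1 d α hd hα k hk).2.2.1 x).trans (h1 d α hd hα k hk).2.2.2.1
  obtain ⟨hh, -, hhv⟩ := h2 d α (1 / 2) (1 / 2) f (fun x => f (A x)) hf.1 hg.cont hg.int hg.ftint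
    (fun y => (hg.ft_nonneg y).1)
    (fun x _ => by
      have e1 := hle f hf.1 x
      have e2 := hle _ hg x
      linarith)
    (fun y => by
      have e1 := (hf.1.ft_nonneg y).2
      have e2 := (hg.ft_nonneg y).2
      linarith)
  have hopt : IsOptW d α (fun x => 1 / 2 * f x + 1 / 2 * f (A x)) := by
    refine ⟨hh, fun k hk => ?_⟩
    rw [hhv, hgv]
    have := hf.2 k hk
    linarith
  have hm := hmin _ hopt
  have i1 : Integrable (fun x => (f x) ^ 2) := sqInt hf.1.cont hf.1.int (hb f hf.1)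
  have i2 : Integrable (fun x => (f (A x)) ^ 2) := sqInt hg.cont hg.int (hb _ hg)
  have i3 : Integrable (fun x => (1 / 2 * f x + 1 / 2 * f (A x)) ^ 2) :=
    sqInt hh.cont hh.int (hb _ hh)
  have e1 : (∫ x, (1 / 2 * (f x - f (A x))) ^ 2) = 1 / 2 * (∫ x, (f x) ^ 2) +
      1 / 2 * (∫ x, (f (A x)) ^ 2) - ∫ x, (1 / 2 * f x + 1 / 2 * f (A x)) ^ 2 := by
    have i12 : Integrable (fun x => 1 / 2 * (f x) ^ 2 + 1 / 2 * (f (A x)) ^ 2) :=
      (i1.const_mul _).add (i2.const_mul _)
    rw [← integral_const_mul, ← integral_const_mul, ← integral_add (i1.const_mul _)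
      (i2.const_mul _), ← integral_sub i12 i3]
    refine integral_congr_ae (Filter.Eventually.of_forall fun x => ?_)
    ring
  have i4 : Integrable (fun x => (1 / 2 * (f x - f (A x))) ^ 2) := by
    have h := ((i1.const_mul (1 / 2)).add (i2.const_mul (1 / 2))).sub i3
    refine h.congr (Filter.Eventually.of_forall fun x => ?_)
    simp only [Pi.add_apply, Pi.sub_apply]
    ring
  have e2 : (∫ x, (1 / 2 * (f x - f (A x))) ^ 2) = 0 := by
    refine le_antisymm ?_ (integral_nonneg fun x => sq_nonneg _)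
    rw [e1, hgn]
    linarith
  have e3 : (fun x => (1 / 2 * (f x - f (A x))) ^ 2) =ᵐ[volume] 0 :=
    (integral_eq_zero_iff_of_nonneg (fun x => sq_nonneg _) i4).1 e2
  have e4 : (fun x => f (A x)) =ᵐ[volume] f := by
    filter_upwards [e3] with x hx
    simp only [Pi.zero_apply] at hx
    have := pow_eq_zero_iff (two_ne_zero) |>.1 hx
    linarith
  have e5 : (fun x => f (A x)) = f := (Continuous.ae_eq_iff_eq volume hg.cont hf.1.cont).1 e4
  exact fun x => congrFun e5 x

theorem tRad (h1 : S_Bas) (h2 : S_Lin) (h3 : S_Rot) (h4 : S_Max) : S_Rad := by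
  intro d α hd hα
  obtain ⟨f, hf, hmin⟩ := h4 d α hd hα
  refine ⟨f, hf, fun x y hxy => ?_⟩
  have h := inv h1 h2 h3 hd hα hf hmin ((Submodule.span ℝ {x - y})ᗮ.reflection) x
  rw [Submodule.reflection_sub hxy] at h
  exact h.symm

end Pool.Agent.Lib.MP_adb5ad_gt.W
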