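import Pool.Agent.Lib.MP_adb5ad_gt.W.Spec

set_option autoImplicit false

open MeasureTheory FourierTransform Real Filter Topology Set

namespace Pool.Agent.Lib.MP_adb5ad_gt.W

open Pool.Agent.Lib.MP_adb5ad_gt

theorem tRot : S_Rot := by
  intro d α f hf A
  have hft : ∀ y, ft (fun x => f (A x)) y = ft f (A y) := by
    intro y
    exact Real.fourier_comp_linearIsometry A (fun x => (f x : ℂ)) y
  refine ⟨⟨?_, ?_, ?_, ?_, fun y => ?_⟩, hft, ?_, ?_⟩
  · exact hf.cont.comp A.continuous
  · exact (A.measurePreserving.integrable_comp_emb A.toMeasurableEquiv.measurableEmbedding).2 hf.int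
  · have : (ft fun x => f (A x)) = fun y => ft f (A y) := funext hft
    rw [this]
    exact (A.measurePreserving.integrable_comp_emb
      A.toMeasurableEquiv.measurableEmbedding).2 hf.ftint
  · intro x hx
    have h1 : A x ≠ 0 := by
      intro h
      exact hx (by simpa using h)
    have := hf.le_gauss (A x) h1
    rwa [A.norm_map] at this
  · rw [hft y]
    exact hf.ft_nonneg (A y)
  · show (ft (fun x => f (A x)) 0).re - f (A 0) = (ft f 0).re - f 0
    rw [hft 0, map_zero]
  · exact A.measurePreserving.integral_comp A.toMeasurableEquiv.measurableEmbedding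
      (fun x => (f x) ^ 2)

end Pool.Agent.Lib.MP_adb5ad_gt.W
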