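import Pool.Agent.Lib.MP_adb5ad_gt.W.Spec

set_option autoImplicit false

open MeasureTheory FourierTransform Real Filter Topology Set

namespace Pool.Agent.Lib.MP_adb5ad_gt.W

open Pool.Agent.Lib.MP_adb5ad_gt

theorem tSub : S_Sub := by
  intro d α f hf
  exact ⟨hf.cont, hf.integrable, hf.integrable_ft, hf.le_gauss, hf.ft_nonneg⟩

theorem tVal (h1 : S_Dens) (h2 : S_Sub) : S_Val := by
  intro d α hd hα f hf
  constructor
  · intro hopt
    constructor
    · rintro v ⟨g, hg, rfl⟩
      exact hopt.2 g (h2 d α g hg)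
    · intro b hb
      by_contra hcon
      obtain ⟨g, hg, hg2⟩ := h1 d α hd hα f hf (value f - b) (sub_pos.2 (not_le.1 hcon))
      have h3 : value g ≤ b := hb ⟨g, hg, rfl⟩
      linarith
  · intro hlub
    refine ⟨hf, fun g hg => ?_⟩
    by_contra hcon
    obtain ⟨k, hk, hk2⟩ := h1 d α hd hα g hg (value g - value f) (sub_pos.2 (not_le.1 hcon))
    have h3 : value k ≤ value f := hlub.1 ⟨k, hk, rfl⟩
    linarith

end Pool.Agent.Lib.MP_adb5ad_gt.W
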