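import Pool.Agent.Lib.MP_adb5ad_gt.W.Spec

/-!
# MP_adb5ad_gt, package W: weak limits of nonnegative functions
-/

set_option autoImplicit false

open MeasureTheory FourierTransform Real Filter Topology Set

namespace Pool.Agent.Lib.MP_adb5ad_gt.W

open Pool.Agent.Lib.MP_adb5ad_gt

private theorem memLp_two {d : ℕ} {h : E d → ℝ} (hi : Integrable h) {C : ℝ}
    (hC : ∀ x, |h x| ≤ C) : MemLp h 2 volume := by
  rw [memLp_two_iff_integrable_sq hi.aestronglyMeasurable]
  refine Integrable.mono' (hi.norm.const_mul C) (hi.aestronglyMeasurable.pow 2) ?_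
  refine Eventually.of_forall fun x => ?_
  rw [Real.norm_eq_abs, Real.norm_eq_abs, abs_pow, sq]
  exact mul_le_mul_of_nonneg_right (hC x) (abs_nonneg _)

theorem tWk (h1 : S_WkA) : S_Wk := by
  intro d U u M hm h0 hM hi hI
  obtain ⟨w, hw2, hw⟩ := h1 d U u M hm (fun n x => by rw [abs_of_nonneg (h0 n x)]; exact hM n x)
    hi (fun n => by
      have e : (∫ x, |u n x|) = ∫ x, u n x :=
        integral_congr_ae (Eventually.of_forall fun x => abs_of_nonneg (h0 n x))
      rw [e]
      exact hI n)
  have hM0 : 0 ≤ M := (h0 0 0).trans (hM 0 0)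
  -- convergence on sets of finite measure
  have hA : ∀ A : Set (E d), MeasurableSet A → volume A < ⊤ →
      Tendsto (fun n => ∫ x in A, u n x) U (𝓝 (∫ x in A, w x)) := by
    intro A hA hf
    have h2 := hw (A.indicator fun _ => (1 : ℝ)) (memLp_indicator_const 2 hA 1 (Or.inr hf.ne))
    have e : ∀ g : E d → ℝ, (∫ x, g x * (A.indicator (fun _ => (1 : ℝ)) x)) =
        ∫ x in A, g x := by
      intro g
      rw [← integral_indicator hA]
      refine integral_congr_ae (Eventually.of_forall fun x => ?_)
      by_cases hx : x ∈ A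
      · simp [hx]
      · simp [hx]
    simp only [e] at h2
    exact h2
  have hwA : ∀ A : Set (E d), MeasurableSet A → volume A < ⊤ → IntegrableOn w A := by
    intro A hA hf
    have : IsFiniteMeasure (volume.restrict A) := ⟨by rwa [Measure.restrict_apply_univ]⟩
    exact (hw2.restrict A).integrable one_le_two
  have hw0 : 0 ≤ᵐ[volume] w := by
    refine ae_nonneg_of_forall_setIntegral_nonneg_of_sigmaFinite hwA fun A hAm hf => ?_
    exact ge_of_tendsto' (hA A hAm hf) fun n => integral_nonneg fun x => h0 n x
  have hwM : 0 ≤ᵐ[volume] fun x => M - w x := by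
    have hc : ∀ A : Set (E d), volume A < ⊤ → IntegrableOn (fun _ : E d => M) A :=
      fun A hf => integrableOn_const hf.ne
    refine ae_nonneg_of_forall_setIntegral_nonneg_of_sigmaFinite
      (fun A hAm hf => (hc A hf).sub (hwA A hAm hf)) fun A hAm hf => ?_
    rw [integral_sub (hc A hf) (hwA A hAm hf), sub_nonneg]
    refine le_of_tendsto' (hA A hAm hf) fun n => ?_
    exact setIntegral_mono (hi n).integrableOn (hc A hf) fun x => hM n x
  -- the representative
  set w₁ := hw2.aestronglyMeasurable.mk w with hw1
  have hw1m : Measurable w₁ := hw2.aestronglyMeasurable.stronglyMeasurable_mk.measurable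
  have hww : w =ᵐ[volume] w₁ := hw2.aestronglyMeasurable.ae_eq_mk
  set v : E d → ℝ := fun x => max 0 (min M (w₁ x)) with hv
  have hvw : v =ᵐ[volume] w := by
    filter_upwards [hw0, hwM, hww] with x a b c
    have a' : 0 ≤ w x := a
    have b' : 0 ≤ M - w x := b
    rw [hv]
    simp only
    rw [← c, min_eq_right (by linarith), max_eq_right a']
  have hvm : Measurable v := measurable_const.max (measurable_const.min hw1m)
  have hv0 : ∀ x, 0 ≤ v x := fun x => le_max_left _ _
  have hvM : ∀ x, v x ≤ M := fun x => max_le hM0 (min_le_left _ _)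
  -- closed balls
  have hcov : AECover (volume : Measure (E d)) atTop
      (fun k : ℕ => Metric.closedBall (0 : E d) (k : ℝ)) :=
    aecover_closedBall tendsto_natCast_atTop_atTop
  have hball : ∀ k : ℕ, volume (Metric.closedBall (0 : E d) (k : ℝ)) < ⊤ :=
    fun k => measure_closedBall_lt_top
  have hvB : ∀ k : ℕ, (∫ x in Metric.closedBall (0 : E d) (k : ℝ), v x) =
      ∫ x in Metric.closedBall (0 : E d) (k : ℝ), w x := fun k =>
    integral_congr_ae (ae_restrict_of_ae hvw)
  have hvint : Integrable v := by
    refine hcov.integrable_of_integral_bounded_of_nonneg_ae M (fun k => ?_)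
      (Eventually.of_forall hv0) (Eventually.of_forall fun k => ?_)
    · exact (hwA _ Metric.isClosed_closedBall.measurableSet (hball k)).congr
        (ae_restrict_of_ae hvw.symm)
    · rw [hvB k]
      refine le_of_tendsto' (hA _ Metric.isClosed_closedBall.measurableSet (hball k))
        fun n => ?_
      exact (setIntegral_le_integral (hi n) (Eventually.of_forall (h0 n))).trans (hI n)
  refine ⟨v, hvm, hv0, hvM, hvint, ?_, ?_⟩
  · rintro h hint ⟨C, hC⟩
    have e : (∫ x, v x * h x) = ∫ x, w x * h x := by
      refine integral_congr_ae ?_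
      filter_upwards [hvw] with x hx
      rw [hx]
    rw [e]
    exact hw h (memLp_two hint hC)
  · intro l hl
    have hlim := hcov.integral_tendsto_of_countably_generated hvint
    refine le_of_tendsto' hlim fun k => ?_
    rw [hvB k]
    refine le_of_tendsto_of_tendsto' (hA _ Metric.isClosed_closedBall.measurableSet (hball k)) hl
      fun n => ?_
    exact setIntegral_le_integral (hi n) (Eventually.of_forall (h0 n))

end Pool.Agent.Lib.MP_adb5ad_gt.W
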