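import Pool.Agent.Lib.MP_adb5ad_gt.W.Spec

set_option autoImplicit false

open MeasureTheory FourierTransform Real Filter Topology Set

namespace Pool.Agent.Lib.MP_adb5ad_gt.W

open Pool.Agent.Lib.MP_adb5ad_gt

theorem tWkA : S_WkA := by
  intro d U u M hm hb hi hM
  have hM0 : 0 ≤ M := (abs_nonneg _).trans (hb 0 0)
  have hsq : ∀ n x, (u n x) ^ 2 ≤ M * |u n x| := by
    intro n x
    rw [← sq_abs, sq]
    exact mul_le_mul_of_nonneg_right (hb n x) (abs_nonneg _)
  have hmem : ∀ n, MemLp (u n) 2 volume := by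
    intro n
    rw [memLp_two_iff_integrable_sq (hm n).aestronglyMeasurable]
    refine ((hi n).abs.const_mul M).mono' ((hm n).pow_const 2).aestronglyMeasurable ?_
    refine Filter.Eventually.of_forall fun x => ?_
    rw [Real.norm_eq_abs, abs_of_nonneg (sq_nonneg _)]
    exact hsq n x
  have hin : ∀ (a b : E d → ℝ) (ha : MemLp a 2 volume) (hb' : MemLp b 2 volume),
      inner ℝ (ha.toLp a) (hb'.toLp b) = ∫ x, a x * b x := by
    intro a b ha hb'
    rw [L2.inner_def]
    refine integral_congr_ae ?_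
    filter_upwards [ha.coeFn_toLp, hb'.coeFn_toLp] with x h1 h2
    rw [h1, h2]
    simp [mul_comm]
  have hnorm : ∀ n, ‖(hmem n).toLp (u n)‖ ≤ M := by
    intro n
    have h1 : ‖(hmem n).toLp (u n)‖ ^ 2 = ∫ x, u n x * u n x := by
      rw [← real_inner_self_eq_norm_sq, hin]
    have h2 : (∫ x, u n x * u n x) ≤ ∫ x, M * |u n x| := by
      refine integral_mono ?_ ((hi n).abs.const_mul M) ?_
      · have := (memLp_two_iff_integrable_sq (hm n).aestronglyMeasurable).1 (hmem n)
        simpa only [sq] using this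
      · intro x
        have := hsq n x
        simpa only [sq] using this
    rw [integral_const_mul] at h2
    have h3 : ‖(hmem n).toLp (u n)‖ ^ 2 ≤ M ^ 2 := by
      rw [h1, sq]
      exact h2.trans (mul_le_mul_of_nonneg_left (hM n) hM0)
    exact abs_le_of_sq_le_sq' h3 hM0 |>.2
  have hlim : ∀ g : Lp ℝ 2 (volume : Measure (E d)), ∃ l : ℝ, |l| ≤ M * ‖g‖ ∧
      Tendsto (fun n => (inner ℝ ((hmem n).toLp (u n)) g : ℝ)) U (𝓝 l) := by
    intro g
    have hbd : ∀ n, (inner ℝ ((hmem n).toLp (u n)) g : ℝ) ∈ Icc (-(M * ‖g‖)) (M * ‖g‖) := by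
      intro n
      have h1 := abs_real_inner_le_norm ((hmem n).toLp (u n)) g
      have h2 : ‖(hmem n).toLp (u n)‖ * ‖g‖ ≤ M * ‖g‖ :=
        mul_le_mul_of_nonneg_right (hnorm n) (norm_nonneg _)
      exact abs_le.1 (h1.trans h2)
    have hc : IsCompact (Icc (-(M * ‖g‖)) (M * ‖g‖)) := isCompact_Icc
    obtain ⟨l, hl, hl'⟩ := hc.ultrafilter_le_nhds
      (U.map fun n => (inner ℝ ((hmem n).toLp (u n)) g : ℝ)) (by
        rw [Ultrafilter.coe_map, le_principal_iff, mem_map]
        exact Filter.univ_mem' hbd)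
    exact ⟨l, abs_le.2 hl, hl'⟩
  choose L hL1 hL2 using hlim
  let Λ : Lp ℝ 2 (volume : Measure (E d)) →ₗ[ℝ] ℝ :=
    { toFun := L
      map_add' := by
        intro g h
        refine tendsto_nhds_unique (hL2 (g + h)) ?_
        have := (hL2 g).add (hL2 h)
        refine this.congr fun n => ?_
        rw [inner_add_right]
      map_smul' := by
        intro c g
        refine tendsto_nhds_unique (hL2 (c • g)) ?_
        have := (hL2 g).const_mul c
        refine this.congr fun n => ?_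
        rw [inner_smul_right] }
  let Λc : StrongDual ℝ (Lp ℝ 2 (volume : Measure (E d))) :=
    Λ.mkContinuous M (fun g => by rw [Real.norm_eq_abs]; exact hL1 g)
  let v := (InnerProductSpace.toDual ℝ (Lp ℝ 2 (volume : Measure (E d)))).symm Λc
  have hv : ∀ g, (inner ℝ v g : ℝ) = L g := by
    intro g
    rw [InnerProductSpace.toDual_symm_apply]
    rfl
  refine ⟨v, Lp.memLp v, fun h hh => ?_⟩
  have h1 := hL2 (hh.toLp h)
  rw [← hv] at h1
  have h2 : (inner ℝ v (hh.toLp h) : ℝ) = ∫ x, v x * h x := by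
    rw [← hin v h (Lp.memLp v) hh, Lp.toLp_coeFn]
  rw [h2] at h1
  refine h1.congr fun n => ?_
  rw [hin]

end Pool.Agent.Lib.MP_adb5ad_gt.W
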