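import Pool.Agent.Lib.MP_adb5ad_gt.W.Final
import Pool.Agent.Lib.MP_adb5ad_gt.W.Bas
import Pool.Agent.Lib.MP_adb5ad_gt.W.WkA
import Pool.Agent.Lib.MP_adb5ad_gt.W.Wk
import Pool.Agent.Lib.MP_adb5ad_gt.W.InvX
import Pool.Agent.Lib.MP_adb5ad_gt.W.Lim
import Pool.Agent.Lib.MP_adb5ad_gt.W.Lin
import Pool.Agent.Lib.MP_adb5ad_gt.W.Rot
import Pool.Agent.Lib.MP_adb5ad_gt.W.Max
import Pool.Agent.Lib.MP_adb5ad_gt.W.Rad
import Pool.Agent.Lib.MP_adb5ad_gt.W.Damp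
import Pool.Agent.Lib.MP_adb5ad_gt.W.Moll
import Pool.Agent.Lib.MP_adb5ad_gt.W.Dens
import Pool.Agent.Lib.MP_adb5ad_gt.W.Sub
import Pool.Agent.Lib.MP_adb5ad_gt.W.Pos
import Pool.Agent.Lib.MP_adb5ad_gt.W.DualW
import Pool.Agent.Lib.MP_adb5ad_gt.W.Lt1
import Pool.Agent.Lib.MP_adb5ad_gt.W.GapW
import Pool.Agent.Lib.MP_adb5ad_gt.W.PiC
import Pool.Agent.Lib.MP_adb5ad_gt.W.Avg
import Pool.Agent.Lib.MP_adb5ad_gt.W.Gen
import Pool.Agent.Lib.MP_adb5ad_gt.W.Relax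
import Pool.Agent.Lib.MP_adb5ad_gt.W.Fun
import Pool.Agent.Lib.MP_adb5ad_gt.W.MB
import Pool.Agent.Lib.MP_adb5ad_gt.W.DM
import Pool.Agent.Lib.MP_adb5ad_gt.W.CC

/-!
# Package W: everything together
-/

set_option autoImplicit false

namespace Pool.Agent.Lib.MP_adb5ad_gt.W

theorem aVal : S_Val := tVal (tDens tBas tDamp tMoll) tSub

theorem aRad : S_Rad := tRad tBas tLin tRot (tMax tBas (tLim tBas (tWk tWkA) tInvX))

theorem aDual : S_DualW := tDualW tBas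

theorem aLt1 : S_Lt1 := tLt1 tBas tSub tPos aDual

theorem aPiC : S_PiC := tPiC tBas tLin tRot aDual

theorem aGap : S_GapW := tGapW tLin aLt1 aDual

theorem aGen : S_Gen := tGen tBas (tAvg tBas)

theorem aDM : S_DM := tDM tBas aLt1 (tFun tBas (tRelax tBas tLin)) tMB

theorem aCC : S_CC := tCC aDM

end Pool.Agent.Lib.MP_adb5ad_gt.W
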