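import Pool.Agent.Lib.MP_adb5ad_gt.W.Spec

/-!
# MP_adb5ad_gt, package W: damping (`tDamp`)
-/

set_option autoImplicit false

open MeasureTheory FourierTransform Real Filter Topology Set

noncomputable section

namespace Pool.Agent.Lib.MP_adb5ad_gt.W

open Pool.Agent.Lib.MP_adb5ad_gt

theorem tDamp : S_Damp := by
  intro d f hfc hfi hft η hη z
  obtain ⟨β, hβdef⟩ : ∃ β : ℝ, β = π ^ 2 / η := ⟨_, rfl⟩
  have hβ : 0 < β := by rw [hβdef]; positivity
  obtain ⟨G, hG⟩ : ∃ G : E d → ℂ, G = fun v => ((Real.exp (-β * ‖v‖ ^ 2) : ℝ) : ℂ) := ⟨_, rfl⟩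
  have hGc : Continuous G := by
    rw [hG]
    apply Complex.continuous_ofReal.comp
    fun_prop
  have hGi : Integrable G := by
    obtain ⟨C1, -, hC1'⟩ := Dual.gauss_decay hβ ((d : ℝ) + 1)
    rw [neg_add'] at hC1'
    apply Dual.integrable_of_decay hGc one_pos (C := C1)
    intro x
    rw [hG]
    simp only [Complex.norm_real, Real.norm_eq_abs, abs_of_pos (Real.exp_pos _)]
    exact hC1' ‖x‖ (norm_nonneg _)
  have hgauss : ∀ y, 𝓕 G y = (((η / π) ^ ((d : ℝ) / 2) * Real.exp (-η * ‖y‖ ^ 2) : ℝ) : ℂ) := by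
    intro y
    rw [hG, Dual.gauss_ft d hβ y]
    have e1 : π / β = η / π := by
      rw [hβdef]
      field_simp
    have e2 : π ^ 2 / β = η := by
      rw [hβdef]
      field_simp
    rw [e1, e2]
  obtain ⟨F, hF⟩ : ∃ F : E d → ℂ, F = fun x => (f x : ℂ) := ⟨_, rfl⟩
  have hFi : Integrable F := by rw [hF]; exact hfi.ofReal
  have hhi : Integrable (G ∘ fun v => v + -z) := hGi.comp_add_right (-z)
  have key := VectorFourier.integral_fourierIntegral_smul_eq_flip (L := innerₗ (E d))
      Real.continuous_fourierChar continuous_inner hFi hhi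
  have htr : ∀ x : E d, VectorFourier.fourierIntegral Real.fourierChar volume (innerₗ (E d)).flip
      (G ∘ fun v => v + -z) x = Real.fourierChar (-inner ℝ x z) • 𝓕 G x := by
    intro x
    rw [VectorFourier.fourierIntegral_comp_add_right]
    have h1 : (innerₗ (E d)).flip (-z) x = -inner ℝ x z := by
      rw [LinearMap.flip_apply, innerₗ_apply_apply, inner_neg_right]
    have h2 : (innerₗ (E d)).flip = innerₗ (E d) := by
      ext a b
      rw [LinearMap.flip_apply, innerₗ_apply_apply, innerₗ_apply_apply, real_inner_comm]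
    simp only [h1]
    rw [h2]
    rfl
  have hc0 : (0 : ℝ) < (η / π) ^ ((d : ℝ) / 2) := by positivity
  have hreal : ∀ y, VectorFourier.fourierIntegral Real.fourierChar volume (innerₗ (E d)) F y =
      (((ft f y).re : ℝ) : ℂ) := by
    intro y
    have h1 : VectorFourier.fourierIntegral Real.fourierChar volume (innerₗ (E d)) F y =
      ft f y := by
      rw [hF]
      rfl
    rw [h1]
    apply Complex.ext
    · rw [Complex.ofReal_re]
    · rw [Complex.ofReal_im]
      exact (hft y).1
  have hmain : ft (fun x => f x * Real.exp (-η * ‖x‖ ^ 2)) z =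
      (((((η / π) ^ ((d : ℝ) / 2))⁻¹ * ∫ y : E d, (ft f y).re *
        Real.exp (-β * ‖y + -z‖ ^ 2)) : ℝ) : ℂ) := by
    have h1 : (∫ ξ : E d, VectorFourier.fourierIntegral Real.fourierChar volume (innerₗ (E d)) F ξ •
        (G ∘ fun v => v + -z) ξ) = ((∫ y : E d, (ft f y).re *
        Real.exp (-β * ‖y + -z‖ ^ 2) : ℝ) : ℂ) := by
      rw [← integral_complex_ofReal]
      congr 1
      funext y
      rw [hreal y, hG]
      simp only [Function.comp, smul_eq_mul]
      push_cast
      ring
    have h2 : (∫ x : E d, F x • VectorFourier.fourierIntegral Real.fourierChar volume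
        (innerₗ (E d)).flip (G ∘ fun v => v + -z) x) =
        (((η / π) ^ ((d : ℝ) / 2) : ℝ) : ℂ) * ft (fun x => f x * Real.exp (-η * ‖x‖ ^ 2)) z := by
      unfold ft
      rw [Real.fourier_eq, ← integral_const_mul]
      congr 1
      funext x
      rw [htr x, hgauss x, hF]
      simp only [Circle.smul_def, smul_eq_mul]
      push_cast
      ring
    rw [h1, h2] at key
    rw [Complex.ofReal_mul, key, ← mul_assoc, ← Complex.ofReal_mul, inv_mul_cancel₀ hc0.ne',
      Complex.ofReal_one, one_mul]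
  rw [hmain, Complex.ofReal_im, Complex.ofReal_re]
  refine ⟨rfl, ?_⟩
  apply mul_nonneg (inv_nonneg.mpr hc0.le)
  apply integral_nonneg
  intro y
  exact mul_nonneg (hft y).2 (Real.exp_pos _).le

end Pool.Agent.Lib.MP_adb5ad_gt.W
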