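import Pool.Agent.Lib.MP_adb5ad_gt.W.Spec

/-!
# MP_adb5ad_gt, package W: from a weak Fourier pair to a continuous function
-/

set_option autoImplicit false

open MeasureTheory FourierTransform Real Filter Topology Set

noncomputable section

namespace Pool.Agent.Lib.MP_adb5ad_gt.W

open Pool.Agent.Lib.MP_adb5ad_gt

private lemma invCont {d : ℕ} {F : E d → ℂ} (hF : Integrable F) : Continuous (𝓕 F) := by
  have := VectorFourier.fourierIntegral_continuous (μ := (volume : Measure (E d)))
    (f := F) Real.continuous_fourierChar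
    (L := innerₗ (E d)) (by exact continuous_inner) hF
  exact this

/-- Fubini for the Fourier transform. -/
private lemma invFub {d : ℕ} (f g : E d → ℂ) (hf : Integrable f) (hg : Integrable g) :
    ∫ y, 𝓕 f y * g y = ∫ x, f x * 𝓕 g x := by
  have h := VectorFourier.integral_fourierIntegral_smul_eq_flip (μ := (volume : Measure (E d)))
    (ν := (volume : Measure (E d))) (L := innerₗ (E d))
    Real.continuous_fourierChar (by exact continuous_inner) hf hg
  rw [flip_innerₗ] at h
  exact h

/-- Functions with the same integrals against smooth compactly supported functions. -/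
private lemma invZero {d : ℕ} (f g : E d → ℂ) (hf : LocallyIntegrable f)
    (hg : LocallyIntegrable g)
    (h : ∀ u : E d → ℝ, ContDiff ℝ ((⊤ : ℕ∞) : WithTop ℕ∞) u → HasCompactSupport u →
      ∫ x, f x * (u x : ℂ) = ∫ x, g x * (u x : ℂ)) : f =ᵐ[volume] g := by
  refine ae_eq_of_integral_contDiff_smul_eq hf hg fun u hu hs => ?_
  have h1 : ∀ w : E d → ℂ, (∫ x, u x • w x) = ∫ x, w x * (u x : ℂ) := by
    intro w
    refine integral_congr_ae (Filter.Eventually.of_forall fun x => ?_)
    show u x • w x = w x * (u x : ℂ)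
    rw [Complex.real_smul, mul_comm]
  rw [h1, h1]
  exact h u hu hs

theorem tInv : S_Inv := by
  intro d f G hf hG hG0 hfG
  set fC : E d → ℂ := fun x => (f x : ℂ) with hfC
  have hfCi : Integrable fC := hf.ofReal
  have hGCi : Integrable (fun y => (G y : ℂ)) := hG.ofReal
  have hcont : Continuous (𝓕 fC) := invCont hfCi
  -- Schwartz functions from smooth compactly supported functions
  have hSch : ∀ u : E d → ℝ, ContDiff ℝ ((⊤ : ℕ∞) : WithTop ℕ∞) u → HasCompactSupport u →
      ∃ h : SchwartzMap (E d) ℂ, ∀ y, h y = (u y : ℂ) := by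
    intro u hu hs
    have h1 : HasCompactSupport (fun y => (u y : ℂ)) := hs.comp_left (g := fun t : ℝ => (t : ℂ)) rfl
    have h2 : ContDiff ℝ ((⊤ : ℕ∞) : WithTop ℕ∞) (fun y => (u y : ℂ)) :=
      Complex.ofRealCLM.contDiff.comp hu
    exact ⟨h1.toSchwartzMap h2, fun y => rfl⟩
  -- the Fourier transform of f is G
  have hA : 𝓕 fC =ᵐ[volume] fun y => (G y : ℂ) := by
    refine invZero _ _ hcont.locallyIntegrable hGCi.locallyIntegrable fun u hu hs => ?_
    obtain ⟨h, hh⟩ := hSch u hu hs
    have hhe : (fun y : E d => h y) = fun y => (u y : ℂ) := funext hh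
    have h1 := hfG h
    rw [hhe] at h1
    have h2 : Integrable (fun y : E d => (u y : ℂ)) := by
      rw [← hhe]
      exact h.integrable
    rw [invFub fC (fun y => (u y : ℂ)) hfCi h2, h1]
    refine integral_congr_ae (Filter.Eventually.of_forall fun y => ?_)
    show (G y : ℂ) * h y = (G y : ℂ) * (u y : ℂ)
    rw [hh]
  have him : ∀ y, (𝓕 fC y).im = 0 := by
    have h1 : (fun y => (𝓕 fC y).im) =ᵐ[volume] fun _ => (0 : ℝ) := by
      filter_upwards [hA] with y hy
      rw [hy, Complex.ofReal_im]
    have h2 := ((Complex.continuous_im.comp hcont).ae_eq_iff_eq volume continuous_const).1 h1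
    exact fun y => congrFun h2 y
  have hre : ∀ y, 0 ≤ (𝓕 fC y).re := by
    have h1 : (fun y => (𝓕 fC y).re) =ᵐ[volume] fun y => max (𝓕 fC y).re 0 := by
      filter_upwards [hA] with y hy
      rw [hy, Complex.ofReal_re, max_eq_left (hG0 y)]
    have hc := Complex.continuous_re.comp hcont
    have h2 := (hc.ae_eq_iff_eq volume (hc.max continuous_const)).1 h1
    intro y
    have h3 := congrFun h2 y
    simp only [Function.comp_apply] at h3
    rw [h3]
    exact le_max_right _ _
  have hFi : Integrable (𝓕 fC) := hGCi.congr hA.symm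
  set F0 : E d → ℂ := 𝓕⁻ (𝓕 fC) with hF0
  have hF0e : ∀ x, F0 x = 𝓕 (𝓕 fC) (-x) := fun x => Real.fourierInv_eq_fourier_neg _ _
  have hF0c : Continuous F0 := by
    have : F0 = fun x => 𝓕 (𝓕 fC) (-x) := funext hF0e
    rw [this]
    exact (invCont hFi).comp continuous_neg
  have hB : F0 =ᵐ[volume] fC := by
    refine invZero _ _ hF0c.locallyIntegrable hfCi.locallyIntegrable fun u hu hs => ?_
    obtain ⟨h, hh⟩ := hSch u hu hs
    have hhe : (fun y : E d => h y) = fun y => (u y : ℂ) := funext hh
    set uC : E d → ℂ := fun y => (u y : ℂ) with huC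
    have hui : Integrable uC := by
      rw [← hhe]
      exact h.integrable
    have hucont : Continuous uC := by
      rw [← hhe]
      exact h.continuous
    have hFu : Integrable (𝓕 uC) := by
      rw [← hhe]
      exact (𝓕 h).integrable
    have hFinv : Integrable (𝓕⁻ uC) := by
      have : 𝓕⁻ uC = fun y => 𝓕 uC (-y) := funext fun y => Real.fourierInv_eq_fourier_neg _ _
      rw [this]
      exact hFu.comp_neg
    have h1 : ∫ x, F0 x * uC x = ∫ x, 𝓕 (𝓕 fC) x * uC (-x) := by
      rw [← integral_neg_eq_self (fun x => 𝓕 (𝓕 fC) x * uC (-x))]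
      refine integral_congr_ae (Filter.Eventually.of_forall fun x => ?_)
      show F0 x * uC x = 𝓕 (𝓕 fC) (-x) * uC (- -x)
      rw [hF0e, neg_neg]
    have h2 : ∫ x, 𝓕 (𝓕 fC) x * uC (-x) = ∫ y, 𝓕 fC y * 𝓕⁻ uC y := by
      rw [invFub (𝓕 fC) (fun x => uC (-x)) hFi hui.comp_neg]
      refine integral_congr_ae (Filter.Eventually.of_forall fun y => ?_)
      show 𝓕 fC y * 𝓕 (fun x => uC (-x)) y = 𝓕 fC y * 𝓕⁻ uC y
      rw [Real.fourierInv_eq_fourier_comp_neg]
    have h3 : ∫ y, 𝓕 fC y * 𝓕⁻ uC y = ∫ x, fC x * uC x := by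
      rw [invFub fC (𝓕⁻ uC) hfCi hFinv, hucont.fourier_fourierInv_eq hui hFu]
    exact h1.trans (h2.trans h3)
  have hF0im : ∀ x, (F0 x).im = 0 := by
    have h1 : (fun x => (F0 x).im) =ᵐ[volume] fun _ => (0 : ℝ) := by
      filter_upwards [hB] with x hx
      rw [hx, hfC, Complex.ofReal_im]
    have h2 := ((Complex.continuous_im.comp hF0c).ae_eq_iff_eq volume continuous_const).1 h1
    exact fun x => congrFun h2 x
  have hFf : (fun x => (F0 x).re) =ᵐ[volume] f := by
    filter_upwards [hB] with x hx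
    rw [hx, hfC, Complex.ofReal_re]
  have hft : ∀ y, ft (fun x => (F0 x).re) y = 𝓕 fC y := by
    intro y
    unfold ft
    rw [Real.fourier_eq, Real.fourier_eq]
    refine integral_congr_ae ?_
    filter_upwards [hFf] with x hx
    rw [hx]
  refine ⟨fun x => (F0 x).re, Complex.continuous_re.comp hF0c, hFf, ?_, ?_, ?_⟩
  · intro y
    rw [hft]
    exact ⟨him y, hre y⟩
  · filter_upwards [hA] with y hy
    rw [hft, hy, Complex.ofReal_re]
  · show (F0 0).re = ∫ y, G y
    have h1 : F0 0 = ∫ y, 𝓕 fC y := by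
      rw [hF0, Real.fourierInv_eq]
      refine integral_congr_ae (Filter.Eventually.of_forall fun y => ?_)
      simp
    rw [h1, integral_congr_ae hA, integral_complex_ofReal, Complex.ofReal_re]

end Pool.Agent.Lib.MP_adb5ad_gt.W
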