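import Pool.Agent.Lib.MP_adb5ad_gt.W.Spec

set_option autoImplicit false

open MeasureTheory FourierTransform Real Filter Topology Set

namespace Pool.Agent.Lib.MP_adb5ad_gt.W

open Pool.Agent.Lib.MP_adb5ad_gt

private lemma wt_pos' (d : ℕ) (ε : ℝ) (x : E d) : 0 < wt d ε x := by
  unfold wt
  positivity

private lemma wt_le_one' (d : ℕ) {ε : ℝ} (hε : 0 < ε) (x : E d) : wt d ε x ≤ 1 := by
  unfold wt
  apply Real.rpow_le_one_of_one_le_of_nonpos
  · linarith [norm_nonneg x]
  · have : (0 : ℝ) ≤ d := Nat.cast_nonneg d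
    linarith

private lemma test_int {d : ℕ} {ε : ℝ} (hε : 0 < ε) {h : E d → ℝ} (hh : Test d ε h) :
    Integrable h := by
  obtain ⟨C, hC⟩ := hh.bd
  exact integrable_of_decay hε hh.cont (fun x => by simpa [wt] using (hC x).1)

private lemma test_int_ft {d : ℕ} {ε : ℝ} (hε : 0 < ε) {h : E d → ℝ} (hh : Test d ε h) :
    Integrable (ft h) := by
  obtain ⟨C, hC⟩ := hh.bd
  exact integrable_of_decay hε (ft_continuous (test_int hε hh)) (fun x => (hC x).2)

private lemma test_bd {d : ℕ} {ε : ℝ} (hε : 0 < ε) {h : E d → ℝ} (hh : Test d ε h) :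
    ∃ M : ℝ, 0 ≤ M ∧ ∀ x, |h x| ≤ M ∧ |(ft h x).re| ≤ M := by
  obtain ⟨C, hC⟩ := hh.bd
  refine ⟨|C|, abs_nonneg C, fun x => ?_⟩
  have h1 : C * wt d ε x ≤ |C| := by
    calc C * wt d ε x ≤ |C| * wt d ε x :=
          mul_le_mul_of_nonneg_right (le_abs_self C) (wt_pos' d ε x).le
      _ ≤ |C| * 1 := mul_le_mul_of_nonneg_left (wt_le_one' d hε x) (abs_nonneg C)
      _ = |C| := mul_one _
  exact ⟨(hC x).1.trans h1, ((Complex.abs_re_le_norm _).trans (hC x).2).trans h1⟩

theorem tRelax (h1 : S_Bas) (h2 : S_Lin) : S_Relax := by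
  intro d α f ε r₀ δ hS h b c th ha hb
  have hf := hS.opt.1
  have hε := hS.hε
  obtain ⟨M, hM0, hM⟩ := test_bd hε th
  obtain ⟨hle, -, habs, hf1, -, -, -, -, hftle, -⟩ := h1 d α hS.hd hS.hα f hf
  set N : ℝ := 2 * (π / α) ^ ((d : ℝ) / 2) with hN
  have hN0 : 0 ≤ N := (hf.ft_nonneg 0).2.trans (hftle 0)
  -- strictness
  have hgc : Continuous (fun x : E d => Real.exp (-α * ‖x‖ ^ 2) - f x) := by
    have := hf.cont
    fun_prop
  have hftc : Continuous (fun y => (ft f y).re) :=
    Complex.continuous_re.comp (ft_continuous hf.int)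
  obtain ⟨x₀, hx₀m, hx₀⟩ := (isCompact_closedBall (0 : E d) r₀).exists_isMinOn
    ⟨0, by simp [hS.hr₀.le]⟩ hgc.continuousOn
  set m := Real.exp (-α * ‖x₀‖ ^ 2) - f x₀ with hm
  have hmpos : 0 < m := sub_pos.2 (hS.strict x₀ (by simpa using hx₀m))
  have hmle : ∀ x : E d, ‖x‖ ≤ r₀ → m ≤ Real.exp (-α * ‖x‖ ^ 2) - f x := by
    intro x hx
    exact hx₀ (by simpa using hx)
  obtain ⟨y₀, hy₀m, hy₀⟩ := (isCompact_closedBall (0 : E d) δ).exists_isMinOn
    ⟨0, by simp [hS.hδ.le]⟩ hftc.continuousOn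
  set n := (ft f y₀).re with hn
  have hnpos : 0 < n := hS.pos y₀ (by simpa using hy₀m)
  have hnle : ∀ y : E d, ‖y‖ ≤ δ → n ≤ (ft f y).re := by
    intro y hy
    exact hy₀ (by simpa using hy)
  set R : ℝ := |b| * (1 + N) + M with hR
  have hR0 : 0 ≤ R := by positivity
  set s := min (1 / (|b + c| + 1)) (min (m / (R + 1)) (n / (R + 1))) with hs
  have hspos : 0 < s := by positivity
  have hs1 : s * (b + c) ≤ 1 := by
    calc s * (b + c) ≤ s * (|b + c| + 1) := by
          apply mul_le_mul_of_nonneg_left _ hspos.le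
          linarith [le_abs_self (b + c)]
      _ ≤ 1 / (|b + c| + 1) * (|b + c| + 1) :=
          mul_le_mul_of_nonneg_right (min_le_left _ _) (by positivity)
      _ = 1 := by field_simp
  have hs2 : s * R ≤ m := by
    calc s * R ≤ s * (R + 1) := mul_le_mul_of_nonneg_left (by linarith) hspos.le
      _ ≤ m / (R + 1) * (R + 1) :=
          mul_le_mul_of_nonneg_right ((min_le_right _ _).trans (min_le_left _ _)) (by positivity)
      _ = m := by field_simp
  have hs3 : s * R ≤ n := by
    calc s * R ≤ s * (R + 1) := mul_le_mul_of_nonneg_left (by linarith) hspos.le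
      _ ≤ n / (R + 1) * (R + 1) :=
          mul_le_mul_of_nonneg_right ((min_le_right _ _).trans (min_le_right _ _)) (by positivity)
      _ = n := by field_simp
  have hfabs : ∀ x, |f x| ≤ 1 := fun x => (habs x).trans hf1
  obtain ⟨hadm, -, hval⟩ := h2 d α (1 - s * b) (-s) f h hf th.cont (test_int hε th)
    (test_int_ft hε th) th.im (fun x hx0 => by
      rcases le_or_gt r₀ ‖x‖ with hx | hx
      · have a1 := ha x hx
        have a2 : 0 ≤ Real.exp (-α * ‖x‖ ^ 2) - f x := sub_nonneg.2 (hle x)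
        have a3 := mul_nonneg hspos.le a1
        have a4 : s * (b + c) * (Real.exp (-α * ‖x‖ ^ 2) - f x) ≤
            1 * (Real.exp (-α * ‖x‖ ^ 2) - f x) := mul_le_mul_of_nonneg_right hs1 a2
        nlinarith
      · have a1 := hmle x hx.le
        have a2 : |b * f x + h x| ≤ R := by
          refine (abs_add_le _ _).trans ?_
          rw [abs_mul]
          have a5 : |b| * |f x| ≤ |b| * (1 + N) :=
            mul_le_mul_of_nonneg_left ((hfabs x).trans (by linarith)) (abs_nonneg b)
          linarith [(hM x).1]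
        have a3 : s * (-(b * f x + h x)) ≤ s * R :=
          mul_le_mul_of_nonneg_left ((neg_le_abs _).trans a2) hspos.le
        nlinarith) (fun y => by
      rcases le_or_gt δ ‖y‖ with hy | hy
      · have a1 := mul_nonneg hspos.le (hb y hy)
        have a2 := (hf.ft_nonneg y).2
        have a4 : s * (b + c) * (ft f y).re ≤ 1 * (ft f y).re :=
          mul_le_mul_of_nonneg_right hs1 a2
        nlinarith
      · have a1 := hnle y hy.le
        have a2 : |b * (ft f y).re + (ft h y).re| ≤ R := by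
          refine (abs_add_le _ _).trans ?_
          rw [abs_mul, abs_of_nonneg (hf.ft_nonneg y).2]
          have a5 : |b| * (ft f y).re ≤ |b| * (1 + N) :=
            mul_le_mul_of_nonneg_left ((hftle y).trans (by linarith)) (abs_nonneg b)
          linarith [(hM y).2]
        have a3 : s * (b * (ft f y).re + (ft h y).re) ≤ s * R :=
          mul_le_mul_of_nonneg_left ((le_abs_self _).trans a2) hspos.le
        nlinarith)
  have h3 := hS.opt.2 _ hadm
  rw [hval] at h3
  by_contra hcon
  have : 0 < s * -(value h + b * value f) := mul_pos hspos (by linarith [not_le.1 hcon])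
  nlinarith

end Pool.Agent.Lib.MP_adb5ad_gt.W
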