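import Pool.Agent.Lib.MP_adb5ad_gt.CDefs
import Pool.Agent.Lib.MP_adb5ad_gt.Dual

/-!
# MP_adb5ad_gt, package W: optimal functions in the class W exist, and what holds for all of them

Notation in the docstrings: `p(x) = exp(-α|x|^2)`, `P = (π/α)^(d/2) = ∫ p`, `f^ = ft f`.
The old library (class `Admissible`, files Basic, Main, Dual, Relax, Functional, MeasureA, MeasureB,
DualMeasure, CFinal) contains proofs which can be copied and adapted; it is named in the docstrings.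
-/

set_option autoImplicit false

open MeasureTheory FourierTransform Real Filter Topology Set

noncomputable section

namespace Pool.Agent.Lib.MP_adb5ad_gt.W

open Pool.Agent.Lib.MP_adb5ad_gt

/-- The class W: continuous integrable functions with integrable nonnegative Fourier transform
below the potential. -/
structure AdmW (d : ℕ) (α : ℝ) (f : E d → ℝ) : Prop where
  cont : Continuous f
  int : Integrable f
  ftint : Integrable (ft f)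
  le_gauss : ∀ x, x ≠ 0 → f x ≤ Real.exp (-α * ‖x‖ ^ 2)
  ft_nonneg : ∀ y, (ft f y).im = 0 ∧ 0 ≤ (ft f y).re

/-- The optimal functions in the class W. -/
def IsOptW (d : ℕ) (α : ℝ) (f : E d → ℝ) : Prop :=
  AdmW d α f ∧ ∀ g : E d → ℝ, AdmW d α g → value g ≤ value f

/-! ## Block X: existence -/

/-- Basic bounds. PROOF. (1) `f ≤ p` off 0, both continuous, `E d` has no isolated points for
`d ≥ 1` (see `Dual.le_one`). (2) Fourier inversion at 0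
(`MeasureTheory.Integrable.fourierInv_fourier_eq`, as in `Admissible.zero_nonneg` of Basic).
(3) Fourier inversion at `x`: `|f x| ≤ ∫ ‖ft f‖ = ∫ (ft f).re = f 0`. (4) is (1) at 0.
(5) `∫ p = P` (`Dual.gauss_ft` at 0 with `ft` at 0 = integral), `∫ f = (ft f 0).re ≥ 0`, so
`∫ (p - f) = P - (ft f 0).re ≤ P`. (6) `|f| = |p - (p - f)| ≤ p + (p - f)`, integrate.
(7) `‖ft f y‖ ≤ ∫ |f|`. (8) `value f = ∫ f - f 0 = P - ∫ (p - f) - ∫ (ft f).re`. -/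
def S_Bas : Prop := ∀ (d : ℕ) (α : ℝ), 1 ≤ d → 0 < α → ∀ f : E d → ℝ, AdmW d α f →
  (∀ x, f x ≤ Real.exp (-α * ‖x‖ ^ 2)) ∧
  f 0 = ∫ y, (ft f y).re ∧
  (∀ x, |f x| ≤ f 0) ∧ f 0 ≤ 1 ∧
  Integrable (fun x : E d => Real.exp (-α * ‖x‖ ^ 2)) ∧
  (∫ x : E d, Real.exp (-α * ‖x‖ ^ 2)) = (π / α) ^ ((d : ℝ) / 2) ∧
  (∫ x, (Real.exp (-α * ‖x‖ ^ 2) - f x)) ≤ (π / α) ^ ((d : ℝ) / 2) ∧
  (∫ x, |f x|) ≤ 2 * (π / α) ^ ((d : ℝ) / 2) ∧
  (∀ y, (ft f y).re ≤ 2 * (π / α) ^ ((d : ℝ) / 2)) ∧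
  value f = (π / α) ^ ((d : ℝ) / 2) - (∫ x, (Real.exp (-α * ‖x‖ ^ 2) - f x)) -
    ∫ y, (ft f y).re

/-- Weak limits in `L^2` along an ultrafilter. PROOF. `∫ (u n)^2 ≤ M ∫ |u n| ≤ M^2`. For
`h ∈ L^2` Cauchy-Schwarz gives `|∫ (u n) h| ≤ M ‖h‖`, so the bounded sequence `∫ (u n) h` has a
limit `Λ h` along `U` (compactness of `Icc (-C) C`, `Ultrafilter.le_nhds...` /
`IsCompact.ultrafilter_le_nhds`). `Λ` is a bounded linear functional on `Lp ℝ 2 volume`; represent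
it by `InnerProductSpace.toDual`. -/
def S_WkA : Prop := ∀ (d : ℕ) (U : Ultrafilter ℕ) (u : ℕ → E d → ℝ) (M : ℝ),
  (∀ n, Measurable (u n)) → (∀ n x, |u n x| ≤ M) → (∀ n, Integrable (u n)) →
  (∀ n, (∫ x, |u n x|) ≤ M) →
  ∃ v : E d → ℝ, MemLp v 2 volume ∧ ∀ h : E d → ℝ, MemLp h 2 volume →
    Tendsto (fun n => ∫ x, u n x * h x) U (𝓝 (∫ x, v x * h x))

/-- Weak limits of nonnegative functions. PROOF (from S_WkA). Let `w` be the weak limit. For a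
measurable set `A` of finite measure `∫_A w = lim ∫_A u n ∈ [0, M vol A]`, so `0 ≤ w ≤ M` a.e.; let
`v` be a measurable function with values in `[0,M]` and `v = w` a.e. For a ball `B` of radius `R`:
`∫_B v = lim ∫_B u n ≤ M` and `≤ l` if `∫ u n → l`; `R → ∞` and monotone convergence give
integrability and the last claim. Bounded integrable functions are in `L^2`. -/
def S_Wk : Prop := ∀ (d : ℕ) (U : Ultrafilter ℕ) (u : ℕ → E d → ℝ) (M : ℝ),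
  (∀ n, Measurable (u n)) → (∀ n x, 0 ≤ u n x) → (∀ n x, u n x ≤ M) →
  (∀ n, Integrable (u n)) → (∀ n, (∫ x, u n x) ≤ M) →
  ∃ v : E d → ℝ, Measurable v ∧ (∀ x, 0 ≤ v x) ∧ (∀ x, v x ≤ M) ∧ Integrable v ∧
    (∀ h : E d → ℝ, Integrable h → (∃ C : ℝ, ∀ x, |h x| ≤ C) →
      Tendsto (fun n => ∫ x, u n x * h x) U (𝓝 (∫ x, v x * h x))) ∧
    ∀ l : ℝ, Tendsto (fun n => ∫ x, u n x) U (𝓝 l) → (∫ x, v x) ≤ l

/-- From a weak Fourier pair to a continuous function. PROOF. By Fubini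
(`VectorFourier.integral_fourierIntegral_smul_eq_flip`) `∫ f 𝓕h = ∫ (𝓕 f) h`, so
`∫ (𝓕 f - G) h = 0` for all Schwartz `h`, in particular for all smooth compactly supported
`h`; hence `𝓕 f = G` a.e. (`ae_eq_zero_of_integral_contDiff_smul_eq_zero`), `𝓕 f` is integrable, and
by continuity `𝓕 f` is real and nonnegative everywhere (a full measure set is dense). Let
`F₀ = 𝓕⁻ (𝓕 f)`, continuous. For Schwartz `h`: `∫ F₀ h = ∫ (𝓕 f) (𝓕⁻ h) = ∫ f 𝓕 (𝓕⁻ h) = ∫ f h`,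
so `F₀ = f` a.e.; thus `F₀` is real everywhere; `F = re F₀`. `F = f` a.e. gives `ft F = ft f`, and
`F 0 = re 𝓕⁻ (𝓕 f) 0 = ∫ (𝓕 f).re = ∫ G`. -/
def S_Inv : Prop := ∀ (d : ℕ) (f G : E d → ℝ), Integrable f → Integrable G → (∀ x, 0 ≤ G x) →
  (∀ h : SchwartzMap (E d) ℂ,
    ∫ x, (f x : ℂ) * 𝓕 (fun y : E d => h y) x = ∫ y, (G y : ℂ) * h y) →
  ∃ F : E d → ℝ, Continuous F ∧ F =ᵐ[volume] f ∧
    (∀ y, (ft F y).im = 0 ∧ 0 ≤ (ft F y).re) ∧ (fun y => (ft F y).re) =ᵐ[volume] G ∧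
    F 0 = ∫ y, G y

/-- The weak limit theorem. PROOF (from S_Bas, S_Wk, S_Inv). `K n = p - f n` and
`G n = (ft (f n)).re` are continuous, nonnegative, bounded by `M = 2P + 2`, with integrals `≤ M`
(S_Bas: `∫ K n ≤ P`, `∫ G n = f n 0 ≤ 1`, `K n ≤ 2`, `G n ≤ 2P`). Let `K`, `G` be the weak limits
of S_Wk and `f = p - K`. For Schwartz `h`: `∫ (f n) 𝓕h = ∫ (G n) h` (Fubini, `ft (f n)` real);
split in real and imaginary parts, pass to the limit along `U`: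
`∫ f 𝓕h = ∫ G h`. S_Inv gives `F`, continuous, `F = p - K ≤ p` a.e., hence everywhere; `F` integrable,
`ft F` integrable since its imaginary part is 0 and its real part is `G` a.e. So `AdmW d α F`.
VALUE: `value (f n) = P - ∫ K n - ∫ G n`, along `U` the two bounded sequences converge to `k`,
`g`, `V = P - k - g`, and `∫ K ≤ k`, `∫ G ≤ g` (S_Wk); `value F = ∫ F - F 0 = P - ∫ K - ∫ G`.
NORM: `∫ F^2 = ∫ (p - K) F = lim ∫ (f n) F ≤ lim (∫ (f n)^2 / 2 + ∫ F^2 / 2)`. -/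
def S_Lim : Prop := ∀ (d : ℕ) (α : ℝ), 1 ≤ d → 0 < α → ∀ (U : Ultrafilter ℕ)
  (f : ℕ → E d → ℝ), (∀ n, AdmW d α (f n)) → ∀ V Q : ℝ,
  Tendsto (fun n => value (f n)) U (𝓝 V) →
  Tendsto (fun n => ∫ x, (f n x) ^ 2) U (𝓝 Q) →
  ∃ F : E d → ℝ, AdmW d α F ∧ V ≤ value F ∧ (∫ x, (F x) ^ 2) ≤ Q

/-- Linear combinations. PROOF. `ft (a f + s h) = a ft f + s ft h` (integrability). -/
def S_Lin : Prop := ∀ (d : ℕ) (α a s : ℝ) (f h : E d → ℝ), AdmW d α f →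
  Continuous h → Integrable h → Integrable (ft h) → (∀ y, (ft h y).im = 0) →
  (∀ x, x ≠ 0 → a * f x + s * h x ≤ Real.exp (-α * ‖x‖ ^ 2)) →
  (∀ y, 0 ≤ a * (ft f y).re + s * (ft h y).re) →
  AdmW d α (fun x => a * f x + s * h x) ∧
    (∀ y, ft (fun x => a * f x + s * h x) y = (a : ℂ) * ft f y + (s : ℂ) * ft h y) ∧
    value (fun x => a * f x + s * h x) = a * value f + s * value h

/-- Rotations. PROOF. `Real.fourier_comp_linearIsometry`, `A 0 = 0`, `‖A x‖ = ‖x‖`,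
`A` preserves the volume (`LinearIsometryEquiv.measurePreserving`). -/
def S_Rot : Prop := ∀ (d : ℕ) (α : ℝ) (f : E d → ℝ), AdmW d α f → ∀ A : E d ≃ₗᵢ[ℝ] E d,
  AdmW d α (fun x => f (A x)) ∧ (∀ y, ft (fun x => f (A x)) y = ft f (A y)) ∧
    value (fun x => f (A x)) = value f ∧ (∫ x, (f (A x)) ^ 2) = ∫ x, (f x) ^ 2

/-- An optimal function of least `L^2` norm. PROOF (from S_Bas, S_Lim). The values on the class are
bounded above by `P` (S_Bas) and the class contains 0. Let `B` be the supremum, `f n` with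
`value (f n) → B`, `U` the hyperfilter on `ℕ`; `∫ (f n)^2 ≤ ∫ |f n| ≤ 2P` is bounded, so it has a
limit along `U`; S_Lim gives an optimal function. Now let `q ≥ 0` be the infimum of `∫ g^2` over
optimal `g`, take optimal `f n` with `∫ (f n)^2 → q` and use S_Lim with `V = B`, `Q = q`. -/
def S_Max : Prop := ∀ (d : ℕ) (α : ℝ), 1 ≤ d → 0 < α →
  ∃ f : E d → ℝ, IsOptW d α f ∧ ∀ g : E d → ℝ, IsOptW d α g → (∫ x, (f x) ^ 2) ≤ ∫ x, (g x) ^ 2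

/-- A radial optimal function. PROOF (from S_Bas, S_Lin, S_Rot, S_Max). Let `f` be of least norm,
`A` a linear isometry, `g = f ∘ A` (optimal, same norm), `h = f/2 + g/2` (optimal by S_Lin). Then
`∫ ((f - g)/2)^2 = ∫ f^2 / 2 + ∫ g^2 / 2 - ∫ h^2 ≤ 0` (squares are integrable: `|f| ≤ 1`,
integrable), so `f = g` a.e., hence everywhere by continuity (`Continuous.ae_eq_iff_eq`). If
`‖x‖ = ‖y‖` the reflection in the bisector maps `x` to `y`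
(`Submodule.reflection_sub` / `reflection_sub`). -/
def S_Rad : Prop := ∀ (d : ℕ) (α : ℝ), 1 ≤ d → 0 < α →
  ∃ f : E d → ℝ, IsOptW d α f ∧ ∀ x y : E d, ‖x‖ = ‖y‖ → f x = f y

/-- Damping. PROOF. For fixed `z` let `h(y) = (π/η)^(d/2) exp(-(π^2/η) ‖y - z‖^2)`. Its Fourier
transform at `x` is `exp(-η ‖x‖^2) exp(-2πi⟨x,z⟩)` (`Dual.gauss_ft` and a translation). By Fubini
(`VectorFourier.integral_fourierIntegral_smul_eq_flip`) `ft (f exp(-η..)) z = ∫ f 𝓕h = ∫ (𝓕 f) h`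
and `𝓕 f ≥ 0`, `h ≥ 0`. (Alternative: `f = 𝓕⁻(ft f)` and Fubini.) -/
def S_Damp : Prop := ∀ (d : ℕ) (f : E d → ℝ), Continuous f → Integrable f →
  (∀ y, (ft f y).im = 0 ∧ 0 ≤ (ft f y).re) → ∀ η : ℝ, 0 < η → ∀ z,
  (ft (fun x => f x * Real.exp (-η * ‖x‖ ^ 2)) z).im = 0 ∧
    0 ≤ (ft (fun x => f x * Real.exp (-η * ‖x‖ ^ 2)) z).re

/-- Mollifying. PROOF. `g x = ∫ k(u) Γ(x - u) du` with `b = π^2/t`,
`Γ(v) = (b/π)^(d/2) exp(-b ‖v‖^2)`, `∫ Γ = 1`, `ft Γ y = exp(-t ‖y‖^2)` (`Dual.gauss_ft`).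
Transform of `g`: `Real.fourier_mul_convolution_eq` (or Fubini). Continuity: dominated convergence or
`BddAbove.continuous_convolution...`. BOUND: with `μ = min η (b/2)` and
`‖x‖^2 ≤ 2‖u‖^2 + 2‖x-u‖^2`: `η‖u‖^2 + b‖x-u‖^2 ≥ (μ/2)‖x‖^2 + (b/2)‖x-u‖^2`. The last two
claims: `k ≤ m` integrates to `g ≤ m` (`∫ Γ = 1`); `k ≤ exp(-β‖.‖^2)` gives
`g x ≤ (b/π)^(d/2) ∫ exp(-β‖u‖^2 - b‖x-u‖^2) du` and
`β‖u‖^2 + b‖x-u‖^2 = (β+b) ‖u - (b/(β+b)) x‖^2 + (β b/(β+b)) ‖x‖^2`, so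
`g x ≤ (b/(β+b))^(d/2) exp(-(β b/(β+b)) ‖x‖^2)` and `β b/(β+b) = 1/(1/β + t/π^2)`. -/
def S_Moll : Prop := ∀ (d : ℕ) (k : E d → ℝ) (η C t : ℝ), Continuous k → 0 < η → 0 < t →
  (∀ x, |k x| ≤ C * Real.exp (-η * ‖x‖ ^ 2)) →
  ∃ g : E d → ℝ, Continuous g ∧
    (∃ C' η' : ℝ, 0 < η' ∧ ∀ x, |g x| ≤ C' * Real.exp (-η' * ‖x‖ ^ 2)) ∧
    (∀ y, ft g y = ft k y * ((Real.exp (-t * ‖y‖ ^ 2) : ℝ) : ℂ)) ∧
    (∀ m : ℝ, (∀ x, k x ≤ m) → ∀ x, g x ≤ m) ∧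
    ∀ β : ℝ, 0 < β → (∀ x, k x ≤ Real.exp (-β * ‖x‖ ^ 2)) →
      ∀ x, g x ≤ Real.exp (-(1 / (1 / β + t / π ^ 2)) * ‖x‖ ^ 2)

/-- Admissible functions are dense in the class W. PROOF (from S_Bas, S_Damp, S_Moll). For `η > 0`
let `k x = f x exp(-η‖x‖^2)`. Then `|k| ≤ exp(-η‖x‖^2)` (`|f| ≤ 1`), `k ≤ exp(-(α+η)‖x‖^2)`
(`f ≤ p`; if `f x < 0` then `k x < 0`), `k ≤ f 0`, `ft k` real and nonnegative (S_Damp) and
bounded by `∫ |k|`. Let `g` be as in S_Moll with `t = π^2 (1/α - 1/(α+η)) > 0`, so that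
`1/(1/(α+η) + t/π^2) = α`. `g` is admissible (`Dual.gauss_decay`), and
`value g = (ft k 0).re - g 0 ≥ ∫ f exp(-η‖x‖^2) - f 0 → ∫ f - f 0 = value f` for `η → 0`
(dominated convergence). -/
def S_Dens : Prop := ∀ (d : ℕ) (α : ℝ), 1 ≤ d → 0 < α → ∀ f : E d → ℝ, AdmW d α f →
  ∀ ε : ℝ, 0 < ε → ∃ g : E d → ℝ, Admissible d α g ∧ value f - ε < value g

/-- Admissible functions are in W. PROOF. `Admissible.integrable`, `Admissible.integrable_ft`. -/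
def S_Sub : Prop := ∀ (d : ℕ) (α : ℝ) (f : E d → ℝ), Admissible d α f → AdmW d α f

/-- A function in W is optimal iff its value is the supremum over the admissible functions.
PROOF (from S_Dens, S_Sub). -/
def S_Val : Prop := ∀ (d : ℕ) (α : ℝ), 1 ≤ d → 0 < α → ∀ f : E d → ℝ, AdmW d α f →
  (IsOptW d α f ↔ IsLUB {v : ℝ | ∃ g : E d → ℝ, Admissible d α g ∧ value g = v} (value f))

/-! ## Block G: duality, gaps, generic optimal function -/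

/-- There is an admissible function of positive value. PROOF. As in `value_pos` of Basic
(`exists_large_ball`, `bumpStmt`, `adm_perturb` applied to the zero function). -/
def S_Pos : Prop := ∀ (d : ℕ) (α : ℝ), 1 ≤ d → 0 < α →
  ∃ g : E d → ℝ, Admissible d α g ∧ 0 < value g

/-- Duality. PROOF (from S_Bas). As `Dual.claim`, `Dual.dual_of_pos`, with W instead of the
decay conditions: `g = p' - c f^` is continuous and integrable (`ft f` integrable), `ft g` is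
integrable. The map is an involution up to the factor `c`, `value g = c - 1 + c value f`. -/
def S_DualW : Prop := ∀ (d : ℕ) (α : ℝ), 1 ≤ d → 0 < α → ∀ f : E d → ℝ, IsOptW d α f →
  ∃ g : E d → ℝ, IsOptW d (π ^ 2 / α) g ∧
    (∀ y, g y = Real.exp (-(π ^ 2 / α) * ‖y‖ ^ 2) - (α / π) ^ ((d : ℝ) / 2) * (ft f y).re) ∧
    (∀ y, ft g y =
      (((α / π) ^ ((d : ℝ) / 2) * (Real.exp (-α * ‖y‖ ^ 2) - f (-y)) : ℝ) : ℂ)) ∧
    value g = (α / π) ^ ((d : ℝ) / 2) - 1 + (α / π) ^ ((d : ℝ) / 2) * value f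

/-- Strictness at the origin. PROOF (from S_Bas, S_Sub, S_Pos, S_DualW). `value f > 0` (S_Pos,
S_Sub) and `f 0 ≥ 0` (S_Bas: `|f 0| ≤ f 0`), so `(ft f 0).re > 0`; apply this to the dual
function `g`: `(ft g 0).re = c (1 - f 0) > 0`. -/
def S_Lt1 : Prop := ∀ (d : ℕ) (α : ℝ), 1 ≤ d → 0 < α → ∀ f : E d → ℝ, IsOptW d α f →
  f 0 < 1 ∧ 0 < (ft f 0).re

/-- The gap theorem for W. PROOF (from S_Lin, S_Lt1, S_DualW, S_Bas). Copy `contact_gap` and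
`zero_gap` of Main with `adm_perturb` replaced by S_Lin (`a = 1`), using the theorems
`sphereStmt`, `bumpStmt`, `averageStmt` of Sphere, Bump, Average. -/
def S_GapW : Prop := ∀ (d : ℕ) (α : ℝ), 2 ≤ d → 0 < α → ∀ f : E d → ℝ, IsOptW d α f →
  ∀ ρ : ℝ, 0 < ρ → ∃ s₀ : ℝ, ∀ s : ℝ, s₀ ≤ s →
    (∃ x : E d, s ≤ ‖x‖ ∧ ‖x‖ ≤ s + ρ ∧ f x = Real.exp (-α * ‖x‖ ^ 2)) ∧
    (∃ y : E d, s ≤ ‖y‖ ∧ ‖y‖ ≤ s + ρ ∧ ft f y = 0)

/-- The case `α = π`. PROOF (from S_Lin, S_Rot, S_DualW, S_Bas). `c = 1`, `π^2/π = π`. The dual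
`g = p - f^` of the radial optimal `f` is optimal for `π`, `ft g = p - f(-.) = p - f`. `F = f/2 + g/2`
is optimal (S_Lin with `h = g`), `F + F^ = (f + p - f^)/2 + (f^ + p - f)/2 = p`; `f^` is radial by
S_Rot and the reflection in the bisector. -/
def S_PiC : Prop := ∀ (d : ℕ), 1 ≤ d → ∀ f : E d → ℝ, IsOptW d π f →
  (∀ x y : E d, ‖x‖ = ‖y‖ → f x = f y) →
  ∃ F : E d → ℝ, IsOptW d π F ∧ (∀ x y : E d, ‖x‖ = ‖y‖ → F x = F y) ∧
    ∀ x, F x + (ft F x).re = Real.exp (-π * ‖x‖ ^ 2)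

/-- Countable averages. PROOF (from S_Bas). `F x = ∑' k, (1/2)^(k+1) g k x`: `|g k| ≤ 1` gives
uniform convergence, so `F` is continuous; `∫ |g k| ≤ 2P` gives integrability and
`ft F = ∑' (1/2)^(k+1) ft (g k)` (`integral_tsum` / `hasSum_integral_of_summable_integral_norm`);
`∫ ‖ft (g k)‖ = g k 0 ≤ 1` gives integrability of `ft F`. `F ≤ p`, `ft F` real and nonnegative,
`value F = ∑' (1/2)^(k+1) B = B` where `B` is the common value. If `F x = p x` then all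
`g k x = p x` (`∑' (1/2)^(k+1) (p x - g k x) = 0` with nonnegative terms); the same for zeros. -/
def S_Avg : Prop := ∀ (d : ℕ) (α : ℝ), 1 ≤ d → 0 < α → ∀ g : ℕ → E d → ℝ,
  (∀ k, IsOptW d α (g k)) → ∃ F : E d → ℝ, IsOptW d α F ∧
    (∀ x, F x = Real.exp (-α * ‖x‖ ^ 2) → ∀ k, g k x = Real.exp (-α * ‖x‖ ^ 2)) ∧
    ∀ y, ft F y = 0 → ∀ k, ft (g k) y = 0

/-- A generic optimal function: its contact points and zeros are common to all optimal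
functions. PROOF (from S_Bas, S_Avg). The map `g ↦ (g, ft g)` sends the set of optimal functions
to a subset of the separable metric space `Lp ℝ 1 × Lp ℂ 1` (second countable); choose a sequence
`g k` of optimal functions whose images are dense in the image of all of them
(`TopologicalSpace.exists_countable_dense` on the subtype; if needed repeat elements). Let `F` be
the average of S_Avg. If `F x = p x`, then `g k x = p x` for all `k`; for optimal `g` and `ε > 0`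
choose `k` with `∫ ‖ft g - ft (g k)‖ < ε`: by Fourier inversion `|g x - g k x| ≤ ε`. So
`g x = p x`. If `ft F y = 0` then `ft (g k) y = 0` and `‖ft g y - ft (g k) y‖ ≤ ∫ |g - g k|`. -/
def S_Gen : Prop := ∀ (d : ℕ) (α : ℝ), 1 ≤ d → 0 < α → (∃ f : E d → ℝ, IsOptW d α f) →
  ∃ F : E d → ℝ, IsOptW d α F ∧ ∀ g : E d → ℝ, IsOptW d α g →
    (∀ x, F x = Real.exp (-α * ‖x‖ ^ 2) → g x = Real.exp (-α * ‖x‖ ^ 2)) ∧
    ∀ y, ft F y = 0 → ft g y = 0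

/-! ## Block Q: dual measures -/

/-- The data used in the duality argument (compare `Setup` of CDefs). -/
structure SetupW (d : ℕ) (α : ℝ) (f : E d → ℝ) (ε r₀ δ : ℝ) : Prop where
  hd : 1 ≤ d
  hα : 0 < α
  opt : IsOptW d α f
  hε : 0 < ε
  hr₀ : 0 < r₀
  hδ : 0 < δ
  strict : ∀ x, ‖x‖ ≤ r₀ → f x < Real.exp (-α * ‖x‖ ^ 2)
  pos : ∀ y, ‖y‖ ≤ δ → 0 < (ft f y).re

/-- The relaxed problem. PROOF (from S_Bas, S_Lin; compare Relax). For small `s > 0` let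
`f' = (1 - s b) f - s h`. It is in W: for `‖x‖ ≥ r₀`, `-h ≤ c (p - f) + b p`, so
`f' ≤ (1 - s b) f + s c (p - f) + s b p = f + s (b + c) (p - f) ≤ p` if `s (b + c) ≤ 1`; for
`‖x‖ < r₀`, `p - f ≥ m₀ > 0` (compactness) and `|b f + h| ≤ M`, need `s M ≤ m₀`; for `‖y‖ ≥ δ`:
`(1 - s b) f^ - s h^ ≥ (1 - s b) f^ - s c f^ = (1 - s (b+c)) f^ ≥ 0`; for `‖y‖ < δ`:
`f^ ≥ n₀ > 0`. So `value f' = (1 - s b) value f - s value h ≤ value f`. -/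
def S_Relax : Prop := ∀ (d : ℕ) (α : ℝ) (f : E d → ℝ) (ε r₀ δ : ℝ), SetupW d α f ε r₀ δ →
  ∀ (h : E d → ℝ) (b c : ℝ), Test d ε h →
    (∀ x, r₀ ≤ ‖x‖ → 0 ≤ h x + c * (Real.exp (-α * ‖x‖ ^ 2) - f x) +
      b * Real.exp (-α * ‖x‖ ^ 2)) →
    (∀ y, δ ≤ ‖y‖ → 0 ≤ -(ft h y).re + c * (ft f y).re) → 0 ≤ value h + b * value f

/-- The dual functionals. PROOF (from S_Relax and `slaterStmt`; copy Functional). `P = p - f`,
`Q = (ft f).re` are now only functions `E d → ℝ` (not in `Y`), `P ≥ 0` and `Q ≥ 0`. Let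
`V = TS × ℝ × ℝ × Y × Y`, for `(h, c, b, q₁, q₂)` let `A = h + c P + b p + q₁`,
`B = -h^ + c Q + q₂`, `K = {A ≥ 0 on ‖x‖ ≥ r₀, B ≥ 0 on ‖y‖ ≥ δ}`, and
`F (h, c, b, 0, 0) = value h + b value f`, nonnegative on `K` by S_Relax. Domination: for
`v = (h₀, c₀, b₀, q₁, q₂)` take `(k, |c₀|, 0, 0, 0)` with `k` as in Functional
(`k ≥ M wt` on `‖x‖ ≥ r₀`, `-k^ ≥ M wt` on `‖y‖ ≥ δ`, `M` large;
`p ≤ Cp wt`). `riesz_extension` gives `G ≥ 0` on `K`; `l₁ q = G (0,0,0,q,0)`, `l₂ q = G (0,0,0,0,q)`.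
Value identity: `(h, 0, 0, -q₁, q₂)` and its negative are in `K`. `l₁ p = value f`:
`(0,0,1,-p,0)` and its negative are in `K`. Slackness: `(0,1,0,-q,0)` resp. `(0,1,0,0,-q)` is in
`K` and `G (0,1,0,0,0) = 0`. -/
def S_Fun : Prop := ∀ (d : ℕ) (α : ℝ) (f : E d → ℝ) (ε r₀ δ : ℝ),
  SetupW d α f ε r₀ δ → ∃ l₁ l₂ : Y d ε →ₗ[ℝ] ℝ,
    (∀ q : Y d ε, (∀ x, r₀ ≤ ‖x‖ → 0 ≤ q.1 x) → 0 ≤ l₁ q) ∧
    (∀ q : Y d ε, (∀ y, δ ≤ ‖y‖ → 0 ≤ q.1 y) → 0 ≤ l₂ q) ∧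
    (∀ h : E d → ℝ, Test d ε h → ∀ q₁ q₂ : Y d ε, (∀ x, q₁.1 x = h x) →
      (∀ y, q₂.1 y = (ft h y).re) → l₁ q₁ - l₂ q₂ = value h) ∧
    (∀ q : Y d ε, (∀ x, q.1 x = Real.exp (-α * ‖x‖ ^ 2)) → l₁ q = value f) ∧
    (∀ q : Y d ε, (∀ x, r₀ ≤ ‖x‖ → q.1 x ≤ Real.exp (-α * ‖x‖ ^ 2) - f x) → l₁ q ≤ 0) ∧
    (∀ q : Y d ε, (∀ y, δ ≤ ‖y‖ → q.1 y ≤ (ft f y).re) → l₂ q ≤ 0)

/-- Complementary slackness. PROOF. Copy MeasureB: `q = φ(‖x‖^2) ≤ g` on `‖x‖ ≥ r₀`, so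
`∫ φ dm = l q ≤ 0`. -/
def S_MB : Prop := ∀ (d : ℕ) (ε r₀ : ℝ), 1 ≤ d → 0 < ε → 0 < r₀ →
  ∀ (l : Y d ε →ₗ[ℝ] ℝ) (m : Measure ℝ), Represents d ε r₀ l m →
    ∀ g : E d → ℝ, Continuous g → (∀ x, r₀ ≤ ‖x‖ → 0 ≤ g x) →
      (∀ q : Y d ε, (∀ x, r₀ ≤ ‖x‖ → q.1 x ≤ g x) → l q ≤ 0) →
      m {s : ℝ | ∀ x : E d, ‖x‖ ^ 2 = s → g x ≠ 0} = 0

/-- The dual measures of an optimal function. PROOF (from S_Lt1, S_Fun, S_MB and `measureAStmt`;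
copy DualMeasure with `ε = 1`). New: `∫ exp(-α s) dm = l₁ p = value f` (Represents with
`φ(s) = exp(-α s)`), and S_MB also for `l₂`, `n`, `g = (ft f).re` (`ft f y = 0` iff
`(ft f y).re = 0`). -/
def S_DM : Prop := ∀ (d : ℕ) (α : ℝ) (f : E d → ℝ), 1 ≤ d → 0 < α →
  IsOptW d α f → ∃ m n : Measure ℝ, ∃ a : ℝ, 0 < a ∧ m (Iio a) = 0 ∧ n (Iio a) = 0 ∧
    (∀ t : ℝ, 0 < t → Integrable (fun x => Real.exp (-t * x)) m) ∧
    (∀ t : ℝ, 0 < t → Integrable (fun x => Real.exp (-t * x)) n) ∧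
    (∀ z : ℂ, 0 < z.re → 1 + LT m z = z ^ (-((d : ℂ) / 2)) * (1 + LT n (1 / z))) ∧
    (∫ s, Real.exp (-α * s) ∂m) = value f ∧
    m {s : ℝ | ∀ x : E d, ‖x‖ ^ 2 = s → f x ≠ Real.exp (-α * ‖x‖ ^ 2)} = 0 ∧
    n {s : ℝ | ∀ y : E d, ‖y‖ ^ 2 = s → ft f y ≠ 0} = 0

/-- Quadratic growth. PROOF (from S_DM and `countStmt`, `boundStmt`...; copy `contact_count` of
CFinal for `m` and again for `n` (the pair `(n, m)` is also a theta pair: `thetaPair_of` gives both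
functional equations, so swap)). -/
def S_CC : Prop := ∀ (d : ℕ) (α : ℝ), 3 ≤ d → 0 < α → ∀ f : E d → ℝ, IsOptW d α f →
  ∃ c X₀ : ℝ, 0 < c ∧ ∀ X : ℝ, X₀ ≤ X →
    c * X ≤ ({j : ℕ | (j : ℝ) < X ∧ ∃ x : E d, x ≠ 0 ∧ (j : ℝ) ≤ ‖x‖ ^ 2 ∧
      ‖x‖ ^ 2 < j + 1 ∧ f x = Real.exp (-α * ‖x‖ ^ 2)}.ncard : ℝ) ∧
    c * X ≤ ({j : ℕ | (j : ℝ) < X ∧ ∃ y : E d, y ≠ 0 ∧ (j : ℝ) ≤ ‖y‖ ^ 2 ∧
      ‖y‖ ^ 2 < j + 1 ∧ ft f y = 0}.ncard : ℝ)

end Pool.Agent.Lib.MP_adb5ad_gt.W
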